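import Mathlib

set_option autoImplicit false

/-! Sums over progressions. -/

namespace Pool.Agent.N913.MT

open Finset

/-- the logarithm on the primes beyond `R` -/
noncomputable def th (R u : ℕ) : ℝ := if u.Prime ∧ R < u then Real.log u else 0

theorem th_nonneg (R u : ℕ) : 0 ≤ th R u := by
  unfold th
  split_ifs
  · exact Real.log_natCast_nonneg u
  · exact le_rfl

theorem th_le (R u Y : ℕ) (h : u ≤ Y) : th R u ≤ Real.log Y := by
  unfold th
  split_ifs with h1
  · exact Real.log_le_log (by exact_mod_cast h1.1.pos) (by exact_mod_cast h)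
  · exact Real.log_natCast_nonneg Y

theorem cmod (n q a : ℕ) (hq : 1 ≤ q) :
    |(((range n).filter (fun s => s ≡ a [MOD q])).card : ℝ) - n / q| ≤ 1 := by
  have h0 : ((range n).filter (fun s => s ≡ a [MOD q])).card = n.count (fun s => s ≡ a [MOD q]) := by
    rw [Nat.count_eq_card_filter_range]
  rw [h0, Nat.count_modEq_card n hq a]
  have hq0 : (0 : ℝ) < q := by exact_mod_cast hq
  have h1 : (n : ℝ) / q - 1 ≤ ((n / q : ℕ) : ℝ) := by
    have h2 := Nat.lt_div_mul_add hq (a := n)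
    rw [div_sub_one hq0.ne', div_le_iff₀ hq0]
    have h3 : (n : ℝ) < ((n / q : ℕ) : ℝ) * q + q := by exact_mod_cast h2
    linarith
  have h2 : ((n / q : ℕ) : ℝ) ≤ n / q := Nat.cast_div_le
  split_ifs with h3
  · have h4 : (n % q : ℕ) > 0 := by omega
    have h5 : (((n / q : ℕ) + 1 : ℕ) : ℝ) - 1 < n / q + 0 ∨ True := Or.inr trivial
    rw [abs_le]
    push_cast
    constructor <;> linarith
  · rw [abs_le]
    push_cast
    constructor <;> linarith

theorem Aid (q a n : ℕ) :
    ∑ s ∈ (range n).filter (fun s => s ≡ a [MOD q]), (2 * (s : ℝ) + 1) =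
      (2 * (n : ℝ) - 1) * ((range n).filter (fun s => s ≡ a [MOD q])).card -
        2 * ∑ j ∈ range n, (((range j).filter (fun s => s ≡ a [MOD q])).card : ℝ) := by
  induction n with
  | zero => simp
  | succ n ih =>
    have e1 : (range (n + 1)).filter (fun s => s ≡ a [MOD q]) =
        if n ≡ a [MOD q] then insert n ((range n).filter (fun s => s ≡ a [MOD q])) else
        (range n).filter (fun s => s ≡ a [MOD q]) := by
      rw [range_add_one, filter_insert]
    rw [e1, sum_range_succ]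
    split_ifs with h
    · rw [sum_insert (by simp), card_insert_of_notMem (by simp), ih]
      push_cast
      ring
    · rw [ih]
      push_cast
      ring

theorem Asum (q a n : ℕ) (hq : 1 ≤ q) :
    |∑ s ∈ (range n).filter (fun s => s ≡ a [MOD q]), (2 * (s : ℝ) + 1) - (n : ℝ) ^ 2 / q| ≤
      4 * n + 1 := by
  rw [Aid]
  have hq0 : (0 : ℝ) < q := by exact_mod_cast hq
  have h1 := cmod n q a hq
  have h2 : |∑ j ∈ range n, ((((range j).filter (fun s => s ≡ a [MOD q])).card : ℝ) - j / q)| ≤ n := by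
    refine (abs_sum_le_sum_abs _ _).trans ?_
    refine (sum_le_sum fun j _ => cmod j q a hq).trans ?_
    simp
  have h3 : ∑ j ∈ range n, (j : ℝ) / q = (n * (n - 1) / 2) / q := by
    rw [← sum_div]
    congr 1
    clear h1 h2
    induction n with
    | zero => simp
    | succ n ih => rw [sum_range_succ, ih]; push_cast; ring
  rw [sum_sub_distrib, h3] at h2
  set c : ℝ := (((range n).filter (fun s => s ≡ a [MOD q])).card : ℝ) with hc
  set D : ℝ := ∑ j ∈ range n, (((range j).filter (fun s => s ≡ a [MOD q])).card : ℝ) with hD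
  have e : (2 * (n : ℝ) - 1) * c - 2 * D - (n : ℝ) ^ 2 / q =
      (2 * (n : ℝ) - 1) * (c - n / q) - 2 * (D - (n * (n - 1) / 2) / q) := by
    field_simp
    ring
  rw [e]
  refine (abs_sub _ _).trans ?_
  rw [abs_mul, abs_mul, abs_two]
  have h4 : |2 * (n : ℝ) - 1| ≤ 2 * n + 1 := by
    rw [abs_le]
    have : (0 : ℝ) ≤ n := Nat.cast_nonneg n
    constructor <;> linarith
  have h5 : |2 * (n : ℝ) - 1| * |c - n / q| ≤ (2 * n + 1) * 1 :=
    mul_le_mul h4 h1 (abs_nonneg _) (by positivity)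
  linarith

/-- the hypothesis on primes in progressions -/
def BVh (R Y : ℕ) (M : ℕ → ℝ) : Prop :=
  ∀ q : ℕ, 1 ≤ q → (∀ p : ℕ, p.Prime → p ∣ q → p ≤ R) → ∀ a : ℕ, ∀ y : ℕ, y ≤ Y →
    |∑ u ∈ (Icc 1 y).filter (fun u => u ≡ a [MOD q]), th R u -
      (if a.Coprime q then (y : ℝ) / Nat.totient q else 0)| ≤ M q

theorem AP1 (R Y : ℕ) (M : ℕ → ℝ) (hM : BVh R Y M) (d q : ℕ) (hd : 1 ≤ d) (hq : 1 ≤ q)
    (hR : ∀ p : ℕ, p.Prime → p ∣ d * q → p ≤ R) (u0 a s1 s2 : ℕ) (hu0 : 1 ≤ u0) (hs : s1 ≤ s2)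
    (hY : u0 + d * s2 ≤ Y + 1) :
    |∑ s ∈ (Ico s1 s2).filter (fun s => s ≡ a [MOD q]), th R (u0 + d * s) -
      (if (u0 + d * a).Coprime (d * q) then (d : ℝ) * (s2 - s1) / Nat.totient (d * q) else 0)| ≤
      2 * M (d * q) := by
  have e1 : ∑ s ∈ (Ico s1 s2).filter (fun s => s ≡ a [MOD q]), th R (u0 + d * s) =
      ∑ u ∈ (Ico (u0 + d * s1) (u0 + d * s2)).filter (fun u => u ≡ u0 + d * a [MOD (d * q)]), th R u := by
    apply sum_bij (fun s _ => u0 + d * s)
    · intro s hs'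
      rw [mem_filter, mem_Ico] at hs' ⊢
      obtain ⟨⟨h1, h2⟩, h3⟩ := hs'
      refine ⟨⟨by gcongr, ?_⟩, Nat.ModEq.add_left _ (Nat.ModEq.mul_left' d h3)⟩
      have : d * s < d * s2 := Nat.mul_lt_mul_of_pos_left h2 hd
      omega
    · intro s _ s' _ h
      have : d * s = d * s' := by omega
      exact Nat.eq_of_mul_eq_mul_left hd this
    · intro u hu
      rw [mem_filter, mem_Ico] at hu
      obtain ⟨⟨h1, h2⟩, h3⟩ := hu
      have h4 : u0 ≤ u := by
        have : 0 ≤ d * s1 := Nat.zero_le _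
        omega
      obtain ⟨v, hv⟩ := Nat.exists_eq_add_of_le h4
      subst hv
      have h5 : v ≡ d * a [MOD (d * q)] := Nat.ModEq.add_left_cancel' u0 h3
      have h6 : d ∣ v := by
        have h7 : v ≡ d * a [MOD d] := h5.of_mul_right q
        have h8 : d * a ≡ 0 [MOD d] := (Nat.modEq_zero_iff_dvd.2 (dvd_mul_right d a))
        exact Nat.modEq_zero_iff_dvd.1 (h7.trans h8)
      obtain ⟨s, rfl⟩ := h6
      have h7 : s ≡ a [MOD q] := Nat.ModEq.mul_left_cancel' (by omega) h5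
      refine ⟨s, ?_, rfl⟩
      rw [mem_filter, mem_Ico]
      refine ⟨⟨?_, ?_⟩, h7⟩
      · have : d * s1 ≤ d * s := by omega
        exact Nat.le_of_mul_le_mul_left this hd
      · have : d * s < d * s2 := by omega
        exact Nat.lt_of_mul_lt_mul_left this
    · intro s _
      rfl
  have hle : u0 + d * s1 ≤ u0 + d * s2 := by gcongr
  have e2 : (Icc 1 (u0 + d * s2 - 1)).filter (fun u => u ≡ u0 + d * a [MOD (d * q)]) =
      (Icc 1 (u0 + d * s1 - 1)).filter (fun u => u ≡ u0 + d * a [MOD (d * q)]) ∪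
      (Ico (u0 + d * s1) (u0 + d * s2)).filter (fun u => u ≡ u0 + d * a [MOD (d * q)]) := by
    rw [← filter_union]
    congr 1
    ext u
    simp only [mem_union, mem_Icc, mem_Ico]
    omega
  have hdis : Disjoint ((Icc 1 (u0 + d * s1 - 1)).filter (fun u => u ≡ u0 + d * a [MOD (d * q)]))
      ((Ico (u0 + d * s1) (u0 + d * s2)).filter (fun u => u ≡ u0 + d * a [MOD (d * q)])) := by
    rw [disjoint_left]
    intro u h1 h2
    rw [mem_filter, mem_Icc] at h1
    rw [mem_filter, mem_Ico] at h2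
    omega
  have e3 := sum_union hdis (f := th R)
  rw [← e2] at e3
  have hdq : 1 ≤ d * q := Nat.mul_pos hd hq
  have h1 := hM (d * q) hdq hR (u0 + d * a) (u0 + d * s1 - 1) (by omega)
  have h2 := hM (d * q) hdq hR (u0 + d * a) (u0 + d * s2 - 1) (by omega)
  rw [e1]
  have e4 : (if (u0 + d * a).Coprime (d * q) then (d : ℝ) * (s2 - s1) / Nat.totient (d * q) else 0) =
      (if (u0 + d * a).Coprime (d * q) then ((u0 + d * s2 - 1 : ℕ) : ℝ) / Nat.totient (d * q) else 0) -
      (if (u0 + d * a).Coprime (d * q) then ((u0 + d * s1 - 1 : ℕ) : ℝ) / Nat.totient (d * q) else 0) := by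
    split_ifs
    · rw [Nat.cast_sub (by omega), Nat.cast_sub (by omega), ← sub_div]
      congr 1
      push_cast
      ring
    · simp
  rw [e4]
  have e5 : ∑ u ∈ (Ico (u0 + d * s1) (u0 + d * s2)).filter (fun u => u ≡ u0 + d * a [MOD (d * q)]), th R u =
      ∑ u ∈ (Icc 1 (u0 + d * s2 - 1)).filter (fun u => u ≡ u0 + d * a [MOD (d * q)]), th R u -
      ∑ u ∈ (Icc 1 (u0 + d * s1 - 1)).filter (fun u => u ≡ u0 + d * a [MOD (d * q)]), th R u := by
    rw [e3]; ring
  rw [e5]
  rw [abs_le] at h1 h2 ⊢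
  constructor <;> linarith [h1.1, h1.2, h2.1, h2.2]

end Pool.Agent.N913.MT
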