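import Pool.Agent.N913.MT.B2

set_option autoImplicit false
set_option linter.unusedSectionVars false

/-! The local factors. -/

namespace Pool.Agent.N913.MT

open Finset

/-- ideal factors -/
noncomputable def idf (ν : ℝ) (isl : Prop) [Decidable isl] (c : ℕ) : ℝ :=
  if isl then ν ^ c else (if c = 0 then 1 else if c = 1 then 0 else ν)

/-- the character -/
noncomputable def chi (p : ℕ) (τ : ℕ) (x : ℕ × ℕ) : ℝ :=
  if (p : ℤ) ∣ vv τ x then -1 else 1 / ((p : ℝ) - 1)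

section loc
variable {B J : Type} [Fintype B] [Fintype J] [DecidableEq B] [DecidableEq J]

/-- number of copies -/
def cnt (A : Finset (B × Bool × J)) (q : B × J) : ℕ :=
  (univ.filter (fun c : Bool => (q.1, c, q.2) ∈ A)).card

/-- ideal local averages -/
noncomputable def Ip (ν : ℝ) (l : Option J) (A : Finset (B × Bool × J)) : ℝ :=
  ∏ q : B × J, idf ν (l = some q.2) (cnt A q)

/-- the factor of the prime slots -/
noncomputable def pf (p : ℕ) (l : Option J) (pos : B × J → ℕ) (x : ℕ × ℕ) : ℝ :=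
  ∏ q : B × J, if l = some q.2 then (if (p : ℤ) ∣ vv (pos q) x then 0 else 1 + 1 / ((p : ℝ) - 1)) else 1

theorem prod_slots {M : Type} [CommMonoid M] (A : Finset (B × Bool × J)) (f : B × J → M) :
    ∏ τ ∈ A, f (τ.1, τ.2.2) = ∏ q : B × J, f q ^ cnt A q := by
  have h1 : ∏ τ ∈ A, f (τ.1, τ.2.2) = ∏ τ : B × Bool × J, if τ ∈ A then f (τ.1, τ.2.2) else 1 := by
    rw [prod_ite_mem, univ_inter]
  rw [h1, Fintype.prod_prod_type, Fintype.prod_prod_type]
  refine prod_congr rfl fun b _ => ?_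
  rw [Fintype.prod_prod_type, prod_comm]
  refine prod_congr rfl fun j _ => ?_
  rw [← prod_filter]
  simp only [prod_const]
  rfl

theorem cnt_le (A : Finset (B × Bool × J)) (q : B × J) : cnt A q ≤ 2 := by
  unfold cnt
  exact (card_filter_le _ _).trans (by simp)

theorem local_good (p : ℕ) (hp : p.Prime) (h3 : 3 ≤ p) (l : Option J) (pos : B × J → ℕ)
    (hpos : ∀ q q', q ≠ q' → ¬ (p : ℤ) ∣ (pos q : ℤ) - pos q') (A : Finset (B × Bool × J)) :
    |(∑ x ∈ Cl p, pf p l pos x * ∏ τ ∈ A, chi p (pos (τ.1, τ.2.2)) x) / (p : ℝ) ^ 2 -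
      Ip (1 / ((p : ℝ) - 1)) l A| ≤ (1 / (p : ℝ)) ^ 3 * 4 ^ (Fintype.card (B × J)) := by
  have hp3 : (3 : ℝ) ≤ p := by exact_mod_cast h3
  obtain ⟨ν, hν⟩ : ∃ ν, ν = 1 / ((p : ℝ) - 1) := ⟨_, rfl⟩
  have hν0 : 0 < ν := by rw [hν]; apply div_pos one_pos; linarith
  have hν1 : ν ≤ 1 / 2 := by
    rw [hν]
    apply one_div_le_one_div_of_le <;> linarith
  have hpν : 1 / (p : ℝ) = ν / (1 + ν) := by
    rw [hν]
    have h1 : (p : ℝ) - 1 ≠ 0 := by linarith
    have h2 : (p : ℝ) ≠ 0 := by linarith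
    have h4 : 1 + 1 / ((p : ℝ) - 1) = p / (p - 1) := by field_simp; ring
    rw [h4, div_div_div_cancel_right₀ h1]
  have hA := local_mix p hp (by omega) pos hpos
    (fun q => if l = some q.2 then (1 + ν) * ν ^ cnt A q else ν ^ cnt A q)
    (fun q => if l = some q.2 then -((1 + ν) * ν ^ cnt A q) else (-1) ^ cnt A q - ν ^ cnt A q)
  have e1 : ∀ x, pf p l pos x * ∏ τ ∈ A, chi p (pos (τ.1, τ.2.2)) x =
      ∏ q, (if (p : ℤ) ∣ vv (pos q) x then
        (if l = some q.2 then (1 + ν) * ν ^ cnt A q else ν ^ cnt A q) +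
        (if l = some q.2 then -((1 + ν) * ν ^ cnt A q) else (-1) ^ cnt A q - ν ^ cnt A q)
        else (if l = some q.2 then (1 + ν) * ν ^ cnt A q else ν ^ cnt A q)) := by
    intro x
    rw [prod_slots A (fun q => chi p (pos q) x)]
    unfold pf
    rw [← prod_mul_distrib]
    refine prod_congr rfl fun q _ => ?_
    unfold chi
    rw [← hν]
    by_cases h1 : l = some q.2
    · by_cases h2 : (p : ℤ) ∣ vv (pos q) x
      · simp [h1, h2]
      · simp [h1, h2]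
    · by_cases h2 : (p : ℤ) ∣ vv (pos q) x
      · simp [h1, h2]
      · simp [h1, h2]
  have e2 : Ip (1 / ((p : ℝ) - 1)) l A =
      ∏ q, ((if l = some q.2 then (1 + ν) * ν ^ cnt A q else ν ^ cnt A q) +
        (if l = some q.2 then -((1 + ν) * ν ^ cnt A q) else (-1) ^ cnt A q - ν ^ cnt A q) / p) := by
    unfold Ip
    rw [← hν]
    refine prod_congr rfl fun q _ => ?_
    unfold idf
    have hc := cnt_le A q
    rw [div_eq_mul_one_div _ (p : ℝ), hpν]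
    by_cases h1 : l = some q.2
    · simp only [h1, if_true]
      field_simp
      ring
    · simp only [h1, if_false]
      interval_cases hc' : cnt A q
      · simp
      · simp only [one_ne_zero, if_false, if_true, pow_one]
        field_simp
        ring
      · simp only [show (2 : ℕ) ≠ 0 by norm_num, show (2 : ℕ) ≠ 1 by norm_num, if_false]
        field_simp
        ring
  rw [sum_congr rfl (fun x _ => e1 x), e2]
  refine hA.trans ?_
  apply mul_le_mul_of_nonneg_left _ (by positivity)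
  have hcard : (4 : ℝ) ^ (Fintype.card (B × J)) = ∏ _q : B × J, (4 : ℝ) := by
    rw [prod_const, card_univ]
  rw [hcard]
  apply prod_le_prod
  · intro q _
    positivity
  · intro q _
    have hn : ∀ n : ℕ, 0 ≤ ν ^ n ∧ ν ^ n ≤ 1 := fun n =>
      ⟨pow_nonneg hν0.le n, pow_le_one₀ hν0.le (by linarith)⟩
    obtain ⟨a1, a2⟩ := hn (cnt A q)
    by_cases h1 : l = some q.2
    · simp only [h1, if_true, abs_neg]
      rw [abs_of_nonneg (by positivity)]
      nlinarith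
    · simp only [h1, if_false]
      have h5 : |(-1 : ℝ) ^ cnt A q| = 1 := by rw [abs_pow]; simp
      have h6 := abs_sub ((-1 : ℝ) ^ cnt A q) (ν ^ cnt A q)
      rw [h5, abs_of_nonneg a1] at h6
      rw [abs_of_nonneg a1]
      linarith

theorem chi_abs (p : ℕ) (h3 : 3 ≤ p) (τ : ℕ) (x : ℕ × ℕ) :
    |chi p τ x| ≤ 1 ∧ |chi p τ x| ≤ 2 / p + (if (p : ℤ) ∣ vv τ x then 1 else 0) := by
  have hp3 : (3 : ℝ) ≤ p := by exact_mod_cast h3
  have h1 : 1 / ((p : ℝ) - 1) ≤ 2 / p := by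
    rw [div_le_div_iff₀ (by linarith) (by linarith)]
    linarith
  have h2 : 2 / (p : ℝ) ≤ 1 := by rw [div_le_one (by linarith)]; linarith
  have h0 : 0 ≤ 1 / ((p : ℝ) - 1) := by apply div_nonneg zero_le_one; linarith
  have h4 : 0 ≤ 2 / (p : ℝ) := by positivity
  unfold chi
  split_ifs
  · constructor
    · simp
    · simp [h4]
  · rw [abs_of_nonneg h0]
    constructor <;> linarith

theorem prod_chi_le (p : ℕ) (h3 : 3 ≤ p) (pos : B × J → ℕ) (A : Finset (B × Bool × J))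
    (τ : B × Bool × J) (hτ : τ ∈ A) (x : ℕ × ℕ) :
    |∏ τ ∈ A, chi p (pos (τ.1, τ.2.2)) x| ≤
      2 / p + (if (p : ℤ) ∣ vv (pos (τ.1, τ.2.2)) x then 1 else 0) := by
  rw [abs_prod, ← mul_prod_erase A _ hτ]
  have h1 : ∏ τ ∈ A.erase τ, |chi p (pos (τ.1, τ.2.2)) x| ≤ 1 :=
    prod_le_one (fun _ _ => abs_nonneg _) (fun τ _ => (chi_abs p h3 _ x).1)
  have h2 := (chi_abs p h3 (pos (τ.1, τ.2.2)) x).2
  calc _ ≤ |chi p (pos (τ.1, τ.2.2)) x| * 1 := mul_le_mul_of_nonneg_left h1 (abs_nonneg _)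
    _ ≤ _ := by rw [mul_one]; exact h2

/-- the total variation -/
theorem sum_chi (p : ℕ) (hp : p.Prime) (h3 : 3 ≤ p) (pos : B × J → ℕ) (A : Finset (B × Bool × J))
    (hA : A.Nonempty) : ∑ x ∈ Cl p, |∏ τ ∈ A, chi p (pos (τ.1, τ.2.2)) x| ≤ 3 * p := by
  obtain ⟨τ, hτ⟩ := hA
  have hp3 : (3 : ℝ) ≤ p := by exact_mod_cast h3
  refine (sum_le_sum fun x _ => prod_chi_le p h3 pos A τ hτ x).trans ?_
  rw [sum_add_distrib, sum_const, nsmul_eq_mul]
  have h1 : ∑ x ∈ Cl p, (if (p : ℤ) ∣ vv (pos (τ.1, τ.2.2)) x then (1 : ℝ) else 0) = p := by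
    rw [← sum_filter, sum_const, nsmul_eq_mul, card_Z1 p hp.pos, mul_one]
  have h2 : ((Cl p).card : ℝ) * (2 / p) = 2 * p := by
    unfold Cl
    rw [card_product, card_range]
    push_cast
    field_simp
  rw [h1, h2]
  linarith

/-- bad primes -/
theorem local_bad (p : ℕ) (hp : p.Prime) (h3 : 3 ≤ p) (β : ℕ × ℕ → ℝ)
    (hβ : ∀ x, |β x| ≤ 4 / (p : ℝ) ^ 2) (pos : B × J → ℕ) (A : Finset (B × Bool × J))
    (hA : A.Nonempty) : |∑ x ∈ Cl p, β x * ∏ τ ∈ A, chi p (pos (τ.1, τ.2.2)) x| ≤ 12 / p := by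
  have hp3 : (3 : ℝ) ≤ p := by exact_mod_cast h3
  refine (abs_sum_le_sum_abs _ _).trans ?_
  have h1 : ∀ x ∈ Cl p, |β x * ∏ τ ∈ A, chi p (pos (τ.1, τ.2.2)) x| ≤
      4 / (p : ℝ) ^ 2 * |∏ τ ∈ A, chi p (pos (τ.1, τ.2.2)) x| := by
    intro x _
    rw [abs_mul]
    exact mul_le_mul_of_nonneg_right (hβ x) (abs_nonneg _)
  refine (sum_le_sum h1).trans ?_
  rw [← mul_sum]
  refine (mul_le_mul_of_nonneg_left (sum_chi p hp h3 pos A hA) (by positivity)).trans (le_of_eq ?_)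
  field_simp
  norm_num

theorem idf_bd (ν : ℝ) (h0 : 0 ≤ ν) (h1 : ν ≤ 1) (isl : Prop) [Decidable isl] (c : ℕ) :
    0 ≤ idf ν isl c ∧ idf ν isl c ≤ 1 ∧ (c ≠ 0 → idf ν isl c ≤ ν) := by
  unfold idf
  split_ifs with h2 h3 h4
  · refine ⟨pow_nonneg h0 _, pow_le_one₀ h0 h1, fun hc => ?_⟩
    calc ν ^ c ≤ ν ^ 1 := pow_le_pow_of_le_one h0 h1 (Nat.one_le_iff_ne_zero.2 hc)
      _ = ν := pow_one ν
  · exact ⟨zero_le_one, le_rfl, fun hc => absurd h3 hc⟩
  · exact ⟨le_rfl, zero_le_one, fun _ => h0⟩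
  · exact ⟨h0, h1, fun _ => le_rfl⟩

theorem Ip_bd (ν : ℝ) (h0 : 0 ≤ ν) (h1 : ν ≤ 1) (l : Option J) (A : Finset (B × Bool × J))
    (hA : A.Nonempty) : 0 ≤ Ip ν l A ∧ Ip ν l A ≤ ν := by
  unfold Ip
  constructor
  · exact prod_nonneg fun q _ => (idf_bd ν h0 h1 _ _).1
  · obtain ⟨τ, hτ⟩ := hA
    rw [← mul_prod_erase univ _ (mem_univ (τ.1, τ.2.2))]
    have h2 : cnt A (τ.1, τ.2.2) ≠ 0 := by
      unfold cnt
      rw [Ne, card_eq_zero, ← Ne, ← nonempty_iff_ne_empty]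
      exact ⟨τ.2.1, mem_filter.2 ⟨mem_univ _, hτ⟩⟩
    have h3 := (idf_bd ν h0 h1 (l = some τ.2.2) (cnt A (τ.1, τ.2.2))).2.2 h2
    have h4 : ∏ q ∈ univ.erase (τ.1, τ.2.2), idf ν (l = some q.2) (cnt A q) ≤ 1 :=
      prod_le_one (fun q _ => (idf_bd ν h0 h1 _ _).1) (fun q _ => (idf_bd ν h0 h1 _ _).2.1)
    have h5 := (idf_bd ν h0 h1 (l = some τ.2.2) (cnt A (τ.1, τ.2.2))).1
    calc _ ≤ idf ν (l = some τ.2.2) (cnt A (τ.1, τ.2.2)) * 1 := mul_le_mul_of_nonneg_left h4 h5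
      _ ≤ ν := by rw [mul_one]; exact h3

theorem Ip_empty (ν : ℝ) (l : Option J) : Ip ν l (∅ : Finset (B × Bool × J)) = 1 := by
  unfold Ip
  apply prod_eq_one
  intro q _
  have : cnt (∅ : Finset (B × Bool × J)) q = 0 := by unfold cnt; simp
  rw [this]
  unfold idf
  simp

end loc

end Pool.Agent.N913.MT
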