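import Pool.Agent.N913.MT.B1
import Pool.Agent.N913.MT.B3

set_option autoImplicit false
set_option linter.unusedSectionVars false

/-! The ideal main term and the comparison. -/

namespace Pool.Agent.N913.MT

open Finset

section idl
variable {S B J : Type} [Fintype S] [DecidableEq S] [Fintype B] [Fintype J] [DecidableEq B]
  [DecidableEq J]

/-- the kernel -/
noncomputable def kap (ν : S → ℝ) (isl : Prop) [Decidable isl] (a : Finset S × Finset S) : ℝ :=
  ∏ t, idf (ν t) isl ((if t ∈ a.1 then 1 else 0) + (if t ∈ a.2 then 1 else 0))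

/-- the ideal quadratic form -/
noncomputable def Wb (ν : S → ℝ) (l : Option J) (y : (J → Finset S) → ℝ) : ℝ :=
  ∑ φ : J → Finset S × Finset S, y (fun j => (φ j).1) * y (fun j => (φ j).2) *
    ∏ j, kap ν (l = some j) (φ j)

/-- currying -/
def unc : (B × Bool × J → Finset S) ≃ (B → J → Finset S × Finset S) where
  toFun F b j := (F (b, false, j), F (b, true, j))
  invFun G τ := if τ.2.1 then (G τ.1 τ.2.2).2 else (G τ.1 τ.2.2).1
  left_inv F := by
    funext τ
    obtain ⟨b, c, j⟩ := τ
    cases c <;> simp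
  right_inv G := by
    funext b j
    simp

/-- the product weights -/
noncomputable def Yp (y : (J → Finset S) → ℝ) (F : B × Bool × J → Finset S) : ℝ :=
  ∏ b, (y (fun j => F (b, false, j)) * y (fun j => F (b, true, j)))

theorem cnt_filter (F : B × Bool × J → Finset S) (t : S) (q : B × J) :
    cnt (univ.filter (fun τ => t ∈ F τ)) q = (if t ∈ F (q.1, false, q.2) then 1 else 0) +
      (if t ∈ F (q.1, true, q.2) then 1 else 0) := by
  unfold cnt
  rw [card_filter]
  simp only [mem_filter, mem_univ, true_and, Fintype.sum_bool]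
  exact add_comm _ _

theorem ideal_eq (ν : S → ℝ) (l : Option J) (y : (J → Finset S) → ℝ) :
    ∑ F : B × Bool × J → Finset S, Yp y F *
      ∏ t, Ip (ν t) l (univ.filter (fun τ => t ∈ F τ)) = (Wb ν l y) ^ (Fintype.card B) := by
  have h1 : ∀ F : B × Bool × J → Finset S, Yp y F *
      ∏ t, Ip (ν t) l (univ.filter (fun τ => t ∈ F τ)) =
      ∏ b, (y (fun j => (unc F b j).1) * y (fun j => (unc F b j).2) *
        ∏ j, kap ν (l = some j) (unc F b j)) := by
    intro F
    rw [prod_mul_distrib]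
    congr 1
    unfold Ip
    rw [prod_comm, Fintype.prod_prod_type]
    refine prod_congr rfl fun b _ => prod_congr rfl fun j _ => ?_
    unfold kap
    refine prod_congr rfl fun t _ => ?_
    rw [cnt_filter]
    rfl
  rw [sum_congr rfl (fun F _ => h1 F)]
  rw [Equiv.sum_comp (unc (S := S) (B := B) (J := J)) (fun G => ∏ b, (y (fun j => (G b j).1) *
    y (fun j => (G b j).2) * ∏ j, kap ν (l = some j) (G b j)))]
  unfold Wb
  rw [← card_univ, ← prod_const, Finset.prod_univ_sum, Fintype.piFinset_univ]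

theorem sum_I (ν : S → ℝ) (l : Option J) :
    ∏ t, ∑ A : Finset (B × Bool × J), Ip (ν t) l A = (Wb ν l (fun _ => 1)) ^ (Fintype.card B) := by
  rw [← ideal_eq (B := B) ν l (fun _ => 1), ← swap (fun t A => Ip (ν t) l A)]
  refine sum_congr rfl fun F _ => ?_
  unfold Yp
  simp

/-- the comparison -/
theorem comp (ν : S → ℝ) (hν0 : ∀ t, 0 ≤ ν t) (hν1 : ∀ t, ν t ≤ 1) (l : Option J)
    (y : (J → Finset S) → ℝ) (hy : ∀ f, |y f| ≤ 1) (G : S → Finset (B × Bool × J) → ℝ)
    (D : S → ℝ) (hD : ∀ t, ∑ A, |G t A - Ip (ν t) l A| ≤ D t) :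
    |∑ F : B × Bool × J → Finset S, Yp y F * ∏ t, G t (univ.filter (fun τ => t ∈ F τ)) -
      (Wb ν l y) ^ (Fintype.card B)| ≤
      (Wb ν l (fun _ => 1)) ^ (Fintype.card B) * (Real.exp (∑ t, D t) - 1) := by
  have hI0 : ∀ t, ∀ A : Finset (B × Bool × J), 0 ≤ Ip (ν t) l A := fun t A =>
    prod_nonneg fun q _ => (idf_bd (ν t) (hν0 t) (hν1 t) _ _).1
  have hY : ∀ F : B × Bool × J → Finset S, |Yp y F| ≤ 1 := by
    intro F
    unfold Yp
    rw [abs_prod]
    apply prod_le_one (fun _ _ => abs_nonneg _)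
    intro b _
    rw [abs_mul]
    exact mul_le_one₀ (hy _) (abs_nonneg _) (hy _)
  rw [← ideal_eq (B := B) ν l y, ← sum_sub_distrib]
  refine (abs_sum_le_sum_abs _ _).trans ?_
  have h1 : ∀ F : B × Bool × J → Finset S, |Yp y F * ∏ t, G t (univ.filter (fun τ => t ∈ F τ)) -
      Yp y F * ∏ t, Ip (ν t) l (univ.filter (fun τ => t ∈ F τ))| ≤
      ∏ t, (fun t A => Ip (ν t) l A + |G t A - Ip (ν t) l A|) t (univ.filter (fun τ => t ∈ F τ)) -
      ∏ t, (fun t A => Ip (ν t) l A) t (univ.filter (fun τ => t ∈ F τ)) := by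
    intro F
    rw [← mul_sub, abs_mul]
    have h2 := prod_diff_le univ (fun t => G t (univ.filter (fun τ => t ∈ F τ)))
      (fun t => Ip (ν t) l (univ.filter (fun τ => t ∈ F τ)))
    have h3 := mul_le_mul (hY F) h2 (abs_nonneg _) zero_le_one
    rw [one_mul] at h3
    refine h3.trans (le_of_eq ?_)
    congr 1
    · refine prod_congr rfl fun t _ => ?_
      rw [abs_of_nonneg (hI0 t _)]
    · refine prod_congr rfl fun t _ => ?_
      rw [abs_of_nonneg (hI0 t _)]
  refine (sum_le_sum fun F _ => h1 F).trans ?_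
  rw [sum_sub_distrib, swap (fun t (A : Finset (B × Bool × J)) => Ip (ν t) l A + |G t A - Ip (ν t) l A|),
    swap (fun t (A : Finset (B × Bool × J)) => Ip (ν t) l A), sum_I]
  have h4 : ∀ t, ∑ A : Finset (B × Bool × J), (Ip (ν t) l A + |G t A - Ip (ν t) l A|) ≤
      (∑ A : Finset (B × Bool × J), Ip (ν t) l A) * Real.exp (D t) := by
    intro t
    rw [sum_add_distrib]
    have h5 : (1 : ℝ) ≤ ∑ A : Finset (B × Bool × J), Ip (ν t) l A := by
      have := single_le_sum (f := fun A : Finset (B × Bool × J) => Ip (ν t) l A)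
        (fun A _ => hI0 t A) (mem_univ ∅)
      rw [Ip_empty] at this
      exact this
    have h6 := Real.add_one_le_exp (D t)
    have h7 : 0 ≤ D t := (sum_nonneg fun _ _ => abs_nonneg _).trans (hD t)
    have h8 := hD t
    nlinarith
  have h5 : ∏ t, ∑ A : Finset (B × Bool × J), (Ip (ν t) l A + |G t A - Ip (ν t) l A|) ≤
      (Wb ν l (fun _ => 1)) ^ (Fintype.card B) * Real.exp (∑ t, D t) := by
    rw [← sum_I (B := B) ν l, Real.exp_sum, ← prod_mul_distrib]
    apply prod_le_prod
    · intro t _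
      exact sum_nonneg fun A _ => add_nonneg (hI0 t A) (abs_nonneg _)
    · intro t _
      exact h4 t
  linarith

end idl

end Pool.Agent.N913.MT
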