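import Pool.Agent.N913.MT.F5

set_option autoImplicit false
set_option linter.unusedSectionVars false

/-! Concentration in a class. -/

namespace Pool.Agent.N913.MT

open Finset

theorem Wb_one_ge {P : Finset ℕ} {J : Type} [Fintype J] [DecidableEq J] (ν : P → ℝ) (hν : ∀ t, 0 ≤ ν t)
    (i : Option J) : 1 ≤ Wb ν i (fun _ => 1) := by
  unfold Wb
  have h1 := single_le_sum (f := fun φ : J → Finset P × Finset P => (1 : ℝ) * 1 *
    ∏ j, kap ν (i = some j) (φ j)) (fun φ _ => by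
      have := prod_nonneg (s := (univ : Finset J)) (f := fun j => kap ν (i = some j) (φ j))
        (fun j _ => kap_nonneg ν hν _ _)
      simpa using this) (mem_univ (fun _ : J => ((∅ : Finset P), (∅ : Finset P))))
  refine le_trans (le_of_eq ?_) h1
  simp only [mul_one, one_mul]
  symm
  apply prod_eq_one
  intro j _
  unfold kap
  apply prod_eq_one
  intro t _
  unfold idf
  simp

namespace Sv
variable {J : Type} [Fintype J] [DecidableEq J] (D : Sv J)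

noncomputable def Lm (i : ℕ) (n : ℕ × ℕ) : ℝ := Lam D.P D.h D.y i n

noncomputable def mu (τ : ℕ) (n : ℕ × ℕ) : ℝ := th D.R (2 * n.1 * τ + τ ^ 2 - n.2)

noncomputable def SN (n : ℕ × ℕ) : ℝ := ∑ g ∈ range D.G, (D.Lm (D.i0 + D.W * g) n) ^ 2

noncomputable def SP (l : J) (n : ℕ × ℕ) : ℝ :=
  ∑ g ∈ range D.G, D.mu (D.i0 + D.W * g + D.h l) n * (D.Lm (D.i0 + D.W * g) n) ^ 2

noncomputable def MM (i : Option J) : ℝ := Wb D.ν i D.y

noncomputable def om : ℝ := (D.W : ℝ) / Nat.totient D.W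

theorem ν_nonneg (t : D.P) : 0 ≤ D.ν t := by
  have : (3 : ℝ) ≤ (t : ℕ) := by exact_mod_cast D.hP3 t t.2
  unfold Su.ν
  apply div_nonneg zero_le_one; linarith

theorem MM_ge (i : Option J) : 1 / D.C1 ≤ D.MM i := by
  have h1 := Wb_one_ge D.ν D.ν_nonneg i
  have h2 := D.hC1 i
  have h3 : 0 < D.C1 := by linarith [D.hC11]
  rw [div_le_iff₀ h3, mul_comm]
  exact h1.trans h2

theorem MM_pos (i : Option J) : 0 < D.MM i :=
  lt_of_lt_of_le (div_pos one_pos (by linarith [D.hC11])) (D.MM_ge i)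

theorem om_ge : 1 ≤ D.om := by
  unfold om
  have h1 : (0 : ℝ) < Nat.totient D.W := by exact_mod_cast Nat.totient_pos.2 D.hW0
  rw [le_div_iff₀ h1, one_mul]
  exact_mod_cast Nat.totient_le D.W

theorem κ1_eq : D.κ1 = D.κ * D.om := by
  unfold Su.κ1 Su.κ om
  have h1 : (D.W : ℝ) ≠ 0 := by
    have := D.hW0
    positivity
  have h2 : (Nat.totient D.W : ℝ) ≠ 0 := by
    have := Nat.totient_pos.2 D.hW0
    positivity
  field_simp

theorem card_N : (D.N.card : ℝ) ≤ D.κ + (6 * D.S2 + 2) := by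
  have h := claim0 D.S2 D.W D.s0 D.r0 D.hW0
  rw [abs_le] at h
  unfold Su.N Su.κ
  linarith [h.2]

/-- the good primes -/
def good {B : Type} (pos : B × J → ℕ) (t : ℕ) : Prop :=
  ∀ q q', q ≠ q' → ¬ (t : ℤ) ∣ (pos q : ℤ) - pos q'

theorem pos_inj2 (i δ : ℕ) (hδ : D.W ≤ δ) (q q' : Fin 2 × J) (hq : q ≠ q') :
    (if q.1 = 0 then i else i + δ) + D.h q.2 ≠ (if q'.1 = 0 then i else i + δ) + D.h q'.2 := by
  obtain ⟨b, j⟩ := q
  obtain ⟨b', j'⟩ := q'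
  have h1 := D.hhW j
  have h2 := D.hhW j'
  by_cases hb : b = b'
  · subst hb
    have hj : j ≠ j' := fun h => hq (by rw [h])
    have := D.hinj j j' hj
    simp only
    omega
  · simp only
    have : b = 0 ∨ b = 1 := by omega
    have : b' = 0 ∨ b' = 1 := by omega
    rcases this with h3 | h3 <;> rcases ‹b = 0 ∨ b = 1› with h4 | h4
    · exact absurd (h4.trans h3.symm) hb
    · subst h3; subst h4
      simp only [one_ne_zero, if_false, if_true]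
      omega
    · subst h3; subst h4
      simp only [one_ne_zero, if_false, if_true]
      omega
    · exact absurd (h4.trans h3.symm) hb

theorem exp_le_of (x : ℝ) (h : x ≤ Real.log (1 + D.Ξ)) : Real.exp x - 1 ≤ D.Ξ := by
  have h1 : 0 < 1 + D.Ξ := by linarith [D.hΞ0]
  have h2 := Real.exp_le_exp.2 h
  rw [Real.exp_log h1] at h2
  linarith

theorem Y1 (g : ℕ) (hg : g < D.G) (l : J) : 2 * D.S2 * (D.i0 + D.W * g + D.h l) +
    (D.i0 + D.W * g + D.h l) ^ 2 ≤ D.Y := by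
  have h1 := D.hHm g hg l
  refine le_trans ?_ D.hYH
  gcongr

theorem one (g : ℕ) (hg : g < D.G) : ∑ n ∈ D.N, (D.Lm (D.i0 + D.W * g) n) ^ 2 ≥
    D.κ * D.MM none - (D.κ * (D.C1 * D.MM none * D.Ξ) + (6 * D.S2 + 2) * (D.Q : ℝ) ^ 3) := by
  classical
  have hκ := D.κ_nonneg
  have h1 := D.mom0 (B := Fin 1) (by simp) D.h (fun _ => D.i0 + D.W * g)
    (fun t => good (fun q : Fin 1 × J => D.i0 + D.W * g + D.h q.2) (t : ℕ)) (fun t ht => ht)
  have h2 := sum_DD (B := Fin 1) (J := J) D.z0 D.R D.Hm D.hz D.hHm1 D.P D.hPz D.hP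
    (fun q => D.i0 + D.W * g + D.h q.2) (fun q q' hq => by
      obtain ⟨b, j⟩ := q
      obtain ⟨b', j'⟩ := q'
      have hbb : b = b' := Subsingleton.elim _ _
      subst hbb
      have hj : j ≠ j' := fun h => hq (by rw [h])
      have := D.hinj j j' hj
      simp only
      omega) (fun q => D.hHm g hg q.2)
    (fun t => good (fun q : Fin 1 × J => D.i0 + D.W * g + D.h q.2) (t : ℕ)) (fun t => Iff.rfl)
  have h3 := D.exp_le_of _ (h2.trans D.hΞ1)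
  simp only [univ_unique, prod_singleton, Fintype.card_unique, pow_one] at h1
  have h4 : (Wb D.ν (none : Option J) (fun _ => 1)) *
      (Real.exp (∑ t : D.P, DD (Fin 1) J (good (fun q : Fin 1 × J => D.i0 + D.W * g + D.h q.2) (t : ℕ))
        (t : ℕ)) - 1) ≤ D.C1 * D.MM none * D.Ξ := by
    have h5 : Wb D.ν (none : Option J) (fun _ => 1) ≤ D.C1 * Wb D.ν (none : Option J) D.y := D.hC1 none
    have h6 := Wb_one_ge D.ν D.ν_nonneg (none : Option J)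
    calc _ ≤ (Wb D.ν (none : Option J) (fun _ => 1)) * D.Ξ :=
          mul_le_mul_of_nonneg_left h3 (by linarith)
      _ ≤ _ := mul_le_mul_of_nonneg_right h5 D.hΞ0
  have h5 := mul_le_mul_of_nonneg_left h4 hκ
  rw [abs_le] at h1
  have h6 := h1.1
  show D.κ * D.MM none - (D.κ * (D.C1 * D.MM none * D.Ξ) + (6 * D.S2 + 2) * (D.Q : ℝ) ^ 3) ≤
    ∑ n ∈ D.N, (Lam D.P D.h D.y (D.i0 + D.W * g) n) ^ 2
  have h7 : D.MM none = Wb D.ν none D.y := rfl
  rw [h7] at h5 ⊢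
  linarith

theorem two (g g' : ℕ) (hg : g < g') (hg' : g' < D.G) :
    ∑ n ∈ D.N, (D.Lm (D.i0 + D.W * g) n) ^ 2 * (D.Lm (D.i0 + D.W * g') n) ^ 2 ≤
    D.κ * (D.MM none) ^ 2 + (D.κ * (D.C1 ^ 2 * (D.MM none) ^ 2 * D.Ξ) + (6 * D.S2 + 2) * (D.Q : ℝ) ^ 3) := by
  classical
  have hκ := D.κ_nonneg
  obtain ⟨δ, hδ⟩ : ∃ δ, δ = D.W * (g' - g) := ⟨_, rfl⟩
  have hδW : D.W ≤ δ := by rw [hδ]; exact Nat.le_mul_of_pos_right _ (by omega)
  have hgg : D.i0 + D.W * g' = D.i0 + D.W * g + δ := by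
    rw [hδ]
    obtain ⟨m, rfl⟩ : ∃ m, g' = g + m := ⟨g' - g, by omega⟩
    rw [Nat.add_sub_cancel_left]; ring
  have h1 := D.mom0 (B := Fin 2) (by simp) D.h
    (fun b => if b = 0 then D.i0 + D.W * g else D.i0 + D.W * g + δ)
    (fun t => good (fun q : Fin 2 × J => (if q.1 = 0 then D.i0 + D.W * g else D.i0 + D.W * g + δ) +
      D.h q.2) (t : ℕ)) (fun t ht => ht)
  have h2 := sum_DD (B := Fin 2) (J := J) D.z0 D.R D.Hm D.hz D.hHm1 D.P D.hPz D.hP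
    (fun q => (if q.1 = 0 then D.i0 + D.W * g else D.i0 + D.W * g + δ) + D.h q.2)
    (fun q q' hq => D.pos_inj2 _ δ hδW q q' hq) (fun q => by
      split_ifs
      · exact D.hHm g (by omega) q.2
      · rw [← hgg]; exact D.hHm g' hg' q.2)
    (fun t => good (fun q : Fin 2 × J => (if q.1 = 0 then D.i0 + D.W * g else D.i0 + D.W * g + δ) +
      D.h q.2) (t : ℕ)) (fun t => Iff.rfl)
  have h3 := D.exp_le_of _ (h2.trans D.hΞ2)
  simp only [Fintype.card_fin, Fin.prod_univ_two, if_true, one_ne_zero, if_false] at h1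
  have h4 : (Wb D.ν (none : Option J) (fun _ => 1)) ^ 2 *
      (Real.exp (∑ t : D.P, DD (Fin 2) J (good (fun q : Fin 2 × J =>
        (if q.1 = 0 then D.i0 + D.W * g else D.i0 + D.W * g + δ) + D.h q.2) (t : ℕ))
        (t : ℕ)) - 1) ≤ D.C1 ^ 2 * (D.MM none) ^ 2 * D.Ξ := by
    have h5 : Wb D.ν (none : Option J) (fun _ => 1) ≤ D.C1 * Wb D.ν (none : Option J) D.y := D.hC1 none
    have h6 := Wb_one_ge D.ν D.ν_nonneg (none : Option J)
    have h7 : (Wb D.ν (none : Option J) (fun _ => 1)) ^ 2 ≤ D.C1 ^ 2 * (D.MM none) ^ 2 := by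
      rw [← mul_pow]
      exact pow_le_pow_left₀ (by linarith) h5 2
    calc _ ≤ (Wb D.ν (none : Option J) (fun _ => 1)) ^ 2 * D.Ξ :=
          mul_le_mul_of_nonneg_left h3 (by positivity)
      _ ≤ _ := mul_le_mul_of_nonneg_right h7 D.hΞ0
  have h5 := mul_le_mul_of_nonneg_left h4 hκ
  rw [abs_le] at h1
  have h6 := h1.2
  rw [hgg]
  show ∑ n ∈ D.N, (Lam D.P D.h D.y (D.i0 + D.W * g) n) ^ 2 *
    (Lam D.P D.h D.y (D.i0 + D.W * g + δ) n) ^ 2 ≤ _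
  have h7 : D.MM none = Wb D.ν none D.y := rfl
  rw [h7] at h5 ⊢
  linarith

theorem oneP (g : ℕ) (hg : g < D.G) (l : J) :
    ∑ n ∈ D.N, D.mu (D.i0 + D.W * g + D.h l) n * (D.Lm (D.i0 + D.W * g) n) ^ 2 ≥
    D.κ * (D.om * D.MM (some l)) - (D.κ * (D.C1 * (D.om * D.MM (some l)) * D.Ξ) +
      (4 * D.S2 * D.EB + (4 * D.S2 + 1) * (D.Q : ℝ) ^ 2)) := by
  classical
  have hκ := D.κ1_nonneg
  have h1 := D.mom1 D.h (D.i0 + D.W * g) l
    (fun t => good (fun q : Fin 1 × J => D.i0 + D.W * g + D.h q.2) (t : ℕ)) (fun t ht => ht)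
    (by have := D.hi0; omega) (D.Y1 g hg l) (D.hcl g hg l)
  have h2 := sum_DD (B := Fin 1) (J := J) D.z0 D.R D.Hm D.hz D.hHm1 D.P D.hPz D.hP
    (fun q => D.i0 + D.W * g + D.h q.2) (fun q q' hq => by
      obtain ⟨b, j⟩ := q
      obtain ⟨b', j'⟩ := q'
      have hbb : b = b' := Subsingleton.elim _ _
      subst hbb
      have hj : j ≠ j' := fun h => hq (by rw [h])
      have := D.hinj j j' hj
      simp only
      omega) (fun q => D.hHm g hg q.2)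
    (fun t => good (fun q : Fin 1 × J => D.i0 + D.W * g + D.h q.2) (t : ℕ)) (fun t => Iff.rfl)
  have h3 := D.exp_le_of _ (h2.trans D.hΞ1)
  have h4 : (Wb D.ν (some l) (fun _ => 1)) *
      (Real.exp (∑ t : D.P, DD (Fin 1) J (good (fun q : Fin 1 × J => D.i0 + D.W * g + D.h q.2) (t : ℕ))
        (t : ℕ)) - 1) ≤ D.C1 * D.MM (some l) * D.Ξ := by
    have h5 : Wb D.ν (some l) (fun _ => 1) ≤ D.C1 * Wb D.ν (some l) D.y := D.hC1 (some l)
    have h6 := Wb_one_ge D.ν D.ν_nonneg (some l)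
    calc _ ≤ (Wb D.ν (some l) (fun _ => 1)) * D.Ξ :=
          mul_le_mul_of_nonneg_left h3 (by linarith)
      _ ≤ _ := mul_le_mul_of_nonneg_right h5 D.hΞ0
  have h5 := mul_le_mul_of_nonneg_left h4 hκ
  rw [abs_le] at h1
  have h6 := h1.1
  show D.κ * (D.om * D.MM (some l)) - (D.κ * (D.C1 * (D.om * D.MM (some l)) * D.Ξ) +
      (4 * D.S2 * D.EB + (4 * D.S2 + 1) * (D.Q : ℝ) ^ 2)) ≤
    ∑ n ∈ D.N, th D.R (2 * n.1 * (D.i0 + D.W * g + D.h l) + (D.i0 + D.W * g + D.h l) ^ 2 - n.2) *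
      (Lam D.P D.h D.y (D.i0 + D.W * g) n) ^ 2
  have h7 : D.MM (some l) = Wb D.ν (some l) D.y := rfl
  rw [D.κ1_eq] at h5 h6
  rw [h7] at h5 ⊢
  linarith

theorem twoP (g g' : ℕ) (hg : g < g') (hg' : g' < D.G) (l : J) :
    ∑ n ∈ D.N, (D.mu (D.i0 + D.W * g + D.h l) n * (D.Lm (D.i0 + D.W * g) n) ^ 2) *
      (D.mu (D.i0 + D.W * g' + D.h l) n * (D.Lm (D.i0 + D.W * g') n) ^ 2) ≤
    D.κ * (D.om * D.MM (some l)) ^ 2 + (4 * D.θ * D.κ * (D.om * D.MM (some l)) ^ 2 +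
      (4 * (D.Y + 1) * Real.log D.Y * D.EB + 4 * (D.W * D.G : ℕ) * D.S2 * D.EB)) := by
  classical
  have hθ0 : 0 ≤ D.θ := le_trans (mul_nonneg (sq_nonneg _) D.hΞ0) D.hΞθ
  obtain ⟨δ, hδ⟩ : ∃ δ, δ = D.W * (g' - g) := ⟨_, rfl⟩
  have hδW : D.W ≤ δ := by rw [hδ]; exact Nat.le_mul_of_pos_right _ (by omega)
  have hδG : δ ≤ D.W * D.G := by rw [hδ]; exact Nat.mul_le_mul_left _ (by omega)
  have hδ1 : 1 ≤ δ := D.hW0.trans hδW
  have hgg : D.i0 + D.W * g' = D.i0 + D.W * g + δ := by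
    rw [hδ]
    obtain ⟨m, rfl⟩ : ∃ m, g' = g + m := ⟨g' - g, by omega⟩
    rw [Nat.add_sub_cancel_left]; ring
  have hggl : D.i0 + D.W * g' + D.h l = D.i0 + D.W * g + D.h l + δ := by omega
  have h1 := D.mom2 D.h (D.i0 + D.W * g) δ l hδ1 (hδG.trans D.hGR) (by
      refine le_trans ?_ D.hGm
      gcongr)
    (fun t => good (fun q : Fin 2 × J => (if q.1 = 0 then D.i0 + D.W * g else D.i0 + D.W * g + δ) +
      D.h q.2) (t : ℕ)) (fun t ht => ht)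
    (by have := D.hi0; omega) (by rw [← hggl]; exact D.Y1 g' hg' l) (D.hcl g (by omega) l)
    (by rw [← hggl]; exact D.hcl g' hg' l)
  have h2 := sum_DD (B := Fin 2) (J := J) D.z0 D.R D.Hm D.hz D.hHm1 D.P D.hPz D.hP
    (fun q => (if q.1 = 0 then D.i0 + D.W * g else D.i0 + D.W * g + δ) + D.h q.2)
    (fun q q' hq => D.pos_inj2 _ δ hδW q q' hq) (fun q => by
      split_ifs
      · exact D.hHm g (by omega) q.2
      · rw [← hgg]; exact D.hHm g' hg' q.2)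
    (fun t => good (fun q : Fin 2 × J => (if q.1 = 0 then D.i0 + D.W * g else D.i0 + D.W * g + δ) +
      D.h q.2) (t : ℕ)) (fun t => Iff.rfl)
  have h3 := D.exp_le_of _ (h2.trans D.hΞ2)
  have h4 : (Wb D.ν (some l) (fun _ => 1)) ^ 2 *
      (Real.exp (∑ t : D.P, DD (Fin 2) J (good (fun q : Fin 2 × J =>
        (if q.1 = 0 then D.i0 + D.W * g else D.i0 + D.W * g + δ) + D.h q.2) (t : ℕ))
        (t : ℕ)) - 1) ≤ D.θ * (D.MM (some l)) ^ 2 := by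
    have h5 : Wb D.ν (some l) (fun _ => 1) ≤ D.C1 * Wb D.ν (some l) D.y := D.hC1 (some l)
    have h6 := Wb_one_ge D.ν D.ν_nonneg (some l)
    have h7 : (Wb D.ν (some l) (fun _ => 1)) ^ 2 ≤ D.C1 ^ 2 * (D.MM (some l)) ^ 2 := by
      rw [← mul_pow]
      exact pow_le_pow_left₀ (by linarith) h5 2
    calc _ ≤ (Wb D.ν (some l) (fun _ => 1)) ^ 2 * D.Ξ :=
          mul_le_mul_of_nonneg_left h3 (by positivity)
      _ ≤ (D.C1 ^ 2 * (D.MM (some l)) ^ 2) * D.Ξ := mul_le_mul_of_nonneg_right h7 D.hΞ0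
      _ = (D.C1 ^ 2 * D.Ξ) * (D.MM (some l)) ^ 2 := by ring
      _ ≤ _ := mul_le_mul_of_nonneg_right D.hΞθ (sq_nonneg _)
  have hk2 := kappa2 D.W δ D.z0 D.hW0 D.hW2 hδ1 D.hz D.hWz D.θ hθ0 D.hθ (by
    refine le_trans (Real.log_le_log (by exact_mod_cast hδ1) (by exact_mod_cast hδG)) D.hη)
  obtain ⟨κ2, hκ2⟩ : ∃ κ2 : ℝ, κ2 = 2 * δ * (D.S2 : ℝ) ^ 2 /
    (Nat.totient (2 * δ * D.W) * Nat.totient D.W) := ⟨_, rfl⟩
  have hφ : (0 : ℝ) < Nat.totient D.W := by exact_mod_cast Nat.totient_pos.2 D.hW0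
  have hκ20 : 0 ≤ κ2 := by rw [hκ2]; positivity
  have hκ2le : κ2 ≤ (1 + 2 * D.θ) * (D.κ * D.om ^ 2) := by
    have e1 : κ2 = (2 * δ / (Nat.totient (2 * δ * D.W) : ℝ)) * ((D.S2 : ℝ) ^ 2 / Nat.totient D.W) := by
      rw [hκ2, div_mul_div_comm]
    have e2 : D.κ * D.om ^ 2 = (D.S2 : ℝ) ^ 2 / Nat.totient D.W / Nat.totient D.W := by
      unfold Su.κ om
      have h1 : (D.W : ℝ) ≠ 0 := by
        have := D.hW0
        positivity
      field_simp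
    rw [e1, e2]
    calc _ ≤ ((1 + 2 * D.θ) / Nat.totient D.W) * ((D.S2 : ℝ) ^ 2 / Nat.totient D.W) :=
          mul_le_mul_of_nonneg_right hk2 (by positivity)
      _ = _ := by ring
  rw [← hκ2] at h1
  have h5 := mul_le_mul_of_nonneg_left h4 hκ20
  rw [abs_le] at h1
  have h6 := h1.2
  have e0 : ∀ n, (D.mu (D.i0 + D.W * g + D.h l) n * (D.Lm (D.i0 + D.W * g) n) ^ 2) *
      (D.mu (D.i0 + D.W * g' + D.h l) n * (D.Lm (D.i0 + D.W * g') n) ^ 2) =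
      (th D.R (2 * n.1 * (D.i0 + D.W * g + D.h l) + (D.i0 + D.W * g + D.h l) ^ 2 - n.2) *
        th D.R (2 * n.1 * (D.i0 + D.W * g + D.h l + δ) + (D.i0 + D.W * g + D.h l + δ) ^ 2 - n.2)) *
      ((Lam D.P D.h D.y (D.i0 + D.W * g) n) ^ 2 * (Lam D.P D.h D.y (D.i0 + D.W * g + δ) n) ^ 2) := by
    intro n
    unfold mu Lm
    rw [hggl, hgg]
    ring
  rw [sum_congr rfl (fun n _ => e0 n)]
  have h7 : D.MM (some l) = Wb D.ν (some l) D.y := rfl
  have h8 : κ2 * (D.MM (some l)) ^ 2 * (1 + D.θ) ≤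
      D.κ * (D.om * D.MM (some l)) ^ 2 * (1 + 4 * D.θ) := by
    have h9 : (1 + 2 * D.θ) * (1 + D.θ) ≤ 1 + 4 * D.θ := by nlinarith [D.hθ]
    have hκo : 0 ≤ D.κ * D.om ^ 2 := mul_nonneg D.κ_nonneg (sq_nonneg _)
    calc κ2 * (D.MM (some l)) ^ 2 * (1 + D.θ) ≤
          ((1 + 2 * D.θ) * (D.κ * D.om ^ 2)) * (D.MM (some l)) ^ 2 * (1 + D.θ) := by gcongr
      _ = (D.κ * D.om ^ 2 * (D.MM (some l)) ^ 2) * ((1 + 2 * D.θ) * (1 + D.θ)) := by ring
      _ ≤ (D.κ * D.om ^ 2 * (D.MM (some l)) ^ 2) * (1 + 4 * D.θ) :=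
          mul_le_mul_of_nonneg_left h9 (by positivity)
      _ = _ := by ring
  have h10 : 4 * (δ : ℝ) * D.S2 * D.EB ≤ 4 * (D.W * D.G : ℕ) * D.S2 * D.EB := by
    have h11 : (δ : ℝ) ≤ (D.W * D.G : ℕ) := by exact_mod_cast hδG
    have := D.hEB
    gcongr
  rw [← h7] at h6
  have h12 : κ2 * (D.MM (some l)) ^ 2 * (1 + D.θ) = κ2 * (D.MM (some l)) ^ 2 + κ2 * (D.θ * (D.MM (some l)) ^ 2) := by ring
  have h13 : D.κ * (D.om * D.MM (some l)) ^ 2 * (1 + 4 * D.θ) = D.κ * (D.om * D.MM (some l)) ^ 2 +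
    4 * D.θ * D.κ * (D.om * D.MM (some l)) ^ 2 := by ring
  rw [h12, h13] at h8
  linarith

end Sv

end Pool.Agent.N913.MT
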