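import Pool.Agent.N913.MT.F6

set_option autoImplicit false
set_option linter.unusedSectionVars false

/-! Concentration in a class: conclusion. -/

namespace Pool.Agent.N913.MT

open Finset

namespace Sv
variable {J : Type} [Fintype J] [DecidableEq J] (D : Sv J)

noncomputable def E4 : ℝ := Real.exp (∑ t : D.P, 2 ^ (Fintype.card (Fin 2 × Bool × J)) * (12 / ((t : ℕ) : ℝ)))

theorem E4_pos : 0 < D.E4 := Real.exp_pos _

theorem threeN (g : ℕ) : ∑ n ∈ D.N, (D.Lm (D.i0 + D.W * g) n) ^ 2 * (D.Lm (D.i0 + D.W * g) n) ^ 2 ≤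
    D.κ * D.E4 + (6 * D.S2 + 2) * (D.Q : ℝ) ^ 3 := by
  have h1 := D.crude0 D.h (fun _ => D.i0 + D.W * g)
  simp only [Fin.prod_univ_two] at h1
  exact h1

theorem mu_nonneg (τ : ℕ) (n : ℕ × ℕ) : 0 ≤ D.mu τ n := th_nonneg _ _

theorem mem_N (n : ℕ × ℕ) (hn : n ∈ D.N) : n.1 < D.S2 ∧ n.2 ≤ 2 * n.1 := by
  unfold Su.N CS at hn
  rw [mem_filter, mem_product, mem_range, mem_range] at hn
  exact ⟨hn.1.1, hn.2.1⟩

theorem mu_le (g : ℕ) (hg : g < D.G) (l : J) (n : ℕ × ℕ) (hn : n ∈ D.N) :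
    D.mu (D.i0 + D.W * g + D.h l) n ≤ Real.log D.Y := by
  apply th_le
  have h1 := D.Y1 g hg l
  have h2 := (D.mem_N n hn).1
  have h3 : 2 * n.1 * (D.i0 + D.W * g + D.h l) ≤ 2 * D.S2 * (D.i0 + D.W * g + D.h l) := by gcongr
  omega

theorem threeP (g : ℕ) (hg : g < D.G) (l : J) :
    ∑ n ∈ D.N, (D.mu (D.i0 + D.W * g + D.h l) n * (D.Lm (D.i0 + D.W * g) n) ^ 2) *
      (D.mu (D.i0 + D.W * g + D.h l) n * (D.Lm (D.i0 + D.W * g) n) ^ 2) ≤
    Real.log D.Y * (D.κ * D.om * D.E4 + (4 * D.S2 * D.EB + (4 * D.S2 + 1) * (D.Q : ℝ) ^ 2)) := by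
  have h1 := D.crude1 D.h (D.i0 + D.W * g) l (by have := D.hi0; omega) (D.Y1 g hg l) (D.hcl g hg l)
  simp only [Fin.prod_univ_two] at h1
  rw [D.κ1_eq] at h1
  have h2 := mul_le_mul_of_nonneg_left h1 (Real.log_natCast_nonneg D.Y)
  refine le_trans ?_ h2
  rw [mul_sum]
  apply sum_le_sum
  intro n hn
  have h3 := D.mu_le g hg l n hn
  have h4 := D.mu_nonneg (D.i0 + D.W * g + D.h l) n
  have h5 : 0 ≤ D.mu (D.i0 + D.W * g + D.h l) n * ((D.Lm (D.i0 + D.W * g) n) ^ 2 *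
    (D.Lm (D.i0 + D.W * g) n) ^ 2) := by positivity
  calc _ = D.mu (D.i0 + D.W * g + D.h l) n * (D.mu (D.i0 + D.W * g + D.h l) n *
          ((D.Lm (D.i0 + D.W * g) n) ^ 2 * (D.Lm (D.i0 + D.W * g) n) ^ 2)) := by ring
    _ ≤ Real.log D.Y * (D.mu (D.i0 + D.W * g + D.h l) n *
          ((D.Lm (D.i0 + D.W * g) n) ^ 2 * (D.Lm (D.i0 + D.W * g) n) ^ 2)) :=
        mul_le_mul_of_nonneg_right h3 h5

/-- final counting -/
theorem fin_count (c V κ θ b : ℝ) (hc : 0 < c) (G : ℕ) (hG : 0 < G)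
    (h : b * (G * c) ^ 2 ≤ 4 * V) (hV : V ≤ 11 * θ * κ * (G * c) ^ 2) : b ≤ 44 * θ * κ := by
  have hG0 : (0 : ℝ) < G := by exact_mod_cast hG
  have h1 : 0 < ((G : ℝ) * c) ^ 2 := by positivity
  have h2 : b * (G * c) ^ 2 ≤ (44 * θ * κ) * (G * c) ^ 2 := by linarith
  exact le_of_mul_le_mul_right h2 h1

theorem θ_nonneg : 0 ≤ D.θ := le_trans (mul_nonneg (sq_nonneg _) D.hΞ0) D.hΞθ

theorem C1_sq : 1 ≤ D.C1 ^ 2 := one_le_pow₀ D.hC11

theorem C1_le : D.C1 ≤ D.C1 ^ 2 := by nlinarith [D.hC11]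

/-- error bookkeeping: `x` is an error term with `C1² x ≤ θ κ` and `c ≥ 1 / C1` -/
theorem book (c x κ : ℝ) (hc : 1 / D.C1 ≤ c) (hx0 : 0 ≤ x) (hx : D.C1 ^ 2 * x ≤ D.θ * κ) :
    x ≤ D.θ * κ * c ^ 2 ∧ 2 * c * x ≤ 2 * (D.θ * κ) * c ^ 2 := by
  have hC := D.hC11
  have hC0 : 0 < D.C1 := by linarith
  have hc0 : 0 < c := lt_of_lt_of_le (by positivity) hc
  have h1 : 1 ≤ D.C1 * c := by
    rw [div_le_iff₀ hC0] at hc
    linarith
  have h2 : 1 ≤ (D.C1 * c) ^ 2 := one_le_pow₀ h1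
  constructor
  · calc x = x * 1 := (mul_one x).symm
      _ ≤ x * (D.C1 * c) ^ 2 := mul_le_mul_of_nonneg_left h2 hx0
      _ = (D.C1 ^ 2 * x) * c ^ 2 := by ring
      _ ≤ _ := mul_le_mul_of_nonneg_right hx (sq_nonneg _)
  · have h3 : D.C1 * x ≤ D.θ * κ := le_trans (mul_le_mul_of_nonneg_right D.C1_le hx0) hx
    calc 2 * c * x = 2 * c * x * 1 := (mul_one _).symm
      _ ≤ 2 * c * x * (D.C1 * c) := mul_le_mul_of_nonneg_left h1 (by positivity)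
      _ = 2 * (D.C1 * x) * c ^ 2 := by ring
      _ ≤ 2 * (D.θ * κ) * c ^ 2 := by gcongr

theorem cardN_bad : ∀ B ⊆ D.N, (∀ n ∈ B, (D.G * D.MM none) / 2 ≤ |D.SN n - D.G * D.MM none|) →
    (B.card : ℝ) ≤ 44 * D.θ * D.κ := by
  intro B hB hB2
  have hκ := D.κ_nonneg
  have hθ := D.θ_nonneg
  have hM := D.MM_pos none
  have hG : (1 : ℝ) ≤ D.G := by exact_mod_cast D.hG0
  obtain ⟨e, he⟩ : ∃ e : ℝ, e = (6 * D.S2 + 2) * (D.Q : ℝ) ^ 3 := ⟨_, rfl⟩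
  have he0 : 0 ≤ e := by rw [he]; positivity
  have hek : D.C1 ^ 2 * e ≤ D.θ * D.κ := by rw [he]; exact D.herr0
  obtain ⟨c, hc⟩ : ∃ c, c = D.MM none := ⟨_, rfl⟩
  have hc1 : 1 / D.C1 ≤ c := by rw [hc]; exact D.MM_ge none
  rw [← hc] at hM hB2
  have hV := conc D.N D.G (fun g n => (D.Lm (D.i0 + D.W * g) n) ^ 2) c D.κ (6 * D.S2 + 2)
    (D.κ * (D.C1 * c * D.Ξ) + e) (D.κ * (D.C1 ^ 2 * c ^ 2 * D.Ξ) + e) (D.κ * D.E4 + e) hM hκ
    (by have := D.hΞ0; positivity) D.card_N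
    (fun g hg => by rw [hc, he]; exact D.one g (mem_range.1 hg))
    (fun g hg g' hg' hne => by
      rw [mem_range] at hg hg'
      rcases lt_or_gt_of_ne hne with h | h
      · rw [hc, he]; exact D.two g g' h hg'
      · have := D.two g' g h hg
        rw [hc, he]
        refine le_trans (le_of_eq ?_) this
        exact sum_congr rfl fun n _ => mul_comm _ _)
    (fun g _ => by rw [he]; exact D.threeN g)
  apply fin_count c _ D.κ D.θ _ hM D.G D.hG0 (cheb D.N D.G D.hG0 D.SN c _ hM hV B hB hB2)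
  obtain ⟨b1, b2⟩ := D.book c e D.κ hc1 he0 hek
  obtain ⟨b3, b4⟩ := D.book c (6 * D.S2 + 2) D.κ hc1 (by positivity) D.he0
  have hΞ1 : D.C1 ^ 2 * c ^ 2 * D.Ξ ≤ D.θ * c ^ 2 := by
    calc _ = (D.C1 ^ 2 * D.Ξ) * c ^ 2 := by ring
      _ ≤ _ := mul_le_mul_of_nonneg_right D.hΞθ (sq_nonneg _)
  have hΞ2 : D.C1 * D.Ξ ≤ D.θ := le_trans (mul_le_mul_of_nonneg_right D.C1_le D.hΞ0) D.hΞθ
  have t1 : D.κ * (D.C1 ^ 2 * c ^ 2 * D.Ξ) + e ≤ 2 * D.θ * D.κ * c ^ 2 := by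
    have := mul_le_mul_of_nonneg_left hΞ1 hκ
    linarith
  have t2 : 2 * c * (D.κ * (D.C1 * c * D.Ξ) + e) ≤ 4 * D.θ * D.κ * c ^ 2 := by
    have h1 : 2 * c * (D.κ * (D.C1 * c * D.Ξ)) = 2 * D.κ * c ^ 2 * (D.C1 * D.Ξ) := by ring
    have h2 : 2 * D.κ * c ^ 2 * (D.C1 * D.Ξ) ≤ 2 * D.κ * c ^ 2 * D.θ :=
      mul_le_mul_of_nonneg_left hΞ2 (by positivity)
    rw [mul_add, h1]
    linarith
  have hs : (6 * (D.S2 : ℝ) + 2) ≤ D.θ * D.κ := by
    have h1 : (1 : ℝ) * (6 * D.S2 + 2) ≤ D.C1 ^ 2 * (6 * D.S2 + 2) :=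
      mul_le_mul_of_nonneg_right D.C1_sq (by positivity)
    have h2 : D.C1 ^ 2 * (6 * D.S2 + 2) ≤ D.θ * D.κ := D.he0
    linarith
  have t3 : c ^ 2 * (6 * D.S2 + 2) ≤ D.θ * D.κ * c ^ 2 := by
    calc _ ≤ c ^ 2 * (D.θ * D.κ) := mul_le_mul_of_nonneg_left hs (sq_nonneg _)
      _ = _ := by ring
  have t4 : D.κ * D.E4 + e ≤ D.G * (D.θ * D.κ * c ^ 2) := by
    have hd := D.hdiag
    have hE := D.E4_pos
    have h1 : D.C1 ^ 2 * (D.E4 + 1) ≤ D.θ * D.G := by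
      refine le_trans ?_ hd
      apply mul_le_mul_of_nonneg_left _ (by positivity)
      have h2 := D.om_ge
      have h3 := D.hlogY
      have h4 : D.E4 + 1 ≤ D.om * D.E4 + 1 := by nlinarith
      have h5 : 0 ≤ D.om * D.E4 + 1 := by positivity
      calc D.E4 + 1 ≤ 1 * (D.om * D.E4 + 1) := by rw [one_mul]; exact h4
        _ ≤ Real.log D.Y * (D.om * D.E4 + 1) := mul_le_mul_of_nonneg_right h3 h5
    have h6 : e ≤ D.κ := by
      have h7 : (1 : ℝ) * e ≤ D.C1 ^ 2 * e := mul_le_mul_of_nonneg_right D.C1_sq he0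
      have h8 : D.θ * D.κ ≤ 1 * D.κ := mul_le_mul_of_nonneg_right (by linarith [D.hθ]) hκ
      linarith
    have h9 : 1 ≤ D.C1 ^ 2 * c ^ 2 := by
      rw [← mul_pow]
      apply one_le_pow₀
      have hC0 : 0 < D.C1 := by linarith [D.hC11]
      rw [div_le_iff₀ hC0] at hc1
      linarith
    calc D.κ * D.E4 + e ≤ D.κ * (D.E4 + 1) * 1 := by linarith
      _ ≤ D.κ * (D.E4 + 1) * (D.C1 ^ 2 * c ^ 2) := mul_le_mul_of_nonneg_left h9 (by positivity)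
      _ = (D.C1 ^ 2 * (D.E4 + 1)) * (D.κ * c ^ 2) := by ring
      _ ≤ (D.θ * D.G) * (D.κ * c ^ 2) := mul_le_mul_of_nonneg_right h1 (by positivity)
      _ = _ := by ring
  have t5 : (D.G : ℝ) * (D.κ * D.E4 + e) ≤ D.G * (D.G * (D.θ * D.κ * c ^ 2)) :=
    mul_le_mul_of_nonneg_left t4 (by linarith)
  have t6 : (D.G : ℝ) ^ 2 * (D.κ * (D.C1 ^ 2 * c ^ 2 * D.Ξ) + e + 2 * c * (D.κ * (D.C1 * c * D.Ξ) + e) +
      c ^ 2 * (6 * D.S2 + 2)) ≤ (D.G : ℝ) ^ 2 * (7 * D.θ * D.κ * c ^ 2) :=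
    mul_le_mul_of_nonneg_left (by linarith) (by positivity)
  have t7 : 0 ≤ D.θ * D.κ * (D.G * c) ^ 2 := by positivity
  have t8 : (D.G : ℝ) ^ 2 * (7 * D.θ * D.κ * c ^ 2) = 7 * (D.θ * D.κ * (D.G * c) ^ 2) := by ring
  have t9 : (D.G : ℝ) * (D.G * (D.θ * D.κ * c ^ 2)) = D.θ * D.κ * (D.G * c) ^ 2 := by ring
  linarith

theorem cardP_bad (l : J) : ∀ B ⊆ D.N,
    (∀ n ∈ B, (D.G * (D.om * D.MM (some l))) / 2 ≤ |D.SP l n - D.G * (D.om * D.MM (some l))|) →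
    (B.card : ℝ) ≤ 44 * D.θ * D.κ := by
  intro B hB hB2
  have hκ := D.κ_nonneg
  have hθ := D.θ_nonneg
  have hom := D.om_ge
  have hM0 := D.MM_pos (some l)
  have hG : (1 : ℝ) ≤ D.G := by exact_mod_cast D.hG0
  have hEB := D.hEB
  obtain ⟨e, he⟩ : ∃ e : ℝ, e = 4 * D.S2 * D.EB + (4 * D.S2 + 1) * (D.Q : ℝ) ^ 2 := ⟨_, rfl⟩
  have he0 : 0 ≤ e := by rw [he]; positivity
  have hek : D.C1 ^ 2 * e ≤ D.θ * D.κ := by rw [he]; exact D.herr1
  obtain ⟨e', he'⟩ : ∃ e' : ℝ, e' = 4 * (D.Y + 1) * Real.log D.Y * D.EB +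
    4 * (D.W * D.G : ℕ) * D.S2 * D.EB := ⟨_, rfl⟩
  have hlog := D.hlogY
  have he0' : 0 ≤ e' := by rw [he']; positivity
  have hek' : D.C1 ^ 2 * e' ≤ D.θ * D.κ := by rw [he']; exact D.herr2
  obtain ⟨c, hc⟩ : ∃ c, c = D.om * D.MM (some l) := ⟨_, rfl⟩
  have hc1 : 1 / D.C1 ≤ c := by
    rw [hc]
    have h1 := D.MM_ge (some l)
    nlinarith
  have hM : 0 < c := by rw [hc]; exact mul_pos (by linarith) hM0
  rw [← hc] at hB2
  have hV := conc D.N D.G (fun g n => D.mu (D.i0 + D.W * g + D.h l) n * (D.Lm (D.i0 + D.W * g) n) ^ 2)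
    c D.κ (6 * D.S2 + 2)
    (D.κ * (D.C1 * c * D.Ξ) + e) (4 * D.θ * D.κ * c ^ 2 + e')
    (Real.log D.Y * (D.κ * D.om * D.E4 + e)) hM hκ
    (by positivity) D.card_N
    (fun g hg => by rw [hc, he]; exact D.oneP g (mem_range.1 hg) l)
    (fun g hg g' hg' hne => by
      rw [mem_range] at hg hg'
      rcases lt_or_gt_of_ne hne with h | h
      · rw [hc, he']; exact D.twoP g g' h hg' l
      · have := D.twoP g' g h hg l
        rw [hc, he']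
        refine le_trans (le_of_eq ?_) this
        exact sum_congr rfl fun n _ => mul_comm _ _)
    (fun g hg => by rw [he]; exact D.threeP g (mem_range.1 hg) l)
  apply fin_count c _ D.κ D.θ _ hM D.G D.hG0 (cheb D.N D.G D.hG0 (D.SP l) c _ hM hV B hB hB2)
  obtain ⟨b1, b2⟩ := D.book c e D.κ hc1 he0 hek
  obtain ⟨b1', b2'⟩ := D.book c e' D.κ hc1 he0' hek'
  have hΞ2 : D.C1 * D.Ξ ≤ D.θ := le_trans (mul_le_mul_of_nonneg_right D.C1_le D.hΞ0) D.hΞθ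
  have t1 : 4 * D.θ * D.κ * c ^ 2 + e' ≤ 5 * D.θ * D.κ * c ^ 2 := by
    linarith
  have t2 : 2 * c * (D.κ * (D.C1 * c * D.Ξ) + e) ≤ 4 * D.θ * D.κ * c ^ 2 := by
    have h1 : 2 * c * (D.κ * (D.C1 * c * D.Ξ)) = 2 * D.κ * c ^ 2 * (D.C1 * D.Ξ) := by ring
    have h2 : 2 * D.κ * c ^ 2 * (D.C1 * D.Ξ) ≤ 2 * D.κ * c ^ 2 * D.θ :=
      mul_le_mul_of_nonneg_left hΞ2 (by positivity)
    rw [mul_add, h1]
    linarith
  have hs : (6 * (D.S2 : ℝ) + 2) ≤ D.θ * D.κ := by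
    have h1 : (1 : ℝ) * (6 * D.S2 + 2) ≤ D.C1 ^ 2 * (6 * D.S2 + 2) :=
      mul_le_mul_of_nonneg_right D.C1_sq (by positivity)
    have h2 : D.C1 ^ 2 * (6 * D.S2 + 2) ≤ D.θ * D.κ := D.he0
    linarith
  have t3 : c ^ 2 * (6 * D.S2 + 2) ≤ D.θ * D.κ * c ^ 2 := by
    calc _ ≤ c ^ 2 * (D.θ * D.κ) := mul_le_mul_of_nonneg_left hs (sq_nonneg _)
      _ = _ := by ring
  have t4 : Real.log D.Y * (D.κ * D.om * D.E4 + e) ≤ D.G * (D.θ * D.κ * c ^ 2) := by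
    have hd : D.C1 ^ 2 * (Real.log D.Y * (D.om * D.E4 + 1)) ≤ D.θ * D.G := D.hdiag
    have hE := D.E4_pos
    have h6 : e ≤ D.κ := by
      have h7 : (1 : ℝ) * e ≤ D.C1 ^ 2 * e := mul_le_mul_of_nonneg_right D.C1_sq he0
      have h8 : D.θ * D.κ ≤ 1 * D.κ := mul_le_mul_of_nonneg_right (by linarith [D.hθ]) hκ
      linarith
    have h9 : 1 ≤ D.C1 ^ 2 * c ^ 2 := by
      rw [← mul_pow]
      apply one_le_pow₀
      have hC0 : 0 < D.C1 := by linarith [D.hC11]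
      rw [div_le_iff₀ hC0] at hc1
      linarith
    have h10 : 0 ≤ Real.log D.Y * (D.κ * (D.om * D.E4 + 1)) := by positivity
    calc Real.log D.Y * (D.κ * D.om * D.E4 + e) ≤ Real.log D.Y * (D.κ * (D.om * D.E4 + 1)) := by
          apply mul_le_mul_of_nonneg_left _ (by linarith)
          linarith
      _ = Real.log D.Y * (D.κ * (D.om * D.E4 + 1)) * 1 := (mul_one _).symm
      _ ≤ Real.log D.Y * (D.κ * (D.om * D.E4 + 1)) * (D.C1 ^ 2 * c ^ 2) :=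
          mul_le_mul_of_nonneg_left h9 h10
      _ = (D.C1 ^ 2 * (Real.log D.Y * (D.om * D.E4 + 1))) * (D.κ * c ^ 2) := by ring
      _ ≤ (D.θ * D.G) * (D.κ * c ^ 2) := mul_le_mul_of_nonneg_right hd (by positivity)
      _ = _ := by ring
  have t5 : (D.G : ℝ) * (Real.log D.Y * (D.κ * D.om * D.E4 + e)) ≤ D.G * (D.G * (D.θ * D.κ * c ^ 2)) :=
    mul_le_mul_of_nonneg_left t4 (by linarith)
  have t6 : (D.G : ℝ) ^ 2 * (4 * D.θ * D.κ * c ^ 2 + e' + 2 * c * (D.κ * (D.C1 * c * D.Ξ) + e) +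
      c ^ 2 * (6 * D.S2 + 2)) ≤ (D.G : ℝ) ^ 2 * (10 * D.θ * D.κ * c ^ 2) :=
    mul_le_mul_of_nonneg_left (by linarith) (by positivity)
  have t8 : (D.G : ℝ) ^ 2 * (10 * D.θ * D.κ * c ^ 2) = 10 * (D.θ * D.κ * (D.G * c) ^ 2) := by ring
  have t9 : (D.G : ℝ) * (D.G * (D.θ * D.κ * c ^ 2)) = D.θ * D.κ * (D.G * c) ^ 2 := by ring
  linarith

/-- the bad pairs of a class -/
theorem class_bad : ∃ B ⊆ D.N, (B.card : ℝ) ≤ 44 * (Fintype.card J + 1) * D.θ * D.κ ∧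
    ∀ n ∈ D.N, n ∉ B → D.SN n ≤ 3 / 2 * (D.G * D.MM none) ∧
      ∀ l, 1 / 2 * (D.G * (D.om * D.MM (some l))) ≤ D.SP l n := by
  classical
  obtain ⟨B0, hB0⟩ : ∃ B0, B0 = D.N.filter (fun n =>
    (D.G * D.MM none) / 2 ≤ |D.SN n - D.G * D.MM none|) := ⟨_, rfl⟩
  obtain ⟨Bl, hBl⟩ : ∃ Bl : J → Finset (ℕ × ℕ), Bl = fun l => D.N.filter (fun n =>
    (D.G * (D.om * D.MM (some l))) / 2 ≤ |D.SP l n - D.G * (D.om * D.MM (some l))|) := ⟨_, rfl⟩
  have h0 := D.cardN_bad B0 (by rw [hB0]; exact filter_subset _ _)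
    (fun n hn => by rw [hB0] at hn; exact (mem_filter.1 hn).2)
  have hl : ∀ l, ((Bl l).card : ℝ) ≤ 44 * D.θ * D.κ := fun l =>
    D.cardP_bad l (Bl l) (by rw [hBl]; exact filter_subset _ _)
      (fun n hn => by rw [hBl] at hn; exact (mem_filter.1 hn).2)
  refine ⟨B0 ∪ univ.biUnion Bl, ?_, ?_, ?_⟩
  · apply union_subset
    · rw [hB0]; exact filter_subset _ _
    · rw [biUnion_subset]
      intro l _
      rw [hBl]; exact filter_subset _ _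
  · have h1 : ((B0 ∪ univ.biUnion Bl).card : ℝ) ≤ B0.card + ∑ l, ((Bl l).card : ℝ) := by
      have h2 := card_union_le B0 (univ.biUnion Bl)
      have h3 := card_biUnion_le (s := (univ : Finset J)) (t := Bl)
      exact_mod_cast h2.trans (Nat.add_le_add_left h3 _)
    have h4 : ∑ l, ((Bl l).card : ℝ) ≤ Fintype.card J * (44 * D.θ * D.κ) := by
      refine (sum_le_card_nsmul _ _ _ (fun l _ => hl l)).trans (le_of_eq ?_)
      rw [card_univ, nsmul_eq_mul]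
    calc _ ≤ 44 * D.θ * D.κ + Fintype.card J * (44 * D.θ * D.κ) := by linarith
      _ = _ := by ring
  · intro n hn hnB
    rw [mem_union, not_or] at hnB
    have h1 : ¬ (D.G * D.MM none) / 2 ≤ |D.SN n - D.G * D.MM none| := by
      intro h
      apply hnB.1
      rw [hB0]
      exact mem_filter.2 ⟨hn, h⟩
    push Not at h1
    rw [abs_lt] at h1
    refine ⟨by linarith [h1.2], fun l => ?_⟩
    have h2 : ¬ (D.G * (D.om * D.MM (some l))) / 2 ≤ |D.SP l n - D.G * (D.om * D.MM (some l))| := by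
      intro h
      apply hnB.2
      rw [mem_biUnion]
      refine ⟨l, mem_univ _, ?_⟩
      rw [hBl]
      exact mem_filter.2 ⟨hn, h⟩
    push Not at h2
    rw [abs_lt] at h2
    linarith [h2.1]

/-- a cluster for every good pair -/
theorem cluster (m : ℕ) (hm : 3 * m * Real.log D.Y * D.MM none < D.om * ∑ l, D.MM (some l))
    (n : ℕ × ℕ) (hn : n ∈ D.N)
    (h1 : D.SN n ≤ 3 / 2 * (D.G * D.MM none))
    (h2 : ∀ l, 1 / 2 * (D.G * (D.om * D.MM (some l))) ≤ D.SP l n) :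
    ∃ g < D.G, m ≤ ((univ : Finset J).filter (fun l =>
      (2 * n.1 * (D.i0 + D.W * g + D.h l) + (D.i0 + D.W * g + D.h l) ^ 2 - n.2).Prime)).card := by
  classical
  by_contra hcon
  push Not at hcon
  have hG : (1 : ℝ) ≤ D.G := by exact_mod_cast D.hG0
  have hlog := D.hlogY
  have h3 : ∑ l, D.SP l n ≤ m * Real.log D.Y * D.SN n := by
    unfold SP SN
    rw [sum_comm, mul_sum]
    apply sum_le_sum
    intro g hg
    rw [mem_range] at hg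
    rw [← sum_mul]
    apply mul_le_mul_of_nonneg_right _ (sq_nonneg _)
    have h4 := hcon g hg
    have h5 : ∑ l, D.mu (D.i0 + D.W * g + D.h l) n ≤ ∑ l, (if (2 * n.1 * (D.i0 + D.W * g + D.h l) +
        (D.i0 + D.W * g + D.h l) ^ 2 - n.2).Prime then Real.log D.Y else 0) := by
      apply sum_le_sum
      intro l _
      split_ifs with hp
      · exact D.mu_le g hg l n hn
      · unfold mu th
        rw [if_neg (fun h => hp h.1)]
    refine h5.trans ?_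
    rw [← sum_filter, sum_const, nsmul_eq_mul]
    apply mul_le_mul_of_nonneg_right _ (by linarith)
    exact_mod_cast h4.le
  have h4 : (1 : ℝ) / 2 * D.G * (D.om * ∑ l, D.MM (some l)) ≤ ∑ l, D.SP l n := by
    rw [mul_sum, mul_sum]
    apply sum_le_sum
    intro l _
    have := h2 l
    linarith
  have h5 : (m : ℝ) * Real.log D.Y * D.SN n ≤ m * Real.log D.Y * (3 / 2 * (D.G * D.MM none)) :=
    mul_le_mul_of_nonneg_left h1 (by positivity)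
  have h6 : (1 : ℝ) / 2 * D.G * (3 * m * Real.log D.Y * D.MM none) <
      1 / 2 * D.G * (D.om * ∑ l, D.MM (some l)) := mul_lt_mul_of_pos_left hm (by linarith)
  have h7 : (m : ℝ) * Real.log D.Y * (3 / 2 * (D.G * D.MM none)) =
      1 / 2 * D.G * (3 * m * Real.log D.Y * D.MM none) := by ring
  linarith

end Sv

end Pool.Agent.N913.MT
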