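import Pool.Agent.N913.MT.C2

set_option autoImplicit false

/-! Class sums with two primes. -/

namespace Pool.Agent.N913.MT

open Finset

/-- an intersection of an upper and a lower set of an initial segment is an interval -/
theorem interval (S : ℕ) (P Q : ℕ → Prop) [DecidablePred P] [DecidablePred Q]
    (hP : ∀ s s', s ≤ s' → P s → P s') (hQ : ∀ s s', s ≤ s' → Q s' → Q s) :
    ∃ s1 s2 : ℕ, s1 ≤ s2 ∧ s2 ≤ S ∧ (range S).filter (fun s => P s ∧ Q s) = Ico s1 s2 := by
  by_cases h : ((range S).filter (fun s => P s ∧ Q s)).Nonempty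
  · refine ⟨((range S).filter (fun s => P s ∧ Q s)).min' h,
      ((range S).filter (fun s => P s ∧ Q s)).max' h + 1, ?_, ?_, ?_⟩
    · have := min'_le_max' _ h
      omega
    · have := max'_mem _ h
      have h2 := mem_range.1 (mem_filter.1 this).1
      omega
    · have h1 := min'_mem _ h
      have h2 := max'_mem _ h
      rw [mem_filter, mem_range] at h1 h2
      ext s
      constructor
      · intro hs
        rw [mem_Ico]
        have h3 := min'_le _ s hs
        have h4 := le_max' _ s hs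
        omega
      · intro hs
        rw [mem_Ico] at hs
        rw [mem_filter, mem_range]
        refine ⟨by omega, hP _ _ hs.1 h1.2.1, hQ _ _ (by omega) h2.2.2⟩
  · rw [not_nonempty_iff_eq_empty] at h
    exact ⟨0, 0, le_rfl, Nat.zero_le _, by rw [h]; simp⟩

theorem vn_shift (q t δ a b : ℕ) (hq : 1 ≤ q) :
    vn q t a b + δ * (2 * a + (2 * t + δ)) = vn q (t + δ) a b := by
  unfold vn
  ring

theorem sum_odd (n : ℕ) : ∑ s ∈ range n, (2 * (s : ℝ) + 1) = (n : ℝ) ^ 2 := by
  induction n with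
  | zero => simp
  | succ n ih => rw [sum_range_succ, ih]; push_cast; ring

theorem claim2 (R Y : ℕ) (M : ℕ → ℝ) (hM : BVh R Y M) (hM0 : ∀ q, 0 ≤ M q) (S2 q a b t δ : ℕ)
    (hq : 1 ≤ q) (h2q : 2 ∣ q) (hR : ∀ p : ℕ, p.Prime → p ∣ q → p ≤ R) (hδ : 1 ≤ δ) (hδR : δ ≤ R)
    (ht : 1 ≤ t) (hY : 2 * S2 * (t + δ) + (t + δ) ^ 2 ≤ Y) :
    |∑ n ∈ CS S2 q a b, th R (2 * n.1 * t + t ^ 2 - n.2) *
        th R (2 * n.1 * (t + δ) + (t + δ) ^ 2 - n.2) -
      (if (vn q t a b).Coprime q ∧ (vn q (t + δ) a b).Coprime q then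
        2 * δ * (S2 : ℝ) ^ 2 / (Nat.totient (2 * δ * q) * Nat.totient q) else 0)| ≤
      2 * M (2 * δ * q) * (((Y : ℝ) + 1) / q + 1) * Real.log Y +
        2 * δ / Nat.totient (2 * δ * q) * (S2 * (2 * M q)) := by
  have hq0 : (0 : ℝ) < q := by exact_mod_cast hq
  have hφ : (0 : ℝ) < Nat.totient q := by exact_mod_cast Nat.totient_pos.2 hq
  have h2δq : 1 ≤ 2 * δ * q := Nat.mul_pos (by omega) hq
  have hφ2 : (0 : ℝ) < Nat.totient (2 * δ * q) := by exact_mod_cast Nat.totient_pos.2 h2δq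
  have hR2 : ∀ p : ℕ, p.Prime → p ∣ 2 * δ * q → p ≤ R := by
    intro p hp hd
    rcases (Nat.Prime.dvd_mul hp).1 hd with h | h
    · rcases (Nat.Prime.dvd_mul hp).1 h with h | h
      · exact hR p hp (h.trans h2q)
      · exact (Nat.le_of_dvd (by omega) h).trans hδR
    · exact hR p hp h
  obtain ⟨Y0, hY0⟩ : ∃ Y0, Y0 = 2 * S2 * t + t ^ 2 := ⟨_, rfl⟩
  have hY0Y : Y0 ≤ Y := by
    have h1 : 2 * S2 * (t + δ) + (t + δ) ^ 2 = Y0 + (2 * S2 * δ + 2 * t * δ + δ ^ 2) := by rw [hY0]; ring
    omega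
  obtain ⟨c, hc⟩ : ∃ c, c = vn q t a b := ⟨_, rfl⟩
  -- the predicate
  set I : ℕ → ℕ → Prop := fun s u => 2 * s * t + t ^ 2 - 2 * s ≤ u ∧ u ≤ 2 * s * t + t ^ 2 with hI
  have hdec : ∀ s u, Decidable (I s u) := fun s u => by rw [hI]; infer_instance
  have hval : ∀ s r, r ≤ 2 * s → 2 * s * (t + δ) + (t + δ) ^ 2 - r =
      2 * s * t + t ^ 2 - r + δ * (2 * s + (2 * t + δ)) := by
    intro s r hr
    have h1 : 2 * s * (t + δ) + (t + δ) ^ 2 = 2 * s * t + t ^ 2 + δ * (2 * s + (2 * t + δ)) := by ring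
    have h2 : 2 * s ≤ 2 * s * t := Nat.le_mul_of_pos_right _ ht
    rw [h1]
    omega
  -- first form
  have e1 : ∑ n ∈ CS S2 q a b, th R (2 * n.1 * t + t ^ 2 - n.2) *
        th R (2 * n.1 * (t + δ) + (t + δ) ^ 2 - n.2) =
      ∑ s ∈ (range S2).filter (fun s => s ≡ a [MOD q]),
        ∑ u ∈ (Icc (2 * s * t + t ^ 2 - 2 * s) (2 * s * t + t ^ 2)).filter (fun u => u ≡ c [MOD q]),
          th R u * th R (u + δ * (2 * s + (2 * t + δ))) := by
    rw [sum_CS]
    refine sum_congr rfl fun s hs => ?_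
    rw [hc, ← row_rev q t a b s hq ht (mem_filter.1 hs).2
      (fun u => th R u * th R (u + δ * (2 * s + (2 * t + δ))))]
    refine sum_congr rfl fun r hr => ?_
    have h1 := mem_range.1 (mem_filter.1 hr).1
    simp only
    rw [hval s r (by omega)]
  have e2 : ∀ s ∈ range S2, ∀ g : ℕ → ℝ,
      ∑ u ∈ (Icc (2 * s * t + t ^ 2 - 2 * s) (2 * s * t + t ^ 2)).filter (fun u => u ≡ c [MOD q]), g u =
      ∑ u ∈ (Icc 1 Y0).filter (fun u => u ≡ c [MOD q]), if I s u then g u else 0 := by
    intro s hs g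
    rw [← sum_filter, filter_filter]
    apply sum_congr _ (fun _ _ => rfl)
    ext u
    simp only [mem_filter, mem_Icc, hI]
    have h1 := mem_range.1 hs
    have h2 : 2 * s * t ≤ 2 * S2 * t := by gcongr
    have h3 : 2 * s ≤ 2 * s * t := Nat.le_mul_of_pos_right _ ht
    have h4 : 1 ≤ t ^ 2 := Nat.one_le_pow _ _ ht
    constructor
    · rintro ⟨⟨h5, h6⟩, h7⟩
      exact ⟨⟨by omega, by omega⟩, h7, h5, h6⟩
    · rintro ⟨⟨h5, h6⟩, h7, h8, h9⟩
      exact ⟨⟨h8, h9⟩, h7⟩
  have e3 : ∑ n ∈ CS S2 q a b, th R (2 * n.1 * t + t ^ 2 - n.2) *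
        th R (2 * n.1 * (t + δ) + (t + δ) ^ 2 - n.2) =
      ∑ u ∈ (Icc 1 Y0).filter (fun u => u ≡ c [MOD q]), th R u *
        ∑ s ∈ ((range S2).filter (fun s => I s u)).filter (fun s => s ≡ a [MOD q]),
          th R (u + δ * (2 * t + δ) + 2 * δ * s) := by
    rw [e1, sum_congr rfl (fun s hs => e2 s (mem_filter.1 hs).1 _), sum_comm]
    refine sum_congr rfl fun u _ => ?_
    rw [mul_sum, ← sum_filter, Finset.filter_comm]
    refine sum_congr rfl fun s _ => ?_
    have h1 : u + δ * (2 * s + (2 * t + δ)) = u + δ * (2 * t + δ) + 2 * δ * s := by ring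
    rw [h1]
  -- intervals
  have hint : ∀ u, ∃ s1 s2 : ℕ, s1 ≤ s2 ∧ s2 ≤ S2 ∧ (range S2).filter (fun s => I s u) = Ico s1 s2 := by
    intro u
    have h := interval S2 (fun s => u ≤ 2 * s * t + t ^ 2) (fun s => 2 * s * t + t ^ 2 - 2 * s ≤ u)
      (fun s s' h1 h2 => by
        have : 2 * s * t ≤ 2 * s' * t := by gcongr
        omega)
      (fun s s' h1 h2 => by
        obtain ⟨m, rfl⟩ : ∃ m, t = m + 1 := ⟨t - 1, by omega⟩
        have h3 : ∀ x : ℕ, 2 * x * (m + 1) + (m + 1) ^ 2 - 2 * x = 2 * x * m + (m + 1) ^ 2 := by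
          intro x
          have : 2 * x * (m + 1) = 2 * x * m + 2 * x := by ring
          omega
        rw [h3] at h2 ⊢
        have : 2 * s * m ≤ 2 * s' * m := by gcongr
        omega)
    obtain ⟨s1, s2, h1, h2, h3⟩ := h
    refine ⟨s1, s2, h1, h2, ?_⟩
    rw [← h3]
    apply filter_congr
    intro s _
    simp only [hI]
    exact and_comm
  -- the inner sums
  set κ : ℝ := if (vn q (t + δ) a b).Coprime q then 2 * δ / (Nat.totient (2 * δ * q) : ℝ) else 0 with hκ
  have hκ0 : 0 ≤ κ := by rw [hκ]; split_ifs <;> positivity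
  have hκ1 : κ ≤ 2 * δ / (Nat.totient (2 * δ * q) : ℝ) := by
    rw [hκ]; split_ifs
    · exact le_rfl
    · positivity
  have hin : ∀ u ∈ (Icc 1 Y0).filter (fun u => u ≡ c [MOD q]),
      |th R u * ∑ s ∈ ((range S2).filter (fun s => I s u)).filter (fun s => s ≡ a [MOD q]),
          th R (u + δ * (2 * t + δ) + 2 * δ * s) -
        κ * (th R u * (((range S2).filter (fun s => I s u)).card : ℝ))| ≤
      th R u * (2 * M (2 * δ * q)) := by
    intro u hu
    rw [mem_filter, mem_Icc] at hu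
    obtain ⟨⟨hu1, hu2⟩, huc⟩ := hu
    by_cases hz : th R u = 0
    · rw [hz]; simp
    · have hup : u.Prime ∧ R < u := by
        unfold th at hz
        by_contra h
        rw [if_neg h] at hz
        exact hz rfl
      obtain ⟨s1, s2, g1, g2, g3⟩ := hint u
      rw [g3, Nat.card_Ico]
      have h := AP1 R Y M hM (2 * δ) q (by omega) hq hR2 (u + δ * (2 * t + δ)) a s1 s2
        (by omega) g1 (by
          have h1 : 2 * δ * s2 ≤ 2 * δ * S2 := by gcongr
          have h2 : 2 * S2 * (t + δ) + (t + δ) ^ 2 = (2 * S2 * t + t ^ 2) + δ * (2 * t + δ) + 2 * δ * S2 := by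
            ring
          omega)
      have hcop : (u + δ * (2 * t + δ) + 2 * δ * a).Coprime (2 * δ * q) ↔
          (vn q (t + δ) a b).Coprime q := by
        have hx : u + δ * (2 * t + δ) + 2 * δ * a ≡ vn q (t + δ) a b [MOD q] := by
          rw [← vn_shift q t δ a b hq, ← hc]
          have : u + δ * (2 * t + δ) + 2 * δ * a = u + δ * (2 * a + (2 * t + δ)) := by ring
          rw [this]
          exact Nat.ModEq.add_right _ huc
        have hcq : (u + δ * (2 * t + δ) + 2 * δ * a).Coprime q ↔ (vn q (t + δ) a b).Coprime q := by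
          unfold Nat.Coprime
          rw [hx.gcd_eq]
        rw [← hcq]
        constructor
        · intro h1
          exact Nat.Coprime.coprime_dvd_right (dvd_mul_left q _) h1
        · intro h1
          apply Nat.Coprime.mul_right _ h1
          apply Nat.Coprime.mul_right
          · exact Nat.Coprime.coprime_dvd_right h2q h1
          · have h3 : u.Coprime δ := by
              rw [Nat.Prime.coprime_iff_not_dvd hup.1]
              intro h4
              have := Nat.le_of_dvd (by omega) h4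
              omega
            have h4 : u + δ * (2 * t + δ) + 2 * δ * a = u + δ * ((2 * t + δ) + 2 * a) := by ring
            rw [h4, Nat.coprime_add_mul_left_left]
            exact h3
      have e4 : (if (u + δ * (2 * t + δ) + 2 * δ * a).Coprime (2 * δ * q) then
          ((2 * δ : ℕ) : ℝ) * (s2 - s1) / Nat.totient (2 * δ * q) else 0) = κ * ((s2 : ℝ) - s1) := by
        rw [hκ]
        by_cases h5 : (vn q (t + δ) a b).Coprime q
        · rw [if_pos h5, if_pos (hcop.2 h5)]
          push_cast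
          ring
        · rw [if_neg h5, if_neg (fun h6 => h5 (hcop.1 h6)), zero_mul]
      rw [e4] at h
      rw [Nat.cast_sub g1]
      have e5 : κ * (th R u * ((s2 : ℝ) - s1)) = th R u * (κ * ((s2 : ℝ) - s1)) := by ring
      rw [e5, ← mul_sub, abs_mul, abs_of_nonneg (th_nonneg R u)]
      exact mul_le_mul_of_nonneg_left h (th_nonneg R u)
  -- the outer sum
  have hout : |∑ u ∈ (Icc 1 Y0).filter (fun u => u ≡ c [MOD q]),
      th R u * (((range S2).filter (fun s => I s u)).card : ℝ) -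
      (if c.Coprime q then (S2 : ℝ) ^ 2 / Nat.totient q else 0)| ≤ S2 * (2 * M q) := by
    have e6 : ∑ u ∈ (Icc 1 Y0).filter (fun u => u ≡ c [MOD q]),
        th R u * (((range S2).filter (fun s => I s u)).card : ℝ) =
        ∑ s ∈ range S2, ∑ u ∈ (Icc (2 * s * t + t ^ 2 - 2 * s) (2 * s * t + t ^ 2)).filter
          (fun u => u ≡ c [MOD q]), th R u := by
      rw [sum_congr rfl (fun s hs => e2 s hs (th R)), sum_comm]
      refine sum_congr rfl fun u _ => ?_
      rw [← sum_filter, sum_const, nsmul_eq_mul, mul_comm]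
    have e7 : (if c.Coprime q then (S2 : ℝ) ^ 2 / Nat.totient q else 0) =
        ∑ s ∈ range S2, (if c.Coprime q then (2 * (s : ℝ) + 1) / Nat.totient q else 0) := by
      split_ifs
      · rw [← sum_div, sum_odd]
      · rw [sum_const_zero]
    rw [e6, e7, ← sum_sub_distrib]
    refine (abs_sum_le_sum_abs _ _).trans ?_
    refine (sum_le_sum (fun s hs => row R Y M hM q hq hR t s c ht (by
      have h5 := mem_range.1 hs
      have h6 : 2 * s * t ≤ 2 * S2 * t := by gcongr
      omega))).trans ?_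
    rw [sum_const, nsmul_eq_mul, card_range]
  have hthsum : ∑ u ∈ (Icc 1 Y0).filter (fun u => u ≡ c [MOD q]), th R u ≤
      (((Y : ℝ) + 1) / q + 1) * Real.log Y := by
    have h1 : ∑ u ∈ (Icc 1 Y0).filter (fun u => u ≡ c [MOD q]), th R u ≤
        ∑ u ∈ (Icc 1 Y0).filter (fun u => u ≡ c [MOD q]), Real.log Y := by
      apply sum_le_sum
      intro u hu
      apply th_le
      have := (mem_Icc.1 (mem_filter.1 hu).1).2
      omega
    refine h1.trans ?_
    rw [sum_const, nsmul_eq_mul]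
    apply mul_le_mul_of_nonneg_right _ (Real.log_natCast_nonneg Y)
    have h2 : ((Icc 1 Y0).filter (fun u => u ≡ c [MOD q])).card ≤
        ((range (Y + 1)).filter (fun u => u ≡ c [MOD q])).card := by
      apply card_le_card
      apply filter_subset_filter
      intro u hu
      rw [mem_Icc] at hu
      rw [mem_range]
      omega
    have h3 := cmod (Y + 1) q c hq
    rw [abs_le] at h3
    have h4 : (((Icc 1 Y0).filter (fun u => u ≡ c [MOD q])).card : ℝ) ≤
        ((range (Y + 1)).filter (fun u => u ≡ c [MOD q])).card := by exact_mod_cast h2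
    push_cast at h3
    linarith [h3.2]
  rw [e3]
  have hA : |∑ u ∈ (Icc 1 Y0).filter (fun u => u ≡ c [MOD q]),
      (th R u * ∑ s ∈ ((range S2).filter (fun s => I s u)).filter (fun s => s ≡ a [MOD q]),
          th R (u + δ * (2 * t + δ) + 2 * δ * s) -
        κ * (th R u * (((range S2).filter (fun s => I s u)).card : ℝ)))| ≤
      2 * M (2 * δ * q) * (((Y : ℝ) + 1) / q + 1) * Real.log Y := by
    refine (abs_sum_le_sum_abs _ _).trans ((sum_le_sum hin).trans ?_)
    rw [← sum_mul]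
    calc _ ≤ ((((Y : ℝ) + 1) / q + 1) * Real.log Y) * (2 * M (2 * δ * q)) :=
          mul_le_mul_of_nonneg_right hthsum (by linarith [hM0 (2 * δ * q)])
      _ = _ := by ring
  rw [sum_sub_distrib, ← mul_sum] at hA
  have hB : |κ * ∑ u ∈ (Icc 1 Y0).filter (fun u => u ≡ c [MOD q]),
      th R u * (((range S2).filter (fun s => I s u)).card : ℝ) -
      κ * (if c.Coprime q then (S2 : ℝ) ^ 2 / Nat.totient q else 0)| ≤
      2 * δ / Nat.totient (2 * δ * q) * (S2 * (2 * M q)) := by
    rw [← mul_sub, abs_mul, abs_of_nonneg hκ0]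
    exact mul_le_mul hκ1 hout (abs_nonneg _) (by positivity)
  have e8 : (if (vn q t a b).Coprime q ∧ (vn q (t + δ) a b).Coprime q then
        2 * δ * (S2 : ℝ) ^ 2 / (Nat.totient (2 * δ * q) * Nat.totient q) else 0) =
      κ * (if c.Coprime q then (S2 : ℝ) ^ 2 / Nat.totient q else 0) := by
    rw [hκ, hc]
    by_cases h1 : (vn q t a b).Coprime q
    · by_cases h2 : (vn q (t + δ) a b).Coprime q
      · rw [if_pos ⟨h1, h2⟩, if_pos h2, if_pos h1, div_mul_div_comm]
      · rw [if_neg (fun h => h2 h.2), if_neg h2, zero_mul]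
    · rw [if_neg (fun h => h1 h.1), if_neg h1, mul_zero]
  rw [e8]
  rw [abs_le] at hA hB ⊢
  constructor <;> linarith [hA.1, hA.2, hB.1, hB.2]

end Pool.Agent.N913.MT
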