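import Pool.Agent.N913.MT.B4
import Pool.Agent.R498.MT.Mert

set_option autoImplicit false
set_option linter.unusedSectionVars false

/-! The choice of the weights. -/

namespace Pool.Agent.N913.MT

open Finset
open Pool.Agent.R498.MT (ms lz gp gp_bd gp_supp gp_zero MerS mass mass_lower mass_upper sum_H sum_I2
  sum_IE sum_I2_lower exp_bd)

section wt
variable {S J : Type} [Fintype S] [DecidableEq S] [Fintype J] [DecidableEq J]

theorem kap_true (ν : S → ℝ) (isl : Prop) [Decidable isl] (h : isl) (a : Finset S × Finset S) :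
    kap ν isl a = ms ν a.1 * ms ν a.2 := by
  unfold kap ms
  have h1 : ∀ t, idf (ν t) isl ((if t ∈ a.1 then 1 else 0) + (if t ∈ a.2 then 1 else 0)) =
      (if t ∈ a.1 then ν t else 1) * (if t ∈ a.2 then ν t else 1) := by
    intro t
    unfold idf
    rw [if_pos h, pow_add]
    split_ifs <;> simp
  rw [prod_congr rfl (fun t _ => h1 t), prod_mul_distrib]
  congr 1
  · rw [prod_ite_mem, univ_inter]
  · rw [prod_ite_mem, univ_inter]

theorem kap_false (ν : S → ℝ) (isl : Prop) [Decidable isl] (h : ¬ isl) (a : Finset S × Finset S) :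
    kap ν isl a = if a.1 = a.2 then ms ν a.1 else 0 := by
  unfold kap ms
  split_ifs with h1
  · have h2 : ∀ t, idf (ν t) isl ((if t ∈ a.1 then 1 else 0) + (if t ∈ a.2 then 1 else 0)) =
        (if t ∈ a.1 then ν t else 1) := by
      intro t
      unfold idf
      rw [if_neg h, h1]
      split_ifs <;> simp_all
    rw [prod_congr rfl (fun t _ => h2 t)]
    rw [prod_ite_mem, univ_inter]
  · have h2 : ∃ t, ¬ (t ∈ a.1 ↔ t ∈ a.2) := by
      by_contra hc
      push Not at hc
      exact h1 (Finset.ext hc)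
    obtain ⟨t, ht⟩ := h2
    apply prod_eq_zero (mem_univ t)
    unfold idf
    rw [if_neg h]
    by_cases h3 : t ∈ a.1
    · by_cases h4 : t ∈ a.2
      · exact absurd ⟨fun _ => h4, fun _ => h3⟩ ht
      · simp [h3, h4]
    · by_cases h4 : t ∈ a.2
      · simp [h3, h4]
      · exact absurd ⟨fun h => absurd h h3, fun h => absurd h h4⟩ ht

theorem kap_nonneg (ν : S → ℝ) (hν : ∀ t, 0 ≤ ν t) (isl : Prop) [Decidable isl]
    (a : Finset S × Finset S) : 0 ≤ kap ν isl a := by
  unfold kap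
  apply prod_nonneg
  intro t _
  unfold idf
  split_ifs <;> first | positivity | exact hν t | exact pow_nonneg (hν t) _ | skip

theorem pair_false (ν : S → ℝ) (isl : Prop) [Decidable isl] (h : ¬ isl) (f : Finset S × Finset S → ℝ) :
    ∑ a : Finset S × Finset S, f a * kap ν isl a = ∑ a : Finset S, f (a, a) * ms ν a := by
  rw [Fintype.sum_prod_type]
  refine sum_congr rfl fun a _ => ?_
  have h1 : ∀ b, f (a, b) * kap ν isl (a, b) = if a = b then f (a, a) * ms ν a else 0 := by
    intro b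
    rw [kap_false ν isl h]
    by_cases hab : a = b
    · subst hab; simp
    · simp [hab]
  rw [sum_congr rfl (fun b _ => h1 b), sum_ite_eq]
  simp

theorem pair_true (ν : S → ℝ) (isl : Prop) [Decidable isl] (h : isl) (g : Finset S → ℝ) :
    ∑ a : Finset S × Finset S, g a.1 * g a.2 * kap ν isl a = (∑ a : Finset S, g a * ms ν a) ^ 2 := by
  rw [Fintype.sum_prod_type, sq, sum_mul_sum]
  refine sum_congr rfl fun a _ => sum_congr rfl fun b _ => ?_
  rw [kap_true ν isl h]
  ring

theorem sum_phi (G : J → Finset S × Finset S → ℝ) :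
    ∑ φ : J → Finset S × Finset S, ∏ j, G j (φ j) = ∏ j, ∑ a, G j a := by
  rw [Finset.prod_univ_sum, Fintype.piFinset_univ]

theorem Wb_prod (ν : S → ℝ) (i : Option J) (g : Finset S → ℝ) :
    Wb ν i (fun f => ∏ j, g (f j)) =
      ∏ j, ∑ a : Finset S × Finset S, g a.1 * g a.2 * kap ν (i = some j) a := by
  unfold Wb
  rw [← sum_phi (fun j a => g a.1 * g a.2 * kap ν (i = some j) a)]
  refine sum_congr rfl fun φ _ => ?_
  rw [← prod_mul_distrib, ← prod_mul_distrib]

theorem Wb_mono (ν : S → ℝ) (hν : ∀ t, 0 ≤ ν t) (i : Option J) (y y' : (J → Finset S) → ℝ)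
    (h0 : ∀ f, 0 ≤ y f) (h : ∀ f, y f ≤ y' f) : Wb ν i y ≤ Wb ν i y' := by
  unfold Wb
  apply sum_le_sum
  intro φ _
  apply mul_le_mul_of_nonneg_right _ (prod_nonneg fun j _ => kap_nonneg ν hν _ _)
  exact mul_le_mul (h _) (h _) (h0 _) ((h0 _).trans (h _))

/-- the weights -/
noncomputable def yy (len : S → ℝ) (K : ℕ) (u w : ℝ) (f : J → Finset S) : ℝ :=
  (∏ j, gp K u (lz len (f j))) * (if ∑ j, lz len (f j) < w then 1 else 0)

theorem yy_bd (len : S → ℝ) (K : ℕ) (u w : ℝ) (f : J → Finset S) :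
    0 ≤ yy len K u w f ∧ yy len K u w f ≤ ∏ j, gp K u (lz len (f j)) ∧ yy len K u w f ≤ 1 := by
  have h1 : 0 ≤ ∏ j, gp K u (lz len (f j)) := prod_nonneg fun j _ => (gp_bd K u _).1
  have h2 : ∏ j, gp K u (lz len (f j)) ≤ 1 := prod_le_one (fun j _ => (gp_bd K u _).1)
    (fun j _ => (gp_bd K u _).2)
  unfold yy
  split_ifs
  · rw [mul_one]; exact ⟨h1, le_rfl, h2⟩
  · rw [mul_zero]; exact ⟨le_rfl, h1, zero_le_one⟩

theorem yy_supp (len : S → ℝ) (K : ℕ) (u w : ℝ) (f : J → Finset S) (h : yy len K u w f ≠ 0) :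
    ∑ j, lz len (f j) < w := by
  unfold yy at h
  by_contra hc
  rw [if_neg hc, mul_zero] at h
  exact h rfl

end wt

end Pool.Agent.N913.MT
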