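import Pool.Agent.N913.MT.D1
import Pool.Agent.N913.MT.B5

set_option autoImplicit false
set_option linter.unusedSectionVars false

/-! The sums of the errors. -/

namespace Pool.Agent.N913.MT

open Finset
open Pool.Agent.R498.MT (lz)

section err
variable {P : Finset ℕ} {B J : Type} [Fintype B] [Fintype J] [DecidableEq B] [DecidableEq J]
variable (hP : ∀ p ∈ P, p.Prime)
include hP

theorem TT_pos' (T : Finset P) : 1 ≤ TT T := Finset.prod_pos (fun (t : P) _ => (hP t t.2).pos)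

theorem TT_union (A A' : Finset P) : TT (A ∪ A') ≤ TT A * TT A' := by
  unfold TT
  rw [← prod_union_inter]
  exact Nat.le_mul_of_pos_right _ (Finset.prod_pos (fun (t : P) _ => (hP t t.2).pos))

theorem TT_biUnion {I : Type} [DecidableEq I] (s : Finset I) (F : I → Finset P) :
    TT (s.biUnion F) ≤ ∏ i ∈ s, TT (F i) := by
  induction s using Finset.induction_on with
  | empty => simp [TT]
  | insert i s hi ih =>
    rw [biUnion_insert, prod_insert hi]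
    exact (TT_union hP _ _).trans (Nat.mul_le_mul_left _ ih)

theorem log_TT (T : Finset P) : Real.log (TT T) = lz (fun t : P => Real.log ((t : ℕ) : ℝ)) T := by
  unfold TT lz
  push_cast
  rw [Real.log_prod]
  intro t _
  have := (hP t t.2).pos
  positivity

theorem adm_of (R : ℕ) (hR : 1 ≤ R) (y : (J → Finset P) → ℝ)
    (hy : ∀ f, y f ≠ 0 → ∑ j, lz (fun t : P => Real.log ((t : ℕ) : ℝ)) (f j) < Real.log R)
    (F : B × Bool × J → Finset P) (hF : Yp y F ≠ 0) :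
    TT (univ.biUnion F) ≤ R ^ (2 * Fintype.card B) := by
  have h1 : ∀ f : J → Finset P, y f ≠ 0 → ∏ j, TT (f j) ≤ R := by
    intro f hf
    have h2 := hy f hf
    have h3 : Real.log ((∏ j, TT (f j) : ℕ) : ℝ) < Real.log R := by
      push_cast
      rw [Real.log_prod]
      · rw [sum_congr rfl (fun j _ => log_TT hP (f j))]
        exact h2
      · intro j _
        have := TT_pos' hP (f j)
        positivity
    have h4 : 0 < ∏ j, TT (f j) := Finset.prod_pos fun j _ => TT_pos' hP (f j)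
    have h5 := (Real.log_lt_log_iff (by exact_mod_cast h4) (by exact_mod_cast hR)).1 h3
    exact_mod_cast h5.le
  refine (TT_biUnion hP univ F).trans ?_
  rw [Fintype.prod_prod_type]
  have h2 : ∀ b ∈ (univ : Finset B), ∏ x : Bool × J, TT (F (b, x)) ≤ R ^ 2 := by
    intro b _
    unfold Yp at hF
    have h3 := (prod_ne_zero_iff.1 hF) b (mem_univ b)
    have h4 := h1 _ (left_ne_zero_of_mul h3)
    have h5 := h1 _ (right_ne_zero_of_mul h3)
    rw [Fintype.prod_prod_type, Fintype.prod_bool, sq]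
    exact Nat.mul_le_mul h5 h4
  refine (Finset.prod_le_prod' h2).trans ?_
  rw [prod_const, card_univ, ← pow_mul]

theorem TT_inj : Function.Injective (fun T : Finset P => TT T) := by
  intro T T' h
  simp only at h
  have key : ∀ (A : Finset P) (t : P), t ∈ A ↔ (t : ℕ) ∣ TT A := by
    intro A t
    constructor
    · intro h1
      exact dvd_prod_of_mem _ h1
    · intro h1
      unfold TT at h1
      obtain ⟨s, hs, h2⟩ := (Prime.dvd_finsetProd_iff (hP t t.2).prime _).1 h1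
      have h3 := (Nat.prime_dvd_prime_iff_eq (hP t t.2) (hP s s.2)).1 h2
      rwa [Subtype.ext h3]
  ext t
  rw [key T t, key T' t, h]

theorem card_adm (Q : ℕ) : (((univ : Finset (Finset P)).filter (fun T => TT T ≤ Q)).card : ℝ) ≤ Q := by
  have h1 : ((univ : Finset (Finset P)).filter (fun T => TT T ≤ Q)).card ≤ (Icc 1 Q).card := by
    apply card_le_card_of_injOn (fun T => TT T)
    · intro T hT
      have h2 := (mem_filter.1 (mem_coe.1 hT)).2
      exact mem_coe.2 (mem_Icc.2 ⟨TT_pos' hP T, h2⟩)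
    · exact (TT_inj hP).injOn
  rw [Nat.card_Icc, Nat.add_sub_cancel] at h1
  exact_mod_cast h1

theorem pow_le_TT (c : ℝ) (hc0 : 0 ≤ c) (hc : ∀ p ∈ P, c ≤ (p : ℝ)) (T : Finset P) :
    c ^ T.card ≤ (TT T : ℝ) := by
  unfold TT
  push_cast
  rw [← prod_const]
  exact prod_le_prod (fun _ _ => hc0) (fun t _ => hc t t.2)

/-- sums over the moduli -/
noncomputable def BS (P : Finset ℕ) (M : ℕ → ℝ) (Q : ℕ) (c : ℝ) (m0 : ℕ) : ℝ :=
  ∑ T ∈ (univ : Finset (Finset P)).filter (fun T => TT T ≤ Q), c ^ T.card * M (m0 * TT T)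

theorem sum_pow_le (c : ℝ) (hc0 : 0 ≤ c) (hc : ∀ p ∈ P, c ≤ (p : ℝ)) (Q : ℕ) :
    ∑ T ∈ (univ : Finset (Finset P)).filter (fun T => TT T ≤ Q), c ^ T.card ≤ (Q : ℝ) ^ 2 := by
  have h1 : ∀ T ∈ (univ : Finset (Finset P)).filter (fun T => TT T ≤ Q), c ^ T.card ≤ (Q : ℝ) := by
    intro T hT
    refine (pow_le_TT hP c hc0 hc T).trans ?_
    exact_mod_cast (mem_filter.1 hT).2
  refine (sum_le_card_nsmul _ _ _ h1).trans ?_
  rw [nsmul_eq_mul, sq]
  exact mul_le_mul_of_nonneg_right (card_adm hP Q) (Nat.cast_nonneg _)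

theorem rew (c : ℕ) (T : Finset P) : (2 : ℝ) ^ (c * T.card) * ∏ t ∈ T, (3 * ((t : ℕ) : ℝ)) =
    (3 * 2 ^ c) ^ T.card * TT T := by
  unfold TT
  push_cast
  rw [prod_mul_distrib, prod_const, mul_pow, ← pow_mul]
  ring

theorem err0 (c : ℕ) (hc : ∀ p ∈ P, (3 * 2 ^ c : ℝ) ≤ (p : ℝ)) (Q S2 : ℕ) :
    ∑ T ∈ (univ : Finset (Finset P)).filter (fun T => TT T ≤ Q), (2 : ℝ) ^ (c * T.card) *
      ((6 * S2 + 2) * ∏ t ∈ T, (3 * ((t : ℕ) : ℝ))) ≤ (6 * S2 + 2) * (Q : ℝ) ^ 3 := by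
  have h1 : ∀ T ∈ (univ : Finset (Finset P)).filter (fun T => TT T ≤ Q), (2 : ℝ) ^ (c * T.card) *
      ((6 * S2 + 2) * ∏ t ∈ T, (3 * ((t : ℕ) : ℝ))) ≤ ((6 * S2 + 2) * Q) * (3 * 2 ^ c) ^ T.card := by
    intro T hT
    have h2 : (TT T : ℝ) ≤ Q := by exact_mod_cast (mem_filter.1 hT).2
    calc _ = (6 * S2 + 2) * ((2 : ℝ) ^ (c * T.card) * ∏ t ∈ T, (3 * ((t : ℕ) : ℝ))) := by ring
      _ = (6 * S2 + 2) * ((3 * 2 ^ c) ^ T.card * TT T) := by rw [rew hP]
      _ ≤ (6 * S2 + 2) * ((3 * 2 ^ c) ^ T.card * Q) := by gcongr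
      _ = _ := by ring
  refine (sum_le_sum h1).trans ?_
  rw [← mul_sum]
  calc _ ≤ ((6 * (S2 : ℝ) + 2) * Q) * (Q : ℝ) ^ 2 :=
        mul_le_mul_of_nonneg_left (sum_pow_le hP _ (by positivity) hc Q) (by positivity)
    _ = _ := by ring

theorem tot_ge (hP2 : ∀ p ∈ P, 3 ≤ p) (W : ℕ) (hW0 : 1 ≤ W) (hW : ∀ p ∈ P, ¬ p ∣ W) (T : Finset P) :
    (TT T : ℝ) ≤ 2 ^ T.card * Nat.totient (W * TT T) := by
  rw [tot_TT hP W hW T]
  have h1 : (1 : ℝ) ≤ Nat.totient W := by exact_mod_cast Nat.totient_pos.2 hW0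
  have h2 : (TT T : ℝ) ≤ 2 ^ T.card * ∏ t ∈ T, (((t : ℕ) : ℝ) - 1) := by
    unfold TT
    push_cast
    rw [← prod_const, ← prod_mul_distrib]
    apply prod_le_prod (fun _ _ => by positivity)
    intro t _
    have : (3 : ℝ) ≤ (t : ℕ) := by exact_mod_cast hP2 t t.2
    linarith
  have h3 : 0 ≤ ∏ t ∈ T, (((t : ℕ) : ℝ) - 1) := prod_nonneg fun t _ => by
    have : (3 : ℝ) ≤ (t : ℕ) := by exact_mod_cast hP2 t t.2
    linarith
  calc (TT T : ℝ) ≤ 2 ^ T.card * (1 * ∏ t ∈ T, (((t : ℕ) : ℝ) - 1)) := by rw [one_mul]; exact h2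
    _ ≤ _ := by gcongr

theorem err1 (hP2 : ∀ p ∈ P, 3 ≤ p) (c : ℕ) (hc : ∀ p ∈ P, (2 * (3 * 2 ^ c) : ℝ) ≤ (p : ℝ)) (W : ℕ)
    (hW0 : 1 ≤ W) (hW : ∀ p ∈ P, ¬ p ∣ W) (Q S2 : ℕ) (hWQ : W * Q ≤ S2) (M : ℕ → ℝ)
    (hM0 : ∀ q, 0 ≤ M q) :
    ∑ T ∈ (univ : Finset (Finset P)).filter (fun T => TT T ≤ Q), (2 : ℝ) ^ (c * T.card) *
      (((S2 / ((W * TT T : ℕ) : ℝ) + 1) * (2 * M (W * TT T)) +
        (4 * S2 + 1) / Nat.totient (W * TT T)) * ∏ t ∈ T, (3 * ((t : ℕ) : ℝ))) ≤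
      4 * S2 * BS P M Q (3 * 2 ^ c) W + (4 * S2 + 1) * (Q : ℝ) ^ 2 := by
  have h1 : ∀ T ∈ (univ : Finset (Finset P)).filter (fun T => TT T ≤ Q), (2 : ℝ) ^ (c * T.card) *
      (((S2 / ((W * TT T : ℕ) : ℝ) + 1) * (2 * M (W * TT T)) +
        (4 * S2 + 1) / Nat.totient (W * TT T)) * ∏ t ∈ T, (3 * ((t : ℕ) : ℝ))) ≤
      4 * S2 * ((3 * 2 ^ c) ^ T.card * M (W * TT T)) + (4 * S2 + 1) * (2 * (3 * 2 ^ c)) ^ T.card := by
    intro T hT
    have hTT := TT_pos' hP T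
    have hTT1 : (1 : ℝ) ≤ TT T := by exact_mod_cast hTT
    have hW1 : (1 : ℝ) ≤ W := by exact_mod_cast hW0
    have hq : W * TT T ≤ S2 := (Nat.mul_le_mul_left W (mem_filter.1 hT).2).trans hWQ
    have hq' : ((W * TT T : ℕ) : ℝ) ≤ S2 := by exact_mod_cast hq
    have hq0 : (0 : ℝ) < ((W * TT T : ℕ) : ℝ) := by
      have : 0 < W * TT T := Nat.mul_pos hW0 hTT
      exact_mod_cast this
    have hφ : (0 : ℝ) < Nat.totient (W * TT T) := by
      have : 0 < Nat.totient (W * TT T) := Nat.totient_pos.2 (Nat.mul_pos hW0 hTT)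
      exact_mod_cast this
    have h2 : (TT T : ℝ) * (S2 / ((W * TT T : ℕ) : ℝ) + 1) ≤ 2 * S2 := by
      have h3 : (S2 : ℝ) / ((W * TT T : ℕ) : ℝ) + 1 ≤ 2 * S2 / ((W * TT T : ℕ) : ℝ) := by
        rw [le_div_iff₀ hq0, add_mul, div_mul_cancel₀ _ hq0.ne', one_mul]
        linarith
      calc (TT T : ℝ) * (S2 / ((W * TT T : ℕ) : ℝ) + 1) ≤ TT T * (2 * S2 / ((W * TT T : ℕ) : ℝ)) :=
            mul_le_mul_of_nonneg_left h3 (by positivity)
        _ = 2 * S2 / W := by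
            push_cast
            field_simp
        _ ≤ 2 * S2 := div_le_self (by positivity) hW1
    have h4 : (TT T : ℝ) * ((4 * S2 + 1) / Nat.totient (W * TT T)) ≤ (4 * S2 + 1) * 2 ^ T.card := by
      have h5 := tot_ge hP hP2 W hW0 hW T
      rw [mul_div_assoc', div_le_iff₀ hφ]
      calc (TT T : ℝ) * (4 * S2 + 1) ≤ (2 ^ T.card * Nat.totient (W * TT T)) * (4 * S2 + 1) :=
            mul_le_mul_of_nonneg_right h5 (by positivity)
        _ = _ := by ring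
    calc _ = ((2 : ℝ) ^ (c * T.card) * ∏ t ∈ T, (3 * ((t : ℕ) : ℝ))) *
          ((S2 / ((W * TT T : ℕ) : ℝ) + 1) * (2 * M (W * TT T)) +
            (4 * S2 + 1) / Nat.totient (W * TT T)) := by ring
      _ = (3 * 2 ^ c) ^ T.card * (((TT T : ℝ) * (S2 / ((W * TT T : ℕ) : ℝ) + 1)) * (2 * M (W * TT T)) +
            (TT T : ℝ) * ((4 * S2 + 1) / Nat.totient (W * TT T))) := by rw [rew hP]; ring
      _ ≤ (3 * 2 ^ c) ^ T.card * ((2 * S2) * (2 * M (W * TT T)) + (4 * S2 + 1) * 2 ^ T.card) := by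
          apply mul_le_mul_of_nonneg_left _ (by positivity)
          apply add_le_add _ h4
          exact mul_le_mul_of_nonneg_right h2 (by linarith [hM0 (W * TT T)])
      _ = _ := by rw [mul_pow 2 (3 * 2 ^ c : ℝ)]; ring
  refine (sum_le_sum h1).trans ?_
  rw [sum_add_distrib, ← mul_sum, ← mul_sum]
  unfold BS
  apply add_le_add le_rfl
  exact mul_le_mul_of_nonneg_left (sum_pow_le hP _ (by positivity) hc Q) (by positivity)

theorem err2 (hP2 : ∀ p ∈ P, 3 ≤ p) (c : ℕ) (W : ℕ)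
    (hW0 : 1 ≤ W) (hW : ∀ p ∈ P, ¬ p ∣ W) (Q S2 Y δ : ℕ) (hδ : 1 ≤ δ) (hWQ : W * Q ≤ Y) (M : ℕ → ℝ)
    (hM0 : ∀ q, 0 ≤ M q) :
    ∑ T ∈ (univ : Finset (Finset P)).filter (fun T => TT T ≤ Q), (2 : ℝ) ^ (c * T.card) *
      ((2 * M (2 * δ * (W * TT T)) * (((Y : ℝ) + 1) / ((W * TT T : ℕ) : ℝ) + 1) * Real.log Y +
        2 * δ / Nat.totient (2 * δ * (W * TT T)) * (S2 * (2 * M (W * TT T)))) *
          ∏ t ∈ T, (3 * ((t : ℕ) : ℝ))) ≤
      4 * (Y + 1) * Real.log Y * BS P M Q (3 * 2 ^ c) (2 * δ * W) +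
        4 * δ * S2 * BS P M Q (2 * (3 * 2 ^ c)) W := by
  have h1 : ∀ T ∈ (univ : Finset (Finset P)).filter (fun T => TT T ≤ Q), (2 : ℝ) ^ (c * T.card) *
      ((2 * M (2 * δ * (W * TT T)) * (((Y : ℝ) + 1) / ((W * TT T : ℕ) : ℝ) + 1) * Real.log Y +
        2 * δ / Nat.totient (2 * δ * (W * TT T)) * (S2 * (2 * M (W * TT T)))) *
          ∏ t ∈ T, (3 * ((t : ℕ) : ℝ))) ≤
      4 * (Y + 1) * Real.log Y * ((3 * 2 ^ c) ^ T.card * M (2 * δ * W * TT T)) +
        4 * δ * S2 * ((2 * (3 * 2 ^ c)) ^ T.card * M (W * TT T)) := by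
    intro T hT
    have hTT := TT_pos' hP T
    have hTT1 : (1 : ℝ) ≤ TT T := by exact_mod_cast hTT
    have hW1 : (1 : ℝ) ≤ W := by exact_mod_cast hW0
    have hlog := Real.log_natCast_nonneg Y
    have hq : W * TT T ≤ Y := (Nat.mul_le_mul_left W (mem_filter.1 hT).2).trans hWQ
    have hq' : ((W * TT T : ℕ) : ℝ) ≤ Y := by exact_mod_cast hq
    have hq00 : 0 < W * TT T := Nat.mul_pos hW0 hTT
    have hq0 : (0 : ℝ) < ((W * TT T : ℕ) : ℝ) := by exact_mod_cast hq00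
    have hφ : (0 : ℝ) < Nat.totient (2 * δ * (W * TT T)) := by
      have : 0 < Nat.totient (2 * δ * (W * TT T)) :=
        Nat.totient_pos.2 (Nat.mul_pos (by omega) hq00)
      exact_mod_cast this
    have hφle : (Nat.totient (W * TT T) : ℝ) ≤ Nat.totient (2 * δ * (W * TT T)) := by
      have h5 : Nat.totient (W * TT T) ∣ Nat.totient (2 * δ * (W * TT T)) :=
        Nat.totient_dvd_of_dvd (Dvd.intro_left _ rfl)
      have h6 := Nat.le_of_dvd (Nat.totient_pos.2 (Nat.mul_pos (by omega) hq00)) h5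
      exact_mod_cast h6
    have h2 : (TT T : ℝ) * (((Y : ℝ) + 1) / ((W * TT T : ℕ) : ℝ) + 1) ≤ 2 * (Y + 1) := by
      have h3 : ((Y : ℝ) + 1) / ((W * TT T : ℕ) : ℝ) + 1 ≤ 2 * (Y + 1) / ((W * TT T : ℕ) : ℝ) := by
        rw [le_div_iff₀ hq0, add_mul, div_mul_cancel₀ _ hq0.ne', one_mul]
        linarith
      calc (TT T : ℝ) * (((Y : ℝ) + 1) / ((W * TT T : ℕ) : ℝ) + 1) ≤
            TT T * (2 * (Y + 1) / ((W * TT T : ℕ) : ℝ)) :=
            mul_le_mul_of_nonneg_left h3 (by positivity)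
        _ = 2 * (Y + 1) / W := by
            push_cast
            field_simp
        _ ≤ 2 * (Y + 1) := div_le_self (by positivity) hW1
    have h4 : (TT T : ℝ) * (2 * δ / Nat.totient (2 * δ * (W * TT T))) ≤ 2 * δ * 2 ^ T.card := by
      have h5 := tot_ge hP hP2 W hW0 hW T
      rw [mul_div_assoc', div_le_iff₀ hφ]
      calc (TT T : ℝ) * (2 * δ) ≤ (2 ^ T.card * Nat.totient (W * TT T)) * (2 * δ) :=
            mul_le_mul_of_nonneg_right h5 (by positivity)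
        _ ≤ (2 ^ T.card * Nat.totient (2 * δ * (W * TT T))) * (2 * δ) := by gcongr
        _ = _ := by ring
    have hassoc : 2 * δ * (W * TT T) = 2 * δ * W * TT T := by ring
    rw [← hassoc]
    have hM1 := hM0 (2 * δ * (W * TT T))
    have hM2 := hM0 (W * TT T)
    calc _ = ((2 : ℝ) ^ (c * T.card) * ∏ t ∈ T, (3 * ((t : ℕ) : ℝ))) *
          (2 * M (2 * δ * (W * TT T)) * (((Y : ℝ) + 1) / ((W * TT T : ℕ) : ℝ) + 1) * Real.log Y +
        2 * δ / Nat.totient (2 * δ * (W * TT T)) * (S2 * (2 * M (W * TT T)))) := by ring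
      _ = (3 * 2 ^ c) ^ T.card * (((TT T : ℝ) * (((Y : ℝ) + 1) / ((W * TT T : ℕ) : ℝ) + 1)) *
            (2 * M (2 * δ * (W * TT T)) * Real.log Y) +
            ((TT T : ℝ) * (2 * δ / Nat.totient (2 * δ * (W * TT T)))) * (S2 * (2 * M (W * TT T)))) := by
          rw [rew hP]; ring
      _ ≤ (3 * 2 ^ c) ^ T.card * ((2 * (Y + 1)) * (2 * M (2 * δ * (W * TT T)) * Real.log Y) +
            (2 * δ * 2 ^ T.card) * (S2 * (2 * M (W * TT T)))) := by
          apply mul_le_mul_of_nonneg_left _ (by positivity)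
          apply add_le_add
          · exact mul_le_mul_of_nonneg_right h2 (by positivity)
          · exact mul_le_mul_of_nonneg_right h4 (by positivity)
      _ = _ := by rw [mul_pow 2 (3 * 2 ^ c : ℝ)]; ring
  refine (sum_le_sum h1).trans ?_
  rw [sum_add_distrib, ← mul_sum, ← mul_sum]
  unfold BS
  exact le_rfl

end err

end Pool.Agent.N913.MT
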