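import Pool.Agent.N913.MT.B6

set_option autoImplicit false
set_option linter.unusedSectionVars false

/-! The ratio of the quadratic forms, conclusion. -/

namespace Pool.Agent.N913.MT

open Finset
open Pool.Agent.R498.MT (ms lz gp gp_bd gp_supp gp_zero MerS mass mass_lower mass_upper sum_H sum_I2
  sum_IE sum_I2_lower exp_bd)

section rt
variable {S J : Type} [Fintype S] [DecidableEq S] [Fintype J] [DecidableEq J]

theorem gp_one (K : ℕ) (u v : ℝ) (h : v < u) : gp K u v = 1 := by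
  cases K with
  | zero => simp [gp, h]
  | succ k => simp [gp, h]

theorem ratio (K : ℕ) (hJ : Fintype.card J = 2 ^ K) (len ν : S → ℝ) (hν : ∀ t, 0 ≤ ν t)
    (ε₁ w η u : ℝ) (hε : 0 < ε₁)
    (hl : ∀ t, ε₁ ≤ len t) (hlw : ∀ t, len t < w) (hη : η ≤ 1 / 20) (hM : MerS len ν ε₁ w η)
    (hsq : ∑ t, ν t ^ 2 ≤ 1 / 20) (hu : w = 50 * 2 ^ K * (K + 1) * u) (hbig : 4 * ε₁ ≤ u) :
    0 < Wb ν (none : Option J) (yy len K u w) ∧
    (∀ i : J, ((K : ℝ) + 1) * (w / ε₁) / (96000 * 2 ^ K) * Wb ν (none : Option J) (yy len K u w) ≤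
      Wb ν (some i) (yy len K u w)) ∧
    (∀ i : Option J, Wb ν i (fun _ => 1) ≤
      2 * (600 * 2 ^ K * (K + 1)) ^ (2 ^ K + 1) * Wb ν i (yy len K u w)) := by
  have hu0 : 0 < u := by linarith
  have h2K : (1 : ℝ) ≤ 2 ^ K := one_le_pow₀ (by norm_num)
  have hK0 : (0 : ℝ) ≤ K := Nat.cast_nonneg K
  have h2K1 : (1 : ℝ) ≤ 2 ^ K * (K + 1) := by nlinarith
  have huw : 50 * u ≤ w := by rw [hu]; nlinarith
  have h2u : 2 ^ K * u ≤ w / 50 := by
    rw [hu]
    have : 0 ≤ 2 ^ K * (K : ℝ) * u := by positivity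
    nlinarith
  have hw0 : 0 < w := by linarith
  have hν0 : ∀ t, 0 ≤ len t := fun t => hε.le.trans (hl t)
  have hmsn : ∀ a : Finset S, 0 ≤ ms ν a := fun a => prod_nonneg fun t _ => hν t
  set X := u / ε₁ with hX
  have hX0 : 0 < X := div_pos hu0 hε
  obtain ⟨A, hA⟩ : ∃ A, A = ∑ a, ms ν a * gp K u (lz len a) ^ 2 := ⟨_, rfl⟩
  obtain ⟨I, hI⟩ : ∃ I, I = ∑ a, ms ν a * gp K u (lz len a) := ⟨_, rfl⟩
  have hA1 : A ≤ 12 / 5 * X := by
    rw [hA]; exact sum_I2 len ν hν ε₁ w η hε hl hη hM K u (by linarith) (by linarith)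
  have hA2 : X / 10 ≤ A := by
    rw [hA]; exact sum_I2_lower len ν hν ε₁ w η hε hl hη hM hsq K u hbig (by linarith)
  have hI1 : ((K : ℝ) / 2 + 1) * (X / 10) ≤ I := by
    rw [hI]; exact sum_H len ν hν ε₁ w η hε hl hη hM hsq K u hbig (by linarith)
  have hT : ∑ a, lz len a * (ms ν a * gp K u (lz len a) ^ 2) ≤ 12 * (K + 1) * u * A := by
    refine (sum_IE len ν hν ε₁ w η hε hl hη hM K u (by linarith) (by linarith)).trans ?_
    have e : u ^ 2 / ε₁ = u * X := by rw [hX]; ring
    rw [e]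
    have := mul_le_mul_of_nonneg_left hA2 (show (0 : ℝ) ≤ 12 * (K + 1) * u by positivity)
    refine le_trans (le_of_eq ?_) this
    ring
  have hA0 : 0 < A := by linarith [div_pos hX0 (show (0 : ℝ) < 10 by norm_num)]
  have hsome : ∀ i : J, 1 / 2 * (I ^ 2 * A ^ (2 ^ K - 1)) ≤ Wb ν (some i) (yy len K u w) := by
    intro i
    have h := Wb_some_lower ν len hν hν0 i K u w (12 * (K + 1) * u) hu0 (by linarith) (by positivity)
      (by rw [← hA]; exact hT) (by
        rw [hJ]
        push_cast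
        have : w / 4 = 50 / 4 * (2 ^ K * (K + 1) * u) := by rw [hu]; ring
        rw [this]
        have h3 : 0 ≤ 2 ^ K * ((K : ℝ) + 1) * u := by positivity
        nlinarith)
    rw [← hA, ← hI, hJ] at h
    exact h
  have hk1 : 2 ^ K - 1 + 1 = 2 ^ K := Nat.sub_add_cancel Nat.one_le_two_pow
  -- upper bound for none
  have hnone : Wb ν (none : Option J) (yy len K u w) ≤ A ^ (2 ^ K) := by
    have h := Wb_mono (J := J) ν hν none (yy len K u w) (fun f => ∏ j, gp K u (lz len (f j)))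
      (fun f => (yy_bd len K u w f).1) (fun f => (yy_bd len K u w f).2.1)
    rw [Wb_prod_none ν (fun a => gp K u (lz len a)), ← hA, hJ] at h
    exact h
  -- lower bound for none
  have hnone2 : (X / 10) ^ (2 ^ K) ≤ Wb ν (none : Option J) (yy len K u w) := by
    have h := Wb_mono (J := J) ν hν none (fun f => ∏ j, (if lz len (f j) < u then (1 : ℝ) else 0))
      (yy len K u w) (fun f => prod_nonneg fun j _ => by split_ifs <;> norm_num) (fun f => by
        by_cases h1 : ∀ j, lz len (f j) < u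
        · have h2 : ∑ j, lz len (f j) < w := by
            have h3 : ∑ j : J, lz len (f j) ≤ ∑ _j : J, u := sum_le_sum fun j _ => (h1 j).le
            rw [sum_const, card_univ, hJ, nsmul_eq_mul] at h3
            push_cast at h3
            linarith
          unfold yy
          rw [if_pos h2, mul_one, prod_congr rfl (fun j _ => if_pos (h1 j)),
            prod_congr rfl (fun j _ => gp_one K u _ (h1 j))]
        · push Not at h1
          obtain ⟨j, hj⟩ := h1
          rw [prod_eq_zero (mem_univ j) (by rw [if_neg (not_lt.2 hj)])]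
          exact (yy_bd len K u w f).1)
    rw [Wb_prod_none ν (fun a => if lz len a < u then (1 : ℝ) else 0), hJ] at h
    refine le_trans ?_ h
    apply pow_le_pow_left₀ (by positivity)
    have h4 := mass_lower len ν hν ε₁ w η hε hl hη hM hsq u hbig (by linarith)
    unfold mass at h4
    rw [sum_filter] at h4
    refine h4.trans (le_of_eq ?_)
    refine sum_congr rfl fun a _ => ?_
    split_ifs <;> simp
  have htot := tot_le len ν hν ε₁ w η hε hl hlw hη hM (by linarith)
  have htot2 : ∑ a : Finset S, ms ν a ≤ 600 * 2 ^ K * (K + 1) * (X / 10) := by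
    refine htot.trans (le_of_eq ?_)
    rw [hu, hX]
    ring
  have htot0 : 0 ≤ ∑ a : Finset S, ms ν a := sum_nonneg fun a _ => hmsn a
  have hC1 : (1 : ℝ) ≤ 600 * 2 ^ K * (K + 1) := by nlinarith
  refine ⟨lt_of_lt_of_le (by positivity) hnone2, ?_, ?_⟩
  · intro i
    refine le_trans ?_ (hsome i)
    have h1 : ((K : ℝ) + 1) * (w / ε₁) / (96000 * 2 ^ K) = (K + 1) ^ 2 * X / 1920 := by
      rw [hX, hu]
      field_simp
      ring
    rw [h1]
    have h2 : (K + 1) ^ 2 * X / 1920 * Wb ν (none : Option J) (yy len K u w) ≤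
        (K + 1) ^ 2 * X / 1920 * A ^ (2 ^ K) := mul_le_mul_of_nonneg_left hnone (by positivity)
    refine h2.trans ?_
    have h3 : A ^ (2 ^ K) = A * A ^ (2 ^ K - 1) := by
      rw [← pow_succ', hk1]
    rw [h3, ← mul_assoc, ← mul_assoc]
    apply mul_le_mul_of_nonneg_right _ (by positivity)
    have h4 : (K + 1) ^ 2 * X / 1920 * A ≤ (K + 1) ^ 2 * X / 1920 * (12 / 5 * X) :=
      mul_le_mul_of_nonneg_left hA1 (by positivity)
    have h5 : (((K : ℝ) / 2 + 1) * (X / 10)) ^ 2 ≤ I ^ 2 := pow_le_pow_left₀ (by positivity) hI1 2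
    have h6 : (K + 1) ^ 2 * X / 1920 * (12 / 5 * X) ≤ 1 / 2 * (((K : ℝ) / 2 + 1) * (X / 10)) ^ 2 := by
      have h7 : 0 ≤ X ^ 2 := sq_nonneg X
      nlinarith [mul_nonneg hK0 h7]
    linarith
  · intro i
    rcases i with _ | i
    · rw [Wb_one_none, hJ]
      calc (∑ a : Finset S, ms ν a) ^ 2 ^ K ≤ (600 * 2 ^ K * (K + 1) * (X / 10)) ^ 2 ^ K :=
            pow_le_pow_left₀ htot0 htot2 _
        _ = (600 * 2 ^ K * (K + 1)) ^ 2 ^ K * (X / 10) ^ 2 ^ K := by rw [mul_pow]
        _ ≤ (2 * (600 * 2 ^ K * (K + 1)) ^ (2 ^ K + 1)) * Wb ν (none : Option J) (yy len K u w) := by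
            apply mul_le_mul _ hnone2 (by positivity) (by positivity)
            rw [pow_succ]
            have : (0 : ℝ) ≤ (600 * 2 ^ K * ((K : ℝ) + 1)) ^ 2 ^ K := by positivity
            nlinarith
    · rw [Wb_one_some, hJ]
      have h1 : 1 / 2 * (X / 10) ^ (2 ^ K + 1) ≤ Wb ν (some i) (yy len K u w) := by
        refine le_trans ?_ (hsome i)
        apply mul_le_mul_of_nonneg_left _ (by norm_num)
        have h2 : (X / 10) ^ (2 ^ K + 1) = (X / 10) ^ 2 * (X / 10) ^ (2 ^ K - 1) := by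
          rw [← pow_add]
          congr 1
          omega
        rw [h2]
        have h3 : X / 10 ≤ I := by
          refine le_trans ?_ hI1
          nlinarith [div_nonneg hX0.le (show (0 : ℝ) ≤ 10 by norm_num)]
        apply mul_le_mul (pow_le_pow_left₀ (by positivity) h3 2)
          (pow_le_pow_left₀ (by positivity) hA2 _) (by positivity) (by positivity)
      calc (∑ a : Finset S, ms ν a) ^ (2 ^ K + 1) ≤ (600 * 2 ^ K * (K + 1) * (X / 10)) ^ (2 ^ K + 1) :=
            pow_le_pow_left₀ htot0 htot2 _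
        _ = 2 * (600 * 2 ^ K * (K + 1)) ^ (2 ^ K + 1) * (1 / 2 * (X / 10) ^ (2 ^ K + 1)) := by
            rw [mul_pow]; ring
        _ ≤ _ := mul_le_mul_of_nonneg_left h1 (by positivity)

end rt

end Pool.Agent.N913.MT
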