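import Pool.Agent.N913.MT.F1
import Pool.Agent.H305R2.MertensM

set_option autoImplicit false
set_option linter.unusedSectionVars false

/-! Arithmetic lemmas. -/

namespace Pool.Agent.N913.MT

open Finset

/-- few large primes divide a number -/
theorem few (z0 D : ℕ) (hz : 2 ≤ z0) (hD : 1 ≤ D) (B : Finset ℕ) (hB : ∀ p ∈ B, p.Prime ∧ z0 ≤ p ∧ p ∣ D) :
    (B.card : ℝ) * Real.log z0 ≤ Real.log D := by
  have h1 : ∏ p ∈ B, p ∣ D := by
    apply Finset.prod_primes_dvd
    · intro p hp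
      exact (hB p hp).1.prime
    · intro p hp
      exact (hB p hp).2.2
  have h2 := Nat.le_of_dvd hD h1
  have h3 : z0 ^ B.card ≤ ∏ p ∈ B, p := by
    rw [← prod_const]
    exact Finset.prod_le_prod' fun p hp => (hB p hp).2.1
  have h4 : ((z0 ^ B.card : ℕ) : ℝ) ≤ D := by exact_mod_cast h3.trans h2
  have h5 : (0 : ℝ) < ((z0 ^ B.card : ℕ) : ℝ) := by positivity
  have h6 := Real.log_le_log h5 h4
  push_cast at h6
  rw [Real.log_pow] at h6
  exact h6

theorem tot_prod (n : ℕ) : (Nat.totient n : ℝ) = n * ∏ p ∈ n.primeFactors, (1 - 1 / (p : ℝ)) := by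
  have h := Nat.totient_eq_mul_prod_factors n
  have h2 : ((Nat.totient n : ℚ) : ℝ) = ((n * ∏ p ∈ n.primeFactors, (1 - (p : ℚ)⁻¹) : ℚ) : ℝ) := by
    rw [h]
  push_cast at h2
  rw [h2]
  simp only [one_div]

/-- the second density -/
theorem kappa2 (W δ z0 : ℕ) (hW0 : 1 ≤ W) (h2 : 2 ∣ W) (hδ : 1 ≤ δ) (hz : 2 ≤ z0)
    (hWz : ∀ p : ℕ, p.Prime → ¬ p ∣ W → z0 ≤ p) (η : ℝ) (hη0 : 0 ≤ η) (hη : η ≤ 1 / 2)
    (hδη : Real.log δ ≤ η * (z0 * Real.log z0)) :
    2 * δ / (Nat.totient (2 * δ * W) : ℝ) ≤ (1 + 2 * η) / Nat.totient W := by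
  classical
  have hφW : (0 : ℝ) < Nat.totient W := by exact_mod_cast Nat.totient_pos.2 hW0
  have h2δW : 1 ≤ 2 * δ * W := Nat.mul_pos (by omega) hW0
  have hφ2 : (0 : ℝ) < Nat.totient (2 * δ * W) := by exact_mod_cast Nat.totient_pos.2 h2δW
  have hz0 : (2 : ℝ) ≤ z0 := by exact_mod_cast hz
  obtain ⟨B, hB⟩ : ∃ B, B = δ.primeFactors.filter (fun p => z0 ≤ p) := ⟨_, rfl⟩
  have hBp : ∀ p ∈ B, p.Prime ∧ z0 ≤ p ∧ p ∣ δ := by
    intro p hp
    rw [hB, mem_filter] at hp
    exact ⟨Nat.prime_of_mem_primeFactors hp.1, hp.2, Nat.dvd_of_mem_primeFactors hp.1⟩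
  have hlz : 0 < Real.log z0 := Real.log_pos (by linarith)
  have hBc : (B.card : ℝ) ≤ η * z0 := by
    have h3 := few z0 δ hz hδ B hBp
    have h4 : (B.card : ℝ) * Real.log z0 ≤ (η * z0) * Real.log z0 := by linarith
    exact le_of_mul_le_mul_right h4 hlz
  have hBprod : 1 - η ≤ ∏ p ∈ B, (1 - 1 / (p : ℝ)) := by
    have h5 : (1 - 1 / (z0 : ℝ)) ^ B.card ≤ ∏ p ∈ B, (1 - 1 / (p : ℝ)) := by
      rw [← prod_const]
      apply prod_le_prod
      · intro p _
        have : 1 / (z0 : ℝ) ≤ 1 := by rw [div_le_one (by linarith)]; linarith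
        linarith
      · intro p hp
        have h6 : (z0 : ℝ) ≤ p := by exact_mod_cast (hBp p hp).2.1
        have := one_div_le_one_div_of_le (by linarith : (0 : ℝ) < z0) h6
        linarith
    have h7 := one_add_mul_le_pow (a := -(1 / (z0 : ℝ))) (by
      have : 1 / (z0 : ℝ) ≤ 1 := by rw [div_le_one (by linarith)]; linarith
      linarith) B.card
    have h8 : (B.card : ℝ) * (1 / (z0 : ℝ)) ≤ η := by
      rw [mul_one_div, div_le_iff₀ (by linarith)]
      exact hBc
    have h9 : 1 + (B.card : ℝ) * -(1 / (z0 : ℝ)) = 1 - (B.card : ℝ) * (1 / (z0 : ℝ)) := by ring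
    rw [h9, ← sub_eq_add_neg] at h7
    linarith
  have hfac : ∀ p : ℕ, p.Prime → 0 ≤ 1 - 1 / (p : ℝ) ∧ 1 - 1 / (p : ℝ) ≤ 1 := by
    intro p hp
    have h6 : (1 : ℝ) ≤ p := by exact_mod_cast hp.one_lt.le
    have : 1 / (p : ℝ) ≤ 1 := by rw [div_le_one (by linarith)]; linarith
    have h7 : 0 ≤ 1 / (p : ℝ) := by positivity
    constructor <;> linarith
  have hsub : (2 * δ * W).primeFactors ⊆ W.primeFactors ∪ B := by
    intro p hp
    have hpp := Nat.prime_of_mem_primeFactors hp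
    have hd := Nat.dvd_of_mem_primeFactors hp
    rw [mem_union]
    by_cases hpW : p ∣ W
    · left
      exact Nat.mem_primeFactors.2 ⟨hpp, hpW, by omega⟩
    · right
      rw [hB, mem_filter]
      refine ⟨?_, hWz p hpp hpW⟩
      rcases (Nat.Prime.dvd_mul hpp).1 hd with h3 | h3
      · rcases (Nat.Prime.dvd_mul hpp).1 h3 with h4 | h4
        · exact absurd (h4.trans h2) hpW
        · exact Nat.mem_primeFactors.2 ⟨hpp, h4, by omega⟩
      · exact absurd h3 hpW
  have hprod : (∏ p ∈ W.primeFactors, (1 - 1 / (p : ℝ))) * ∏ p ∈ B, (1 - 1 / (p : ℝ)) ≤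
      ∏ p ∈ (2 * δ * W).primeFactors, (1 - 1 / (p : ℝ)) := by
    have hU : ∀ p ∈ W.primeFactors ∪ B, p.Prime := by
      intro p hp
      rcases mem_union.1 hp with h | h
      · exact Nat.prime_of_mem_primeFactors h
      · exact (hBp p h).1
    calc _ ≤ ∏ p ∈ W.primeFactors ∪ B, (1 - 1 / (p : ℝ)) := by
          have h3 := prod_union_inter (s₁ := W.primeFactors) (s₂ := B) (f := fun p : ℕ => (1 - 1 / (p : ℝ)))
          rw [← h3]
          have h4 : ∏ p ∈ W.primeFactors ∩ B, (1 - 1 / (p : ℝ)) ≤ 1 := by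
            apply prod_le_one
            · intro p hp
              exact (hfac p (hU p (mem_union_left _ (mem_inter.1 hp).1))).1
            · intro p hp
              exact (hfac p (hU p (mem_union_left _ (mem_inter.1 hp).1))).2
          have h5 : 0 ≤ ∏ p ∈ W.primeFactors ∪ B, (1 - 1 / (p : ℝ)) :=
            prod_nonneg fun p hp => (hfac p (hU p hp)).1
          calc _ ≤ (∏ p ∈ W.primeFactors ∪ B, (1 - 1 / (p : ℝ))) * 1 := mul_le_mul_of_nonneg_left h4 h5
            _ = _ := mul_one _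
      _ ≤ _ := by
          rw [← prod_sdiff hsub]
          have h4 : ∏ p ∈ (W.primeFactors ∪ B) \ (2 * δ * W).primeFactors, (1 - 1 / (p : ℝ)) ≤ 1 := by
            apply prod_le_one
            · intro p hp
              exact (hfac p (hU p (mem_sdiff.1 hp).1)).1
            · intro p hp
              exact (hfac p (hU p (mem_sdiff.1 hp).1)).2
          have h5 : 0 ≤ ∏ p ∈ (2 * δ * W).primeFactors, (1 - 1 / (p : ℝ)) :=
            prod_nonneg fun p hp => (hfac p (Nat.prime_of_mem_primeFactors hp)).1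
          calc _ ≤ 1 * ∏ p ∈ (2 * δ * W).primeFactors, (1 - 1 / (p : ℝ)) :=
                mul_le_mul_of_nonneg_right h4 h5
            _ = _ := one_mul _
  have hW1 := tot_prod W
  have hW2 := tot_prod (2 * δ * W)
  have hPW0 : 0 ≤ ∏ p ∈ W.primeFactors, (1 - 1 / (p : ℝ)) :=
    prod_nonneg fun p hp => (hfac p (Nat.prime_of_mem_primeFactors hp)).1
  have hmain : 2 * δ * Nat.totient W * (1 - η) ≤ (Nat.totient (2 * δ * W) : ℝ) := by
    rw [hW2, hW1]
    push_cast
    have h3 : (∏ p ∈ W.primeFactors, (1 - 1 / (p : ℝ))) * (1 - η) ≤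
        ∏ p ∈ (2 * δ * W).primeFactors, (1 - 1 / (p : ℝ)) :=
      (mul_le_mul_of_nonneg_left hBprod hPW0).trans hprod
    calc 2 * (δ : ℝ) * (W * ∏ p ∈ W.primeFactors, (1 - 1 / (p : ℝ))) * (1 - η) =
          2 * δ * W * ((∏ p ∈ W.primeFactors, (1 - 1 / (p : ℝ))) * (1 - η)) := by ring
      _ ≤ _ := mul_le_mul_of_nonneg_left h3 (by positivity)
  rw [div_le_div_iff₀ hφ2 hφW]
  have h3 : 1 ≤ (1 + 2 * η) * (1 - η) := by nlinarith
  have hδ0 : (0 : ℝ) ≤ 2 * δ * Nat.totient W := by positivity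
  calc 2 * (δ : ℝ) * Nat.totient W ≤ (2 * δ * Nat.totient W) * ((1 + 2 * η) * (1 - η)) := by
        nlinarith
    _ = (1 + 2 * η) * (2 * δ * Nat.totient W * (1 - η)) := by ring
    _ ≤ _ := mul_le_mul_of_nonneg_left hmain (by linarith)

/-- squares beyond `z0` -/
theorem sq_tail (z0 R : ℕ) (hz : 1 ≤ z0) (P : Finset ℕ) (hP : P ⊆ Ico z0 R) :
    ∑ t : P, 1 / ((t : ℕ) : ℝ) ^ 2 ≤ 2 / (z0 : ℝ) := by
  rw [Finset.sum_coe_sort P (fun t => 1 / (t : ℝ) ^ 2)]
  have h1 := sum_Ioo_inv_sq_le (α := ℝ) (z0 - 1) R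
  have h2 : Ioo (z0 - 1) R = Ico z0 R := by ext; simp; omega
  rw [h2] at h1
  have h3 : ((z0 - 1 : ℕ) : ℝ) + 1 = z0 := by
    rw [Nat.cast_sub hz]; push_cast; ring
  rw [h3] at h1
  refine le_trans ?_ h1
  simp only [one_div]
  apply sum_le_sum_of_subset_of_nonneg hP
  intro t _ _
  positivity

/-- the sum of the discrepancies -/
theorem sum_DD {B J : Type} [Fintype B] [Fintype J] [DecidableEq B] [DecidableEq J] (z0 R Hm : ℕ)
    (hz : 2 ≤ z0) (hH : 1 ≤ Hm) (P : Finset ℕ) (hP : P ⊆ Ico z0 R) (hPp : ∀ p ∈ P, p.Prime)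
    (pos : B × J → ℕ) (hinj : ∀ q q', q ≠ q' → pos q ≠ pos q') (hpm : ∀ q, pos q ≤ Hm)
    (good : P → Prop) [DecidablePred good]
    (hgood : ∀ t : P, good t ↔ ∀ q q', q ≠ q' → ¬ ((t : ℕ) : ℤ) ∣ (pos q : ℤ) - pos q') :
    ∑ t : P, DD B J (good t) (t : ℕ) ≤ 2 ^ (Fintype.card (B × Bool × J)) *
      (4 ^ (Fintype.card (B × J)) * (2 / (z0 : ℝ)) +
        14 * ((Fintype.card (B × J)) ^ 2 * (Real.log Hm / Real.log z0)) / (z0 : ℝ)) := by
  classical
  have hz0 : (2 : ℝ) ≤ z0 := by exact_mod_cast hz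
  have hlz : 0 < Real.log z0 := Real.log_pos (by linarith)
  unfold DD
  rw [← mul_sum]
  apply mul_le_mul_of_nonneg_left _ (by positivity)
  have hge : ∀ t : P, (z0 : ℝ) ≤ (t : ℕ) := by
    intro t
    exact_mod_cast (mem_Ico.1 (hP t.2)).1
  have h1 : ∀ t : P, ((if good t then (1 / ((t : ℕ) : ℝ)) ^ 3 * 4 ^ (Fintype.card (B × J)) else
      (14 : ℝ) / ((t : ℕ) : ℝ)) : ℝ) ≤ 4 ^ (Fintype.card (B × J)) * (1 / ((t : ℕ) : ℝ) ^ 2) +
        (if ¬ good t then 14 / (z0 : ℝ) else 0) := by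
    intro t
    have h2 := hge t
    by_cases hg : good t
    · rw [if_pos hg, if_neg (not_not.2 hg), add_zero, mul_comm]
      apply mul_le_mul_of_nonneg_left _ (by positivity)
      rw [one_div, one_div, inv_pow]
      have h3 : (0 : ℝ) < ((t : ℕ) : ℝ) := by linarith
      apply inv_anti₀ (by positivity)
      exact pow_le_pow_right₀ (by linarith) (by norm_num)
    · rw [if_neg hg, if_pos hg]
      have h3 : (14 : ℝ) / (t : ℕ) ≤ 14 / z0 := by
        apply div_le_div_of_nonneg_left (by norm_num) (by linarith) h2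
      have h4 : (0 : ℝ) ≤ 4 ^ (Fintype.card (B × J)) * (1 / ((t : ℕ) : ℝ) ^ 2) := by positivity
      linarith
  refine (sum_le_sum fun t _ => h1 t).trans ?_
  rw [sum_add_distrib, ← mul_sum]
  apply add_le_add
  · exact mul_le_mul_of_nonneg_left (sq_tail z0 R (by omega) P hP) (by positivity)
  · rw [← sum_filter, sum_const, nsmul_eq_mul]
    have hcard : ((univ.filter (fun t : P => ¬ good t)).card : ℝ) ≤
        (Fintype.card (B × J)) ^ 2 * (Real.log Hm / Real.log z0) := by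
      have hsub : univ.filter (fun t : P => ¬ good t) ⊆
          (univ : Finset ((B × J) × (B × J))).biUnion (fun x => univ.filter (fun t : P =>
            x.1 ≠ x.2 ∧ ((t : ℕ) : ℤ) ∣ (pos x.1 : ℤ) - pos x.2)) := by
        intro t ht
        have h2 := (mem_filter.1 ht).2
        rw [hgood] at h2
        push Not at h2
        obtain ⟨q, q', h3, h4⟩ := h2
        rw [mem_biUnion]
        exact ⟨(q, q'), mem_univ _, mem_filter.2 ⟨mem_univ _, h3, h4⟩⟩
      have h2 := (card_le_card hsub).trans card_biUnion_le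
      have h3 : ∀ x ∈ (univ : Finset ((B × J) × (B × J))), ((univ.filter (fun t : P =>
            x.1 ≠ x.2 ∧ ((t : ℕ) : ℤ) ∣ (pos x.1 : ℤ) - pos x.2)).card : ℝ) ≤
            Real.log Hm / Real.log z0 := by
        intro x _
        by_cases hx : x.1 = x.2
        · have : univ.filter (fun t : P =>
            x.1 ≠ x.2 ∧ ((t : ℕ) : ℤ) ∣ (pos x.1 : ℤ) - pos x.2) = ∅ := by
            ext t; simp [hx]
          rw [this, card_empty]
          have := Real.log_natCast_nonneg Hm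
          push_cast
          positivity
        · have h5 := hinj x.1 x.2 hx
          rw [le_div_iff₀ hlz]
          have h6 : ((univ.filter (fun t : P =>
            x.1 ≠ x.2 ∧ ((t : ℕ) : ℤ) ∣ (pos x.1 : ℤ) - pos x.2)).card : ℝ) =
            (((univ.filter (fun t : P => x.1 ≠ x.2 ∧ ((t : ℕ) : ℤ) ∣ (pos x.1 : ℤ) - pos x.2)).image
              (fun t : P => (t : ℕ))).card : ℝ) := by
            rw [card_image_of_injective _ Subtype.val_injective]
          rw [h6]
          have hd0 : 1 ≤ ((pos x.1 : ℤ) - pos x.2).natAbs := by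
            have : (pos x.1 : ℤ) - pos x.2 ≠ 0 := by
              intro h7
              apply h5
              omega
            exact Nat.one_le_iff_ne_zero.2 (Int.natAbs_ne_zero.2 this)
          refine (few z0 _ hz hd0 _ ?_).trans ?_
          · intro p hp
            rw [mem_image] at hp
            obtain ⟨t, ht, rfl⟩ := hp
            have h7 := (mem_filter.1 ht).2.2
            exact ⟨hPp t t.2, (mem_Ico.1 (hP t.2)).1, Int.natCast_dvd.1 h7⟩
          · apply Real.log_le_log (by exact_mod_cast hd0)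
            have h8 := hpm x.1
            have h9 := hpm x.2
            have : ((pos x.1 : ℤ) - pos x.2).natAbs ≤ Hm := by omega
            exact_mod_cast this
      have h4 : ((univ.filter (fun t : P => ¬ good t)).card : ℝ) ≤
          ∑ x ∈ (univ : Finset ((B × J) × (B × J))), ((univ.filter (fun t : P =>
            x.1 ≠ x.2 ∧ ((t : ℕ) : ℤ) ∣ (pos x.1 : ℤ) - pos x.2)).card : ℝ) := by
        exact_mod_cast h2
      refine h4.trans ((sum_le_card_nsmul _ _ _ h3).trans (le_of_eq ?_))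
      rw [card_univ, Fintype.card_prod, nsmul_eq_mul]
      push_cast
      ring
    have h5 := mul_le_mul_of_nonneg_right hcard (show (0 : ℝ) ≤ 14 / z0 by positivity)
    refine h5.trans (le_of_eq ?_)
    ring

end Pool.Agent.N913.MT
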