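import Mathlib

set_option autoImplicit false

/-! The abstract expansion. -/

namespace Pool.Agent.N913.MT

open Finset

theorem abs_prod_le_aux {ι : Type} (s : Finset ι) (a b : ι → ℝ) :
    |∏ i ∈ s, a i| ≤ ∏ i ∈ s, (|b i| + |a i - b i|) := by
  rw [abs_prod]
  apply prod_le_prod
  · intro i _; exact abs_nonneg _
  · intro i _
    have h := abs_add_le (b i) (a i - b i)
    have e : b i + (a i - b i) = a i := by ring
    rw [e] at h
    exact h

theorem prod_diff_le {ι : Type} [DecidableEq ι] (s : Finset ι) (a b : ι → ℝ) :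
    |∏ i ∈ s, a i - ∏ i ∈ s, b i| ≤ ∏ i ∈ s, (|b i| + |a i - b i|) - ∏ i ∈ s, |b i| := by
  induction s using Finset.induction_on with
  | empty => simp
  | insert i s hi ih =>
    rw [prod_insert hi, prod_insert hi, prod_insert hi, prod_insert hi]
    have h1 := abs_prod_le_aux s a b
    have e : a i * ∏ x ∈ s, a x - b i * ∏ x ∈ s, b x =
        (a i - b i) * ∏ x ∈ s, a x + b i * (∏ x ∈ s, a x - ∏ x ∈ s, b x) := by ring
    rw [e]
    refine (abs_add_le _ _).trans ?_
    rw [abs_mul, abs_mul]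
    have h2 := mul_le_mul_of_nonneg_left h1 (abs_nonneg (a i - b i))
    have h3 := mul_le_mul_of_nonneg_left ih (abs_nonneg (b i))
    refine (add_le_add h2 h3).trans (le_of_eq ?_)
    ring

/-- transposition -/
def tr {S I : Type} [Fintype S] [Fintype I] [DecidableEq S] [DecidableEq I] :
    (I → Finset S) ≃ (S → Finset I) where
  toFun F t := univ.filter (fun τ => t ∈ F τ)
  invFun G τ := univ.filter (fun t => τ ∈ G t)
  left_inv F := by
    funext τ
    ext t
    simp
  right_inv G := by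
    funext t
    ext τ
    simp

theorem swap {S I : Type} [Fintype S] [Fintype I] [DecidableEq S] [DecidableEq I]
    (G : S → Finset I → ℝ) :
    ∑ F : I → Finset S, ∏ t, G t (univ.filter (fun τ => t ∈ F τ)) = ∏ t, ∑ A : Finset I, G t A := by
  rw [Finset.prod_univ_sum, Fintype.piFinset_univ]
  exact Equiv.sum_comp (tr (S := S) (I := I)) (fun H => ∏ t, G t (H t))

/-- sums over classes -/
theorem classSum {α ι S : Type} [DecidableEq S] [DecidableEq ι] [Inhabited ι] (loc : α → S → ι)
    (Cl : S → Finset ι) (β g : S → ι → ℝ) (E : ℝ) (T : Finset S) :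
    ∀ (N : Finset α) (_ : ∀ n ∈ N, ∀ t, loc n t ∈ Cl t) (μ : α → ℝ) (κ : ℝ),
    (∀ c : S → ι, (∀ t ∈ T, c t ∈ Cl t) →
      |∑ n ∈ N.filter (fun n => ∀ t ∈ T, loc n t = c t), μ n - κ * ∏ t ∈ T, β t (c t)| ≤ E) →
    |∑ n ∈ N, μ n * ∏ t ∈ T, g t (loc n t) - κ * ∏ t ∈ T, ∑ x ∈ Cl t, β t x * g t x| ≤
      E * ∏ t ∈ T, ∑ x ∈ Cl t, |g t x| := by
  classical
  induction T using Finset.induction_on with
  | empty =>
    intro N hN μ κ h
    have := h default (fun t ht => absurd ht (notMem_empty t))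
    simpa using this
  | insert p T hp ih =>
    intro N hN μ κ h
    have key : ∀ x ∈ Cl p, |∑ n ∈ N.filter (fun n => loc n p = x), μ n * ∏ t ∈ T, g t (loc n t) -
        κ * β p x * ∏ t ∈ T, ∑ x ∈ Cl t, β t x * g t x| ≤ E * ∏ t ∈ T, ∑ x ∈ Cl t, |g t x| := by
      intro x hx
      apply ih (N.filter (fun n => loc n p = x)) (fun n hn => hN n (mem_filter.1 hn).1) μ (κ * β p x)
      intro c hc
      have h1 := h (Function.update c p x) (by
        intro t ht
        rw [mem_insert] at ht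
        rcases ht with rfl | ht
        · rw [Function.update_self]; exact hx
        · have : t ≠ p := fun h => hp (h ▸ ht)
          rw [Function.update_of_ne this]; exact hc t ht)
      have e1 : N.filter (fun n => ∀ t ∈ insert p T, loc n t = Function.update c p x t) =
          (N.filter (fun n => loc n p = x)).filter (fun n => ∀ t ∈ T, loc n t = c t) := by
        ext n
        simp only [mem_filter, mem_insert]
        constructor
        · rintro ⟨a, b⟩
          have b1 := b p (Or.inl rfl)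
          rw [Function.update_self] at b1
          refine ⟨⟨a, b1⟩, fun t ht => ?_⟩
          have b2 := b t (Or.inr ht)
          have : t ≠ p := fun h => hp (h ▸ ht)
          rwa [Function.update_of_ne this] at b2
        · rintro ⟨⟨a, b⟩, d⟩
          refine ⟨a, fun t ht => ?_⟩
          rcases ht with rfl | ht
          · rw [Function.update_self]; exact b
          · have : t ≠ p := fun h => hp (h ▸ ht)
            rw [Function.update_of_ne this]; exact d t ht
      have e2 : ∏ t ∈ insert p T, β t (Function.update c p x t) = β p x * ∏ t ∈ T, β t (c t) := by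
        rw [prod_insert hp, Function.update_self]
        congr 1
        refine prod_congr rfl fun t ht => ?_
        have : t ≠ p := fun h => hp (h ▸ ht)
        rw [Function.update_of_ne this]
      rw [e1, e2] at h1
      rw [mul_assoc]
      exact h1
    have e3 : ∑ n ∈ N, μ n * ∏ t ∈ insert p T, g t (loc n t) =
        ∑ x ∈ Cl p, g p x * ∑ n ∈ N.filter (fun n => loc n p = x), μ n * ∏ t ∈ T, g t (loc n t) := by
      rw [← sum_fiberwise_of_maps_to (fun n hn => hN n hn p)]
      refine sum_congr rfl fun x _ => ?_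
      rw [mul_sum]
      refine sum_congr rfl fun n hn => ?_
      rw [prod_insert hp, (mem_filter.1 hn).2]
      ring
    have e4 : κ * ∏ t ∈ insert p T, ∑ x ∈ Cl t, β t x * g t x =
        ∑ x ∈ Cl p, g p x * (κ * β p x * ∏ t ∈ T, ∑ x ∈ Cl t, β t x * g t x) := by
      rw [prod_insert hp, sum_mul, mul_sum]
      refine sum_congr rfl fun x _ => ?_
      ring
    rw [e3, e4, ← sum_sub_distrib, prod_insert hp]
    refine (abs_sum_le_sum_abs _ _).trans ?_
    have e5 : E * ((∑ x ∈ Cl p, |g p x|) * ∏ t ∈ T, ∑ x ∈ Cl t, |g t x|) =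
        ∑ x ∈ Cl p, |g p x| * (E * ∏ t ∈ T, ∑ x ∈ Cl t, |g t x|) := by
      rw [sum_mul, mul_sum]
      refine sum_congr rfl fun x _ => ?_
      ring
    rw [e5]
    apply sum_le_sum
    intro x hx
    rw [← mul_sub, abs_mul]
    exact mul_le_mul_of_nonneg_left (key x hx) (abs_nonneg _)

/-- the expansion of products of weights -/
theorem step1 {α ι S I : Type} [Fintype S] [Fintype I] [DecidableEq S] [DecidableEq I]
    [DecidableEq ι] [Inhabited ι] (loc : α → S → ι) (Cl : S → Finset ι) (N : Finset α)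
    (hN : ∀ n ∈ N, ∀ t, loc n t ∈ Cl t) (μ : α → ℝ) (β : S → ι → ℝ)
    (hβ : ∀ t, ∑ x ∈ Cl t, β t x = 1) (X : I → S → ι → ℝ) (Y : (I → Finset S) → ℝ)
    (hY1 : ∀ F, |Y F| ≤ 1) (κ : ℝ) (E : Finset S → ℝ) (hE : ∀ T, 0 ≤ E T) (Adm : Finset S → Prop)
    [DecidablePred Adm] (hY : ∀ F, Y F ≠ 0 → Adm (univ.biUnion F))
    (hc : ∀ T, Adm T → ∀ c : S → ι, (∀ t ∈ T, c t ∈ Cl t) →
      |∑ n ∈ N.filter (fun n => ∀ t ∈ T, loc n t = c t), μ n - κ * ∏ t ∈ T, β t (c t)| ≤ E T)
    (Cx : S → ℝ) (hX : ∀ t, ∀ A : Finset I, A.Nonempty →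
      ∑ x ∈ Cl t, |∏ τ ∈ A, X τ t x| ≤ Cx t) (hCx : ∀ t, 0 ≤ Cx t) :
    |∑ n ∈ N, μ n * ∑ F : I → Finset S, Y F * ∏ τ, ∏ t ∈ F τ, X τ t (loc n t) -
      κ * ∑ F : I → Finset S, Y F * ∏ t, ∑ x ∈ Cl t, β t x *
        ∏ τ ∈ univ.filter (fun τ => t ∈ F τ), X τ t x| ≤
      ∑ T ∈ univ.filter (fun T => Adm T), (2 : ℝ) ^ (Fintype.card I * T.card) *
        (E T * ∏ t ∈ T, Cx t) := by
  classical
  have hre : ∀ (F : I → Finset S) (n : α), ∏ τ, ∏ t ∈ F τ, X τ t (loc n t) =
      ∏ t ∈ univ.biUnion F, ∏ τ ∈ univ.filter (fun τ => t ∈ F τ), X τ t (loc n t) := by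
    intro F n
    have h1 : ∀ τ : I, ∏ t ∈ F τ, X τ t (loc n t) =
        ∏ t ∈ univ.biUnion F, (if t ∈ F τ then X τ t (loc n t) else 1) := by
      intro τ
      rw [← prod_filter]
      apply prod_congr _ (fun _ _ => rfl)
      ext t
      simp only [mem_filter, mem_biUnion, mem_univ, true_and]
      exact ⟨fun h => ⟨⟨τ, h⟩, h⟩, fun h => h.2⟩
    rw [prod_congr rfl (fun τ _ => h1 τ), prod_comm]
    refine prod_congr rfl fun t _ => ?_
    rw [prod_filter]
  have hfull : ∀ F : I → Finset S, ∏ t, ∑ x ∈ Cl t, β t x *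
        ∏ τ ∈ univ.filter (fun τ => t ∈ F τ), X τ t x =
      ∏ t ∈ univ.biUnion F, ∑ x ∈ Cl t, β t x *
        ∏ τ ∈ univ.filter (fun τ => t ∈ F τ), X τ t x := by
    intro F
    symm
    apply prod_subset (subset_univ _)
    intro t _ ht
    have : univ.filter (fun τ => t ∈ F τ) = ∅ := by
      ext τ
      simp only [mem_filter, mem_univ, true_and, notMem_empty, iff_false]
      intro h
      exact ht (mem_biUnion.2 ⟨τ, mem_univ _, h⟩)
    rw [this]
    simp [hβ t]
  have h1 : ∑ n ∈ N, μ n * ∑ F : I → Finset S, Y F * ∏ τ, ∏ t ∈ F τ, X τ t (loc n t) -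
      κ * ∑ F : I → Finset S, Y F * ∏ t, ∑ x ∈ Cl t, β t x *
        ∏ τ ∈ univ.filter (fun τ => t ∈ F τ), X τ t x =
      ∑ F : I → Finset S, Y F * (∑ n ∈ N, μ n * ∏ t ∈ univ.biUnion F,
        ∏ τ ∈ univ.filter (fun τ => t ∈ F τ), X τ t (loc n t) -
        κ * ∏ t ∈ univ.biUnion F, ∑ x ∈ Cl t, β t x *
          ∏ τ ∈ univ.filter (fun τ => t ∈ F τ), X τ t x) := by
    simp_rw [mul_sum]
    rw [sum_comm, ← sum_sub_distrib]
    refine sum_congr rfl fun F _ => ?_
    rw [mul_sub, mul_sum]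
    congr 1
    · refine sum_congr rfl fun n _ => ?_
      rw [hre F n]; ring
    · rw [hfull F]; ring
  rw [h1]
  refine (abs_sum_le_sum_abs _ _).trans ?_
  have h2 : ∀ F : I → Finset S, |Y F * (∑ n ∈ N, μ n * ∏ t ∈ univ.biUnion F,
        ∏ τ ∈ univ.filter (fun τ => t ∈ F τ), X τ t (loc n t) -
        κ * ∏ t ∈ univ.biUnion F, ∑ x ∈ Cl t, β t x *
          ∏ τ ∈ univ.filter (fun τ => t ∈ F τ), X τ t x)| ≤
      if Adm (univ.biUnion F) then E (univ.biUnion F) * ∏ t ∈ univ.biUnion F, Cx t else 0 := by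
    intro F
    by_cases h0 : Y F = 0
    · rw [h0, zero_mul, abs_zero]
      split_ifs
      · exact mul_nonneg (hE _) (prod_nonneg fun t _ => hCx t)
      · exact le_rfl
    · have ha := hY F h0
      rw [if_pos ha, abs_mul]
      have h3 := classSum loc Cl β (fun t x => ∏ τ ∈ univ.filter (fun τ => t ∈ F τ), X τ t x)
        (E (univ.biUnion F)) (univ.biUnion F) N hN μ κ (by
          intro c hcc
          have h9 := hc _ ha c hcc
          convert h9)
      have h4 : ∏ t ∈ univ.biUnion F, ∑ x ∈ Cl t,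
          |∏ τ ∈ univ.filter (fun τ => t ∈ F τ), X τ t x| ≤ ∏ t ∈ univ.biUnion F, Cx t := by
        apply prod_le_prod
        · intro t _
          exact sum_nonneg fun x _ => abs_nonneg _
        · intro t ht
          apply hX
          obtain ⟨τ, _, hτ⟩ := mem_biUnion.1 ht
          exact ⟨τ, mem_filter.2 ⟨mem_univ _, hτ⟩⟩
      have h5 := h3.trans (mul_le_mul_of_nonneg_left h4 (hE _))
      have h6 := mul_le_mul (hY1 F) h5 (abs_nonneg _) zero_le_one
      rw [one_mul] at h6
      exact h6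
  refine (sum_le_sum fun F _ => h2 F).trans ?_
  rw [← sum_fiberwise_of_maps_to (s := univ) (t := univ) (g := fun F : I → Finset S => univ.biUnion F)
    (fun _ _ => mem_univ _)]
  rw [sum_filter]
  apply sum_le_sum
  intro T _
  have h6 : ∀ F ∈ univ.filter (fun F : I → Finset S => univ.biUnion F = T),
      (if Adm (univ.biUnion F) then E (univ.biUnion F) * ∏ t ∈ univ.biUnion F, Cx t else 0) =
      if Adm T then E T * ∏ t ∈ T, Cx t else 0 := by
    intro F hF
    rw [(mem_filter.1 hF).2]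
  rw [sum_congr rfl h6, sum_const, nsmul_eq_mul]
  by_cases hT : Adm T
  · rw [if_pos hT, if_pos hT]
    apply mul_le_mul_of_nonneg_right _ (mul_nonneg (hE _) (prod_nonneg fun t _ => hCx t))
    have h7 : univ.filter (fun F : I → Finset S => univ.biUnion F = T) ⊆
        Fintype.piFinset (fun _ : I => T.powerset) := by
      intro F hF
      rw [Fintype.mem_piFinset]
      intro τ
      rw [mem_powerset, ← (mem_filter.1 hF).2]
      exact subset_biUnion_of_mem F (mem_univ τ)
    have h8 := card_le_card h7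
    rw [Fintype.card_piFinset, prod_const, card_powerset, ← pow_mul, mul_comm, card_univ] at h8
    exact_mod_cast h8
  · rw [if_neg hT, if_neg hT, mul_zero]

end Pool.Agent.N913.MT
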