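import Pool.Agent.N913.MT.B5

set_option autoImplicit false
set_option linter.unusedSectionVars false

/-! The ratio of the quadratic forms. -/

namespace Pool.Agent.N913.MT

open Finset
open Pool.Agent.R498.MT (ms lz gp gp_bd gp_supp gp_zero MerS mass mass_lower mass_upper sum_H sum_I2
  sum_IE sum_I2_lower exp_bd)

section rt
variable {S J : Type} [Fintype S] [DecidableEq S] [Fintype J] [DecidableEq J]

/-- total mass -/
theorem tot_le (len ν : S → ℝ) (hν : ∀ t, 0 ≤ ν t) (ε₁ w η : ℝ) (hε : 0 < ε₁)
    (hl : ∀ t, ε₁ ≤ len t) (hlw : ∀ t, len t < w) (hη : η ≤ 1 / 20) (hM : MerS len ν ε₁ w η)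
    (hw : ε₁ ≤ w) : ∑ a : Finset S, ms ν a ≤ 6 / 5 * (w / ε₁) := by
  classical
  have h1 : ∑ a : Finset S, ms ν a = ∏ t, (1 + ν t) := by
    rw [prod_one_add, powerset_univ]
    rfl
  have h2 : ∏ t, (1 + ν t) ≤ Real.exp (∑ t, ν t) := by
    rw [Real.exp_sum]
    apply prod_le_prod
    · intro t _; linarith [hν t]
    · intro t _
      have := Real.add_one_le_exp (ν t)
      linarith
  have h3 := hM ε₁ w le_rfl hw le_rfl
  have h4 : univ.filter (fun t => ε₁ ≤ len t ∧ len t < w) = univ := by
    ext t; simp [hl t, hlw t]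
  rw [h4, abs_le] at h3
  have h6 : Real.exp (∑ t, ν t) ≤ Real.exp (Real.log (w / ε₁) + η) :=
    Real.exp_le_exp.2 (by linarith [h3.2])
  have hw0 : 0 < w / ε₁ := div_pos (by linarith) hε
  rw [Real.exp_add, Real.exp_log hw0] at h6
  have h7 := exp_bd η hη
  rw [h1]
  calc ∏ t, (1 + ν t) ≤ w / ε₁ * Real.exp η := h2.trans h6
    _ ≤ w / ε₁ * (6 / 5) := mul_le_mul_of_nonneg_left h7 hw0.le
    _ = _ := by ring

theorem Wb_one_none (ν : S → ℝ) : Wb ν (none : Option J) (fun _ => 1) =
    (∑ a : Finset S, ms ν a) ^ (Fintype.card J) := by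
  have h := Wb_prod (J := J) ν none (fun _ => 1)
  simp only [prod_const_one] at h
  rw [h, ← card_univ, ← prod_const]
  refine prod_congr rfl fun j _ => ?_
  have h2 := pair_false ν ((none : Option J) = some j) (by simp) (fun _ => 1)
  simp only [one_mul, mul_one] at h2 ⊢
  exact h2

theorem prod_split (i : J) (x z : ℝ) : ∏ j : J, (if i = j then x else z) =
    x * z ^ (Fintype.card J - 1) := by
  rw [← mul_prod_erase univ _ (mem_univ i), if_pos rfl]
  congr 1
  have : ∀ j ∈ univ.erase i, (if i = j then x else z) = z := by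
    intro j hj
    rw [if_neg (ne_of_mem_erase hj).symm]
  rw [prod_congr rfl this, prod_const, card_erase_of_mem (mem_univ i), card_univ]

theorem Wb_prod_none (ν : S → ℝ) (g : Finset S → ℝ) :
    Wb ν (none : Option J) (fun f => ∏ j, g (f j)) =
      (∑ a : Finset S, ms ν a * g a ^ 2) ^ (Fintype.card J) := by
  rw [Wb_prod, ← card_univ, ← prod_const]
  refine prod_congr rfl fun j _ => ?_
  rw [pair_false ν _ (by simp) (fun a => g a.1 * g a.2)]
  refine sum_congr rfl fun a _ => ?_
  ring

theorem Wb_prod_some (ν : S → ℝ) (i : J) (g : Finset S → ℝ) :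
    Wb ν (some i) (fun f => ∏ j, g (f j)) =
      (∑ a : Finset S, ms ν a * g a) ^ 2 * (∑ a : Finset S, ms ν a * g a ^ 2) ^ (Fintype.card J - 1) := by
  rw [Wb_prod, ← prod_split i]
  refine prod_congr rfl fun j _ => ?_
  by_cases h : i = j
  · rw [if_pos h, pair_true ν _ (by rw [h]) g]
    congr 1
    exact sum_congr rfl fun a _ => mul_comm _ _
  · rw [if_neg h, pair_false ν _ (by simpa using h) (fun a => g a.1 * g a.2)]
    refine sum_congr rfl fun a _ => ?_
    ring

theorem Wb_one_some (ν : S → ℝ) (i : J) : Wb ν (some i) (fun _ => 1) =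
    (∑ a : Finset S, ms ν a) ^ (Fintype.card J + 1) := by
  have h := Wb_prod_some ν i (fun _ => 1)
  simp only [prod_const_one, mul_one, one_pow] at h
  rw [h, ← pow_add]
  congr 1
  have : 0 < Fintype.card J := Fintype.card_pos_iff.2 ⟨i⟩
  omega

/-- the lower bound for the forms with a prime slot -/
theorem Wb_some_lower (ν len : S → ℝ) (hν : ∀ t, 0 ≤ ν t) (hl : ∀ t, 0 ≤ len t) (i : J) (K : ℕ)
    (u w c : ℝ) (hu : 0 < u) (hw : 2 ^ K * u ≤ w / 2) (hc0 : 0 ≤ c)
    (hc : ∑ a, lz len a * (ms ν a * gp K u (lz len a) ^ 2) ≤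
      c * ∑ a, ms ν a * gp K u (lz len a) ^ 2)
    (hck : (Fintype.card J : ℝ) * c ≤ w / 4) :
    1 / 2 * ((∑ a, ms ν a * gp K u (lz len a)) ^ 2 *
      (∑ a, ms ν a * gp K u (lz len a) ^ 2) ^ (Fintype.card J - 1)) ≤
      Wb ν (some i) (yy len K u w) := by
  have hw0 : 0 < w := by
    have : 0 < 2 ^ K * u := by positivity
    linarith
  set g : Finset S → ℝ := fun a => gp K u (lz len a) with hg
  have hg0 : ∀ a, 0 ≤ g a := fun a => (gp_bd K u _).1
  have hlz : ∀ a, 0 ≤ lz len a := fun a => sum_nonneg fun t _ => hl t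
  have hms : ∀ a, 0 ≤ ms ν a := fun a => prod_nonneg fun t _ => hν t
  -- pointwise
  have hpt : ∀ φ : J → Finset S × Finset S,
      (∏ j, (g (φ j).1 * g (φ j).2 * kap ν (some i = some j) (φ j))) *
        (1 - 2 / w * ∑ j ∈ univ.erase i, lz len (φ j).1) ≤
      yy len K u w (fun j => (φ j).1) * yy len K u w (fun j => (φ j).2) *
        ∏ j, kap ν (some i = some j) (φ j) := by
    intro φ
    have hk0 : ∀ j, 0 ≤ kap ν (some i = some j) (φ j) := fun j => kap_nonneg ν hν _ _
    have hP0 : 0 ≤ ∏ j, (g (φ j).1 * g (φ j).2 * kap ν (some i = some j) (φ j)) :=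
      prod_nonneg fun j _ => mul_nonneg (mul_nonneg (hg0 _) (hg0 _)) (hk0 j)
    have hR0 : 0 ≤ yy len K u w (fun j => (φ j).1) * yy len K u w (fun j => (φ j).2) *
        ∏ j, kap ν (some i = some j) (φ j) :=
      mul_nonneg (mul_nonneg (yy_bd len K u w _).1 (yy_bd len K u w _).1)
        (prod_nonneg fun j _ => hk0 j)
    by_cases hz : ∏ j, (g (φ j).1 * g (φ j).2 * kap ν (some i = some j) (φ j)) = 0
    · rw [hz, zero_mul]; exact hR0
    · by_cases hZ : w / 2 ≤ ∑ j ∈ univ.erase i, lz len (φ j).1
      · have h1 : 1 - 2 / w * ∑ j ∈ univ.erase i, lz len (φ j).1 ≤ 0 := by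
          have h2 := mul_le_mul_of_nonneg_left hZ (show (0 : ℝ) ≤ 2 / w by positivity)
          have h3 : 2 / w * (w / 2) = 1 := by field_simp
          linarith
        exact (mul_nonpos_of_nonneg_of_nonpos hP0 h1).trans hR0
      · push Not at hZ
        have hne : ∀ j, g (φ j).1 * g (φ j).2 * kap ν (some i = some j) (φ j) ≠ 0 := by
          intro j
          exact (prod_ne_zero_iff.1 hz) j (mem_univ j)
        have heq : ∀ j ∈ univ.erase i, lz len (φ j).2 = lz len (φ j).1 := by
          intro j hj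
          have h1 := hne j
          have h2 : ¬ (some i = some j) := by
            simpa using (ne_of_mem_erase hj).symm
          rw [kap_false ν _ h2] at h1
          by_cases h3 : (φ j).1 = (φ j).2
          · rw [h3]
          · rw [if_neg h3, mul_zero] at h1
            exact absurd rfl h1
        have hi1 : lz len (φ i).1 < w / 2 := by
          have h1 := hne i
          have h2 : g (φ i).1 ≠ 0 := fun h => h1 (by rw [h]; ring)
          exact (gp_supp K u _ hu.le h2).trans_le hw
        have hi2 : lz len (φ i).2 < w / 2 := by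
          have h1 := hne i
          have h2 : g (φ i).2 ≠ 0 := fun h => h1 (by rw [h]; ring)
          exact (gp_supp K u _ hu.le h2).trans_le hw
        have hs1 : ∑ j, lz len (φ j).1 < w := by
          rw [← add_sum_erase univ _ (mem_univ i)]
          linarith
        have hs2 : ∑ j, lz len (φ j).2 < w := by
          rw [← add_sum_erase univ _ (mem_univ i), sum_congr rfl heq]
          linarith
        unfold yy
        rw [if_pos hs1, if_pos hs2, mul_one, mul_one, ← prod_mul_distrib, ← prod_mul_distrib]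
        have h4 : 1 - 2 / w * ∑ j ∈ univ.erase i, lz len (φ j).1 ≤ 1 := by
          have : 0 ≤ 2 / w * ∑ j ∈ univ.erase i, lz len (φ j).1 :=
            mul_nonneg (by positivity) (sum_nonneg fun j _ => hlz _)
          linarith
        calc _ ≤ (∏ j, (g (φ j).1 * g (φ j).2 * kap ν (some i = some j) (φ j))) * 1 :=
              mul_le_mul_of_nonneg_left h4 hP0
          _ = _ := by rw [mul_one]
  obtain ⟨A, hA⟩ : ∃ A, A = ∑ a, ms ν a * g a ^ 2 := ⟨_, rfl⟩
  obtain ⟨I, hI⟩ : ∃ I, I = ∑ a, ms ν a * g a := ⟨_, rfl⟩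
  have hA0 : 0 ≤ A := by rw [hA]; exact sum_nonneg fun a _ => mul_nonneg (hms a) (sq_nonneg _)
  have hfac : ∀ j : J, ∑ a : Finset S × Finset S, g a.1 * g a.2 * kap ν (some i = some j) a =
      if i = j then I ^ 2 else A := by
    intro j
    by_cases h : i = j
    · rw [if_pos h, pair_true ν _ (by rw [h]) g, hI]
      congr 1
      exact sum_congr rfl fun a _ => mul_comm _ _
    · rw [if_neg h, pair_false ν _ (by simpa using h) (fun a => g a.1 * g a.2), hA]
      refine sum_congr rfl fun a _ => ?_
      ring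
  have hmain : ∑ φ : J → Finset S × Finset S,
      ∏ j, (g (φ j).1 * g (φ j).2 * kap ν (some i = some j) (φ j)) =
      I ^ 2 * A ^ (Fintype.card J - 1) := by
    rw [sum_phi (fun j a => g a.1 * g a.2 * kap ν (some i = some j) a), prod_congr rfl (fun j _ => hfac j),
      prod_split]
  have hside : ∀ j' ∈ univ.erase i, ∑ φ : J → Finset S × Finset S,
      (∏ j, (g (φ j).1 * g (φ j).2 * kap ν (some i = some j) (φ j))) * lz len (φ j').1 ≤
      c * (I ^ 2 * A ^ (Fintype.card J - 1)) := by
    intro j' hj'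
    have hij' : i ≠ j' := (ne_of_mem_erase hj').symm
    have e1 : ∀ φ : J → Finset S × Finset S,
        (∏ j, (g (φ j).1 * g (φ j).2 * kap ν (some i = some j) (φ j))) * lz len (φ j').1 =
        ∏ j, (g (φ j).1 * g (φ j).2 * kap ν (some i = some j) (φ j) *
          (if j' = j then lz len (φ j).1 else 1)) := by
      intro φ
      symm
      rw [prod_mul_distrib]
      congr 1
      rw [prod_ite_eq univ j' (fun j => lz len (φ j).1)]
      simp
    rw [sum_congr rfl (fun φ _ => e1 φ),
      sum_phi (fun j a => g a.1 * g a.2 * kap ν (some i = some j) a *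
          (if j' = j then lz len a.1 else 1))]
    have e2 : ∀ j, ∑ a : Finset S × Finset S, g a.1 * g a.2 * kap ν (some i = some j) a *
          (if j' = j then lz len a.1 else 1) ≤ (if j' = j then c else 1) * (if i = j then I ^ 2 else A) := by
      intro j
      by_cases h : j' = j
      · subst h
        rw [if_pos rfl, if_neg hij']
        simp only [if_true]
        have e3 : ∀ a : Finset S × Finset S, g a.1 * g a.2 * kap ν (some i = some j') a * lz len a.1 =
            (g a.1 * g a.2 * lz len a.1) * kap ν (some i = some j') a := by intro a; ring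
        rw [sum_congr rfl (fun a _ => e3 a), pair_false ν _ (by simpa using hij')
          (fun a => g a.1 * g a.2 * lz len a.1), hA]
        refine le_trans (le_of_eq ?_) hc
        refine sum_congr rfl fun a _ => ?_
        simp only [hg]
        ring
      · simp only [if_neg h, mul_one, one_mul]
        exact (hfac j).le
    have e4 : ∏ j, ((if j' = j then c else 1) * (if i = j then I ^ 2 else A)) =
        c * (I ^ 2 * A ^ (Fintype.card J - 1)) := by
      rw [prod_mul_distrib, prod_split i, prod_ite_eq univ j' (fun _ => c)]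
      simp
    rw [← e4]
    apply prod_le_prod
    · intro j _
      apply sum_nonneg
      intro a _
      apply mul_nonneg (mul_nonneg (mul_nonneg (hg0 _) (hg0 _)) (kap_nonneg ν hν _ _))
      split_ifs
      · exact hlz _
      · exact zero_le_one
    · intro j _
      exact e2 j
  have hsum : ∑ φ : J → Finset S × Finset S,
      (∏ j, (g (φ j).1 * g (φ j).2 * kap ν (some i = some j) (φ j))) *
        (1 - 2 / w * ∑ j ∈ univ.erase i, lz len (φ j).1) ≤ Wb ν (some i) (yy len K u w) := by
    unfold Wb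
    exact sum_le_sum fun φ _ => hpt φ
  refine le_trans ?_ hsum
  have e5 : ∑ φ : J → Finset S × Finset S,
      (∏ j, (g (φ j).1 * g (φ j).2 * kap ν (some i = some j) (φ j))) *
        (1 - 2 / w * ∑ j ∈ univ.erase i, lz len (φ j).1) =
      I ^ 2 * A ^ (Fintype.card J - 1) - 2 / w * ∑ j' ∈ univ.erase i,
        ∑ φ : J → Finset S × Finset S,
      (∏ j, (g (φ j).1 * g (φ j).2 * kap ν (some i = some j) (φ j))) * lz len (φ j').1 := by
    rw [← hmain, sum_comm, mul_sum, ← sum_sub_distrib]
    refine sum_congr rfl fun φ _ => ?_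
    rw [← mul_sum]
    ring
  rw [e5]
  have h6 : ∑ j' ∈ univ.erase i, ∑ φ : J → Finset S × Finset S,
      (∏ j, (g (φ j).1 * g (φ j).2 * kap ν (some i = some j) (φ j))) * lz len (φ j').1 ≤
      Fintype.card J * (c * (I ^ 2 * A ^ (Fintype.card J - 1))) := by
    refine (sum_le_sum hside).trans ?_
    rw [sum_const, nsmul_eq_mul]
    apply mul_le_mul_of_nonneg_right _ (by positivity)
    have : (univ.erase i).card ≤ Fintype.card J := (card_le_card (erase_subset _ _)).trans (by simp)
    exact_mod_cast this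
  have h7 := mul_le_mul_of_nonneg_left h6 (show (0 : ℝ) ≤ 2 / w by positivity)
  have h8 : 2 / w * (Fintype.card J * (c * (I ^ 2 * A ^ (Fintype.card J - 1)))) ≤
      1 / 2 * (I ^ 2 * A ^ (Fintype.card J - 1)) := by
    have h9 : 2 / w * (Fintype.card J * c) ≤ 1 / 2 := by
      rw [div_mul_eq_mul_div, div_le_iff₀ hw0]
      linarith
    calc _ = (2 / w * (Fintype.card J * c)) * (I ^ 2 * A ^ (Fintype.card J - 1)) := by ring
      _ ≤ _ := mul_le_mul_of_nonneg_right h9 (by positivity)
  rw [← hA, ← hI]
  linarith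

end rt

end Pool.Agent.N913.MT
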