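import Pool.Agent.N913.MT.C1

set_option autoImplicit false

/-! Class sums over the pairs `(s, r)`. -/

namespace Pool.Agent.N913.MT

open Finset

/-- the pairs in a class -/
def CS (S2 q a b : ℕ) : Finset (ℕ × ℕ) :=
  (range S2 ×ˢ range (2 * S2)).filter (fun n => n.2 ≤ 2 * n.1 ∧ n.1 ≡ a [MOD q] ∧ n.2 ≡ b [MOD q])

/-- representative of the value in the class -/
def vn (q t a b : ℕ) : ℕ := 2 * a * t + t ^ 2 + (q - 1) * b

theorem sum_CS (S2 q a b : ℕ) (f : ℕ × ℕ → ℝ) : ∑ n ∈ CS S2 q a b, f n =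
    ∑ s ∈ (range S2).filter (fun s => s ≡ a [MOD q]),
      ∑ r ∈ (range (2 * s + 1)).filter (fun r => r ≡ b [MOD q]), f (s, r) := by
  unfold CS
  rw [sum_filter, sum_product, sum_filter]
  refine sum_congr rfl fun s hs => ?_
  rw [mem_range] at hs
  split_ifs with h
  · rw [← sum_filter]
    apply sum_congr _ (fun _ _ => rfl)
    ext r
    simp only [mem_filter, mem_range, h, true_and]
    constructor
    · rintro ⟨_, h2, h3⟩
      exact ⟨by omega, h3⟩
    · rintro ⟨h2, h3⟩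
      exact ⟨by omega, by omega, h3⟩
  · apply sum_eq_zero
    intro r _
    rw [if_neg]
    exact fun h' => h h'.2.1

theorem claim0 (S2 q a b : ℕ) (hq : 1 ≤ q) :
    |((CS S2 q a b).card : ℝ) - (S2 : ℝ) ^ 2 / (q : ℝ) ^ 2| ≤ 6 * S2 + 2 := by
  have hq0 : (1 : ℝ) ≤ q := by exact_mod_cast hq
  have h0 : ((CS S2 q a b).card : ℝ) = ∑ n ∈ CS S2 q a b, (1 : ℝ) := by simp
  rw [h0, sum_CS]
  have h1 := Asum q a S2 hq
  have h2 := cmod S2 q a hq
  have h3 : |∑ s ∈ (range S2).filter (fun s => s ≡ a [MOD q]),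
      (∑ r ∈ (range (2 * s + 1)).filter (fun r => r ≡ b [MOD q]), (1 : ℝ) - (2 * s + 1) / q)| ≤
      S2 + 1 := by
    refine (abs_sum_le_sum_abs _ _).trans ?_
    have h4 : ∀ s ∈ (range S2).filter (fun s => s ≡ a [MOD q]),
        |∑ r ∈ (range (2 * s + 1)).filter (fun r => r ≡ b [MOD q]), (1 : ℝ) - (2 * s + 1) / q| ≤ 1 := by
      intro s _
      have := cmod (2 * s + 1) q b hq
      rw [sum_const, nsmul_eq_mul, mul_one]
      push_cast at this
      exact this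
    refine (sum_le_sum h4).trans ?_
    rw [sum_const, nsmul_eq_mul, mul_one]
    rw [abs_le] at h2
    have h5 : (S2 : ℝ) / q ≤ S2 := div_le_self (Nat.cast_nonneg _) hq0
    linarith
  rw [sum_sub_distrib, ← sum_div] at h3
  have h6 : |(∑ s ∈ (range S2).filter (fun s => s ≡ a [MOD q]), (2 * (s : ℝ) + 1)) / q -
      (S2 : ℝ) ^ 2 / (q : ℝ) ^ 2| ≤ 4 * S2 + 1 := by
    have e : (∑ s ∈ (range S2).filter (fun s => s ≡ a [MOD q]), (2 * (s : ℝ) + 1)) / q -
      (S2 : ℝ) ^ 2 / (q : ℝ) ^ 2 =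
      (∑ s ∈ (range S2).filter (fun s => s ≡ a [MOD q]), (2 * (s : ℝ) + 1) - (S2 : ℝ) ^ 2 / q) / q := by
      rw [sq (q : ℝ), sub_div, div_div]
    rw [e, abs_div, abs_of_nonneg (by linarith : (0 : ℝ) ≤ q)]
    exact (div_le_self (abs_nonneg _) hq0).trans h1
  rw [abs_le] at h3 h6 ⊢
  have : (0 : ℝ) ≤ S2 := Nat.cast_nonneg _
  constructor <;> linarith [h3.1, h3.2, h6.1, h6.2]

/-- a row -/
theorem row (R Y : ℕ) (M : ℕ → ℝ) (hM : BVh R Y M) (q : ℕ) (hq : 1 ≤ q)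
    (hR : ∀ p : ℕ, p.Prime → p ∣ q → p ≤ R) (t s c : ℕ) (ht : 1 ≤ t) (hY : 2 * s * t + t ^ 2 ≤ Y) :
    |∑ u ∈ (Icc (2 * s * t + t ^ 2 - 2 * s) (2 * s * t + t ^ 2)).filter (fun u => u ≡ c [MOD q]), th R u -
      (if c.Coprime q then (2 * (s : ℝ) + 1) / Nat.totient q else 0)| ≤ 2 * M q := by
  have h2s : 2 * s ≤ 2 * s * t := Nat.le_mul_of_pos_right _ ht
  have ht2 : 1 ≤ t ^ 2 := Nat.one_le_pow _ _ ht
  obtain ⟨u0, hu0⟩ : ∃ u0, u0 = 2 * s * t + t ^ 2 - 2 * s := ⟨_, rfl⟩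
  have h := AP1 R Y M hM 1 q le_rfl hq (by rw [one_mul]; exact hR) u0 (c + (q - 1) * u0) 0 (2 * s + 1)
    (by omega) (by omega) (by omega)
  simp only [one_mul, Nat.cast_one, Nat.cast_zero, sub_zero] at h
  have e1 : u0 + (c + (q - 1) * u0) = c + q * u0 := by
    obtain ⟨m, rfl⟩ : ∃ m, q = m + 1 := ⟨q - 1, by omega⟩
    simp only [Nat.add_sub_cancel]
    ring
  rw [e1] at h
  have e2 : (c + q * u0).Coprime q ↔ c.Coprime q := by
    rw [Nat.coprime_add_mul_left_left]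
  have e3 : ∑ u ∈ (Icc (2 * s * t + t ^ 2 - 2 * s) (2 * s * t + t ^ 2)).filter
      (fun u => u ≡ c [MOD q]), th R u =
      ∑ r ∈ (Ico 0 (2 * s + 1)).filter (fun r => r ≡ c + (q - 1) * u0 [MOD q]), th R (u0 + r) := by
    rw [← hu0]
    have hmod : ∀ r, (u0 + r ≡ c [MOD q]) ↔ (r ≡ c + (q - 1) * u0 [MOD q]) := by
      intro r
      constructor
      · intro h5
        have h6 : u0 + r ≡ u0 + (c + (q - 1) * u0) [MOD q] := by
          rw [e1]
          exact h5.trans (by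
            have : c ≡ c + q * u0 [MOD q] := by
              unfold Nat.ModEq
              simp
            exact this)
        exact Nat.ModEq.add_left_cancel' u0 h6
      · intro h5
        have h6 : u0 + r ≡ u0 + (c + (q - 1) * u0) [MOD q] := Nat.ModEq.add_left u0 h5
        rw [e1] at h6
        exact h6.trans (by unfold Nat.ModEq; simp)
    symm
    apply sum_bij (fun r _ => u0 + r)
    · intro r hr
      rw [mem_filter, mem_Ico] at hr
      rw [mem_filter, mem_Icc]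
      exact ⟨⟨by omega, by omega⟩, (hmod r).2 hr.2⟩
    · intro r _ r' _ h5
      omega
    · intro u hu
      rw [mem_filter, mem_Icc] at hu
      obtain ⟨⟨h5, h6⟩, h7⟩ := hu
      refine ⟨u - u0, ?_, by omega⟩
      rw [mem_filter, mem_Ico]
      refine ⟨⟨by omega, by omega⟩, (hmod _).1 ?_⟩
      have : u0 + (u - u0) = u := by omega
      rw [this]
      exact h7
    · intro r _
      rfl
  rw [e3]
  by_cases hc : c.Coprime q
  · rw [if_pos hc]
    rw [if_pos (e2.2 hc)] at h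
    push_cast at h
    exact h
  · rw [if_neg hc]
    rw [if_neg (fun h5 => hc (e2.1 h5))] at h
    exact h

/-- the class of the values -/
theorem val_mod (q t a b s r : ℕ) (hq : 1 ≤ q) (hs : s ≡ a [MOD q]) (hr : r ≤ 2 * s * t + t ^ 2) :
    (2 * s * t + t ^ 2 - r ≡ vn q t a b [MOD q]) ↔ (r ≡ b [MOD q]) := by
  have h1 : 2 * s * t + t ^ 2 ≡ 2 * a * t + t ^ 2 [MOD q] :=
    Nat.ModEq.add_right _ (Nat.ModEq.mul_right t (Nat.ModEq.mul_left 2 hs))
  obtain ⟨v, hv⟩ := Nat.exists_eq_add_of_le hr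
  have e0 : 2 * s * t + t ^ 2 - r = v := by omega
  rw [e0]
  obtain ⟨m, rfl⟩ : ∃ m, q = m + 1 := ⟨q - 1, by omega⟩
  unfold vn
  simp only [Nat.add_sub_cancel]
  rw [hv] at h1
  -- r + v ≡ A; claim: v ≡ A + m b iff r ≡ b
  have h2 : 2 * a * t + t ^ 2 + m * b + b ≡ 2 * a * t + t ^ 2 [MOD (m + 1)] := by
    have : 2 * a * t + t ^ 2 + m * b + b = 2 * a * t + t ^ 2 + (m + 1) * b := by ring
    rw [this]
    unfold Nat.ModEq
    simp
  constructor
  · intro h3
    have h4 : r + v ≡ b + v [MOD (m + 1)] := by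
      have h5 := Nat.ModEq.add_left b h3
      have h6 : b + (2 * a * t + t ^ 2 + m * b) = 2 * a * t + t ^ 2 + m * b + b := by ring
      rw [h6] at h5
      exact h1.trans (h5.trans h2).symm
    exact Nat.ModEq.add_right_cancel' v h4
  · intro h3
    have h4 : v + b ≡ (2 * a * t + t ^ 2 + m * b) + b [MOD (m + 1)] := by
      have h5 : v + b ≡ v + r [MOD (m + 1)] := Nat.ModEq.add_left v h3.symm
      have h6 : v + r = r + v := add_comm _ _
      rw [h6] at h5
      exact h5.trans (h1.trans h2.symm)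
    exact Nat.ModEq.add_right_cancel' b h4

/-- reversing a row -/
theorem row_rev (q t a b s : ℕ) (hq : 1 ≤ q) (ht : 1 ≤ t) (hs : s ≡ a [MOD q]) (f : ℕ → ℝ) :
    ∑ r ∈ (range (2 * s + 1)).filter (fun r => r ≡ b [MOD q]), f (2 * s * t + t ^ 2 - r) =
    ∑ u ∈ (Icc (2 * s * t + t ^ 2 - 2 * s) (2 * s * t + t ^ 2)).filter
      (fun u => u ≡ vn q t a b [MOD q]), f u := by
  have h2s : 2 * s ≤ 2 * s * t := Nat.le_mul_of_pos_right _ ht
  apply sum_bij (fun r _ => 2 * s * t + t ^ 2 - r)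
  · intro r hr
    rw [mem_filter, mem_range] at hr
    rw [mem_filter, mem_Icc]
    refine ⟨⟨by omega, by omega⟩, (val_mod q t a b s r hq hs (by omega)).2 hr.2⟩
  · intro r hr r' hr' h
    rw [mem_filter, mem_range] at hr hr'
    omega
  · intro u hu
    rw [mem_filter, mem_Icc] at hu
    obtain ⟨⟨h1, h2⟩, h3⟩ := hu
    refine ⟨2 * s * t + t ^ 2 - u, ?_, by omega⟩
    rw [mem_filter, mem_range]
    refine ⟨by omega, ?_⟩
    rw [← val_mod q t a b s _ hq hs (by omega)]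
    have : 2 * s * t + t ^ 2 - (2 * s * t + t ^ 2 - u) = u := by omega
    rw [this]
    exact h3
  · intro r _
    rfl

theorem claim1 (R Y : ℕ) (M : ℕ → ℝ) (hM : BVh R Y M) (hM0 : ∀ q, 0 ≤ M q) (S2 q a b t : ℕ)
    (hq : 1 ≤ q) (hR : ∀ p : ℕ, p.Prime → p ∣ q → p ≤ R) (ht : 1 ≤ t)
    (hY : 2 * S2 * t + t ^ 2 ≤ Y) :
    |∑ n ∈ CS S2 q a b, th R (2 * n.1 * t + t ^ 2 - n.2) -
      (if (vn q t a b).Coprime q then (S2 : ℝ) ^ 2 / (q * Nat.totient q) else 0)| ≤
      (S2 / q + 1) * (2 * M q) + (4 * S2 + 1) / Nat.totient q := by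
  have hq0 : (0 : ℝ) < q := by exact_mod_cast hq
  have hφ : (0 : ℝ) < Nat.totient q := by exact_mod_cast Nat.totient_pos.2 hq
  rw [sum_CS]
  have e1 : ∀ s ∈ (range S2).filter (fun s => s ≡ a [MOD q]),
      ∑ r ∈ (range (2 * s + 1)).filter (fun r => r ≡ b [MOD q]),
        th R (2 * (s, r).1 * t + t ^ 2 - (s, r).2) =
      ∑ u ∈ (Icc (2 * s * t + t ^ 2 - 2 * s) (2 * s * t + t ^ 2)).filter
        (fun u => u ≡ vn q t a b [MOD q]), th R u := by
    intro s hs
    exact row_rev q t a b s hq ht (mem_filter.1 hs).2 (th R)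
  rw [sum_congr rfl e1]
  have h1 := Asum q a S2 hq
  have h2 := cmod S2 q a hq
  set δ : ℝ := if (vn q t a b).Coprime q then 1 else 0 with hδ
  have hδ1 : |δ| ≤ 1 := by rw [hδ]; split_ifs <;> simp
  have h3 : |∑ s ∈ (range S2).filter (fun s => s ≡ a [MOD q]),
      (∑ u ∈ (Icc (2 * s * t + t ^ 2 - 2 * s) (2 * s * t + t ^ 2)).filter
        (fun u => u ≡ vn q t a b [MOD q]), th R u -
        (if (vn q t a b).Coprime q then (2 * (s : ℝ) + 1) / Nat.totient q else 0))| ≤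
      (S2 / q + 1) * (2 * M q) := by
    refine (abs_sum_le_sum_abs _ _).trans ?_
    refine (sum_le_sum (fun s hs => row R Y M hM q hq hR t s (vn q t a b) ht (by
      have h5 := mem_range.1 (mem_filter.1 hs).1
      have h6 : 2 * s * t ≤ 2 * S2 * t := by gcongr
      omega))).trans ?_
    rw [sum_const, nsmul_eq_mul]
    apply mul_le_mul_of_nonneg_right _ (by linarith [hM0 q])
    rw [abs_le] at h2
    linarith
  rw [sum_sub_distrib] at h3
  have e2 : ∑ s ∈ (range S2).filter (fun s => s ≡ a [MOD q]),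
      (if (vn q t a b).Coprime q then (2 * (s : ℝ) + 1) / Nat.totient q else 0) =
      δ * ((∑ s ∈ (range S2).filter (fun s => s ≡ a [MOD q]), (2 * (s : ℝ) + 1)) / Nat.totient q) := by
    rw [hδ]
    split_ifs
    · rw [one_mul, sum_div]
    · simp
  have e3 : (if (vn q t a b).Coprime q then (S2 : ℝ) ^ 2 / (q * Nat.totient q) else 0) =
      δ * ((S2 : ℝ) ^ 2 / q / Nat.totient q) := by
    rw [hδ]
    split_ifs
    · rw [one_mul, div_div]
    · simp
  rw [e2] at h3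
  rw [e3]
  have h4 : |δ * ((∑ s ∈ (range S2).filter (fun s => s ≡ a [MOD q]), (2 * (s : ℝ) + 1)) /
      Nat.totient q) - δ * ((S2 : ℝ) ^ 2 / q / Nat.totient q)| ≤ (4 * S2 + 1) / Nat.totient q := by
    rw [← mul_sub, ← sub_div, abs_mul, abs_div, abs_of_pos hφ]
    calc _ ≤ 1 * ((4 * S2 + 1) / (Nat.totient q : ℝ)) :=
          mul_le_mul hδ1 (div_le_div_of_nonneg_right h1 hφ.le) (by positivity) zero_le_one
      _ = _ := one_mul _
  rw [abs_le] at h3 h4 ⊢
  constructor <;> linarith [h3.1, h3.2, h4.1, h4.2]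

end Pool.Agent.N913.MT
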