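import Pool.Agent.N913.MT.F7

set_option autoImplicit false
set_option linter.unusedSectionVars false

/-! Parameters. -/

namespace Pool.Agent.N913.MT

open Finset Filter

noncomputable def zX (X : ℕ) : ℕ := ⌊Real.log (Real.log X)⌋₊
noncomputable def WX (X : ℕ) : ℕ := Wz (zX X)
noncomputable def GX (b X : ℕ) : ℕ := ⌈Real.log X ^ b⌉₊
def SX (X : ℕ) : ℕ := X.sqrt + 1
noncomputable def HX (b sm X J0 : ℕ) : ℕ := J0 + WX X + WX X * GX b X + sm
noncomputable def YX (b sm X J0 : ℕ) : ℕ := 2 * SX X * HX b sm X J0 + HX b sm X J0 ^ 2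
noncomputable def TX (X : ℕ) : ℝ := (X : ℝ) ^ (1 / 1000 : ℝ)
noncomputable def RX (X : ℕ) : ℕ := ⌊TX X ^ 13⌋₊

/-- the numerical facts -/
structure Fct (b C sm : ℕ) (cc : ℝ) (X J0 : ℕ) : Prop where
  l4 : 4 ≤ Real.log X
  lc : cc ≤ Real.log X
  W_le : (WX X : ℝ) ≤ Real.log X ^ 2
  G_ge : Real.log X ^ b ≤ GX b X
  WG_le : ((WX X * GX b X : ℕ) : ℝ) ≤ Real.log X ^ (b + 3)
  H_le : (HX b sm X J0 : ℝ) ≤ Real.log X ^ (b + C + 6)
  W1 : 1 ≤ WX X
  T1 : 1 ≤ TX X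
  HT : cc * Real.log X ^ (6 * (b + C + 6)) ≤ TX X
  T_X : TX X ^ 1000 = X
  S_ge : TX X ^ 500 ≤ SX X
  S_le : (SX X : ℝ) ≤ 2 * TX X ^ 500
  SY : SX X ≤ YX b sm X J0
  Y_le : (YX b sm X J0 : ℝ) ≤ 3 * SX X * Real.log X ^ (b + C + 6)
  lY1 : Real.log X / 2 ≤ Real.log (YX b sm X J0)
  lY2 : Real.log (YX b sm X J0) ≤ Real.log X
  R_ge : TX X ^ 12 ≤ RX X
  R_le : (RX X : ℝ) ≤ TX X ^ 13
  RY : Real.log (YX b sm X J0) ≤ 42 * Real.log (RX X)

theorem fct_evt (b C sm : ℕ) (cc : ℝ) : ∃ X0 : ℕ, ∀ X : ℕ, X0 ≤ X → ∀ J0 : ℕ,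
    (J0 : ℝ) ≤ Real.log X ^ C → Fct b C sm cc X J0 := by
  obtain ⟨X0, hX0⟩ := eventually_atTop.1 ((evt_log_pow (1 / 1000) (by norm_num) (max cc 8)
    (6 * (b + C + 6))).and ((evt_log_ge (max cc (max 4 sm))).and (eventually_ge_atTop 3)))
  refine ⟨X0, fun X hX J0 hJ0 => ?_⟩
  obtain ⟨g1, g2, g3⟩ := hX0 X hX
  have hX3 : (3 : ℝ) ≤ X := by exact_mod_cast g3
  have hX0' : (0 : ℝ) < X := by linarith
  obtain ⟨ℓ, hℓ⟩ : ∃ ℓ, ℓ = Real.log X := ⟨_, rfl⟩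
  rw [← hℓ] at g1 g2 hJ0
  have l4 : 4 ≤ ℓ := (le_trans (le_max_left _ _) (le_max_right _ _)).trans g2
  have lsm : (sm : ℝ) ≤ ℓ := (le_trans (le_max_right _ _) (le_max_right _ _)).trans g2
  have lc : cc ≤ ℓ := (le_max_left _ _).trans g2
  have hp1 : ∀ n : ℕ, 1 ≤ ℓ ^ n := fun n => one_le_pow₀ (by linarith)
  have hpm : ∀ m n : ℕ, m ≤ n → ℓ ^ m ≤ ℓ ^ n := fun m n h => pow_le_pow_right₀ (by linarith) h
  obtain ⟨T, hT⟩ : ∃ T, T = TX X := ⟨_, rfl⟩
  have hT' : T = (X : ℝ) ^ (1 / 1000 : ℝ) := hT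
  rw [← hT'] at g1
  obtain ⟨H, hH⟩ : ∃ H, H = b + C + 6 := ⟨_, rfl⟩
  rw [← hH] at g1
  have hT8 : 8 * ℓ ^ (6 * H) ≤ T :=
    (mul_le_mul_of_nonneg_right (le_max_right cc 8) (by linarith [hp1 (6 * H)])).trans g1
  have hTc : cc * ℓ ^ (6 * H) ≤ T :=
    (mul_le_mul_of_nonneg_right (le_max_left cc 8) (by linarith [hp1 (6 * H)])).trans g1
  have hT1 : 8 ≤ T := by
    have := hp1 (6 * H)
    linarith
  have hT0 : 0 < T := by linarith
  have hTX : T ^ 1000 = X := by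
    rw [hT', ← Real.rpow_natCast, ← Real.rpow_mul hX0'.le]
    norm_num
  have hlT : Real.log T = ℓ / 1000 := by
    rw [hT', Real.log_rpow hX0', ← hℓ]; ring
  -- W
  have hll : 0 ≤ Real.log ℓ := Real.log_nonneg (by linarith)
  have hW : (WX X : ℝ) ≤ ℓ ^ 2 := by
    have h1 : (WX X : ℝ) ≤ (4 : ℝ) ^ (zX X) := by
      have := Wz_le (zX X)
      unfold WX
      exact_mod_cast this
    have h2 : ((zX X : ℕ) : ℝ) ≤ Real.log ℓ := by
      unfold zX
      rw [← hℓ]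
      exact Nat.floor_le hll
    have h3 : (4 : ℝ) ^ (zX X) = Real.exp (zX X * Real.log 4) := by
      rw [mul_comm, Real.exp_mul, Real.exp_log (by norm_num), Real.rpow_natCast]
    have h4 : Real.log 4 ≤ 2 := by
      have : Real.log 4 = 2 * Real.log 2 := by
        rw [show (4 : ℝ) = 2 ^ 2 by norm_num, Real.log_pow]; norm_num
      rw [this]
      have := Real.log_two_lt_d9
      linarith
    have h5 : (zX X : ℝ) * Real.log 4 ≤ 2 * Real.log ℓ := by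
      have h6 : 0 ≤ Real.log 4 := Real.log_nonneg (by norm_num)
      nlinarith
    have h6 : Real.exp (2 * Real.log ℓ) = ℓ ^ 2 := by
      rw [mul_comm, Real.exp_mul, Real.exp_log (by linarith)]
      norm_num
    calc (WX X : ℝ) ≤ Real.exp (zX X * Real.log 4) := by rw [← h3]; exact h1
      _ ≤ Real.exp (2 * Real.log ℓ) := Real.exp_le_exp.2 h5
      _ = _ := h6
  have hW1 : 1 ≤ WX X := Wz_pos _
  have hG1 : ℓ ^ b ≤ GX b X := by unfold GX; rw [← hℓ]; exact Nat.le_ceil _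
  have hG2 : (GX b X : ℝ) ≤ 2 * ℓ ^ b := by
    unfold GX
    rw [← hℓ]
    have := Nat.ceil_lt_add_one (show (0 : ℝ) ≤ ℓ ^ b by linarith [hp1 b])
    linarith [hp1 b]
  have hWG : ((WX X * GX b X : ℕ) : ℝ) ≤ ℓ ^ (b + 3) := by
    push_cast
    calc (WX X : ℝ) * GX b X ≤ ℓ ^ 2 * (2 * ℓ ^ b) := by gcongr
      _ = 2 * ℓ ^ (b + 2) := by ring
      _ ≤ ℓ * ℓ ^ (b + 2) := by
          apply mul_le_mul_of_nonneg_right (by linarith) (by linarith [hp1 (b + 2)])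
      _ = _ := by ring
  have hHm : (HX b sm X J0 : ℝ) ≤ ℓ ^ H := by
    unfold HX
    push_cast at hWG ⊢
    obtain ⟨H', hH'⟩ : ∃ H', H = H' + 1 := ⟨b + C + 5, by omega⟩
    have a1 : (J0 : ℝ) ≤ ℓ ^ H' := hJ0.trans (hpm _ _ (by omega))
    have a2 : (WX X : ℝ) ≤ ℓ ^ H' := hW.trans (hpm _ _ (by omega))
    have a3 : (WX X : ℝ) * GX b X ≤ ℓ ^ H' := hWG.trans (hpm _ _ (by omega))
    have a4 : (sm : ℝ) ≤ ℓ ^ H' := lsm.trans (by
      calc ℓ = ℓ ^ 1 := (pow_one ℓ).symm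
        _ ≤ _ := hpm _ _ (by omega))
    rw [hH', pow_succ]
    have := hp1 H'
    nlinarith
  have hHm1 : 1 ≤ HX b sm X J0 := by unfold HX; omega
  have hsq : √(X : ℝ) = T ^ 500 := by
    rw [Real.sqrt_eq_iff_mul_self_eq (by positivity) (by positivity), ← hTX]
    ring
  have hS1 : T ^ 500 ≤ SX X := by
    unfold SX
    push_cast
    rw [← hsq]
    exact Real.real_sqrt_le_nat_sqrt_succ
  have hT500 : 1 ≤ T ^ 500 := one_le_pow₀ (by linarith)
  have hS2 : (SX X : ℝ) ≤ 2 * T ^ 500 := by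
    unfold SX
    push_cast
    have : ((X.sqrt : ℕ) : ℝ) ≤ T ^ 500 := by rw [← hsq]; exact Real.nat_sqrt_le_real_sqrt
    linarith
  have hHT : ℓ ^ H ≤ T := by
    have h1 : ℓ ^ H ≤ ℓ ^ (6 * H) := hpm _ _ (by omega)
    have := hp1 (6 * H)
    linarith
  have hTS : T ≤ SX X := by
    refine le_trans ?_ hS1
    calc T = T ^ 1 := (pow_one T).symm
      _ ≤ T ^ 500 := pow_le_pow_right₀ (by linarith) (by norm_num)
  have hSY : SX X ≤ YX b sm X J0 := by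
    unfold YX
    nlinarith [Nat.zero_le (SX X), Nat.zero_le (HX b sm X J0 ^ 2)]
  have hY : (YX b sm X J0 : ℝ) ≤ 3 * SX X * ℓ ^ H := by
    unfold YX
    push_cast
    have h1 : (HX b sm X J0 : ℝ) ≤ SX X := hHm.trans (hHT.trans hTS)
    have h2 : (0 : ℝ) ≤ HX b sm X J0 := Nat.cast_nonneg _
    have h3 : (0 : ℝ) ≤ SX X := Nat.cast_nonneg _
    calc 2 * (SX X : ℝ) * HX b sm X J0 + (HX b sm X J0 : ℝ) ^ 2 ≤
          2 * (SX X : ℝ) * HX b sm X J0 + SX X * HX b sm X J0 := by nlinarith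
      _ = 3 * SX X * HX b sm X J0 := by ring
      _ ≤ _ := mul_le_mul_of_nonneg_left hHm (by positivity)
  have hYT : (YX b sm X J0 : ℝ) ≤ T ^ 502 := by
    refine hY.trans ?_
    calc 3 * (SX X : ℝ) * ℓ ^ H ≤ 3 * (2 * T ^ 500) * T := by gcongr
      _ = 6 * T ^ 501 := by ring
      _ ≤ T * T ^ 501 := mul_le_mul_of_nonneg_right (by linarith) (by positivity)
      _ = _ := by ring
  have hYlo : T ^ 500 ≤ (YX b sm X J0 : ℝ) := hS1.trans (by exact_mod_cast hSY)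
  have hY0 : (0 : ℝ) < YX b sm X J0 := lt_of_lt_of_le (by positivity) hYlo
  have hl1 : ℓ / 2 ≤ Real.log (YX b sm X J0) := by
    have h1 := Real.log_le_log (by positivity) hYlo
    rw [Real.log_pow, hlT] at h1
    push_cast at h1
    linarith
  have hl2 : Real.log (YX b sm X J0) ≤ 502 * (ℓ / 1000) := by
    have h1 := Real.log_le_log hY0 hYT
    rw [Real.log_pow, hlT] at h1
    push_cast at h1
    exact h1
  have hR2 : (RX X : ℝ) ≤ T ^ 13 := by
    unfold RX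
    rw [← hT]
    exact Nat.floor_le (by positivity)
  have hR1 : T ^ 12 ≤ RX X := by
    have h1 : T ^ 13 - 1 < RX X := by
      unfold RX
      rw [← hT]
      exact Nat.sub_one_lt_floor _
    have h2 : T ^ 13 = T * T ^ 12 := by ring
    have h3 : 1 ≤ T ^ 12 := one_le_pow₀ (by linarith)
    nlinarith
  have hlR : 12 * (ℓ / 1000) ≤ Real.log (RX X) := by
    have h1 := Real.log_le_log (by positivity) hR1
    rw [Real.log_pow, hlT] at h1
    push_cast at h1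
    exact h1
  exact {
    l4 := by rw [← hℓ]; exact l4
    lc := by rw [← hℓ]; exact lc
    W_le := by rw [← hℓ]; exact hW
    G_ge := by rw [← hℓ]; exact hG1
    WG_le := by rw [← hℓ]; exact hWG
    H_le := by rw [← hℓ, ← hH]; exact hHm
    W1 := hW1
    T1 := by rw [← hT]; linarith
    HT := by rw [← hℓ, ← hH, ← hT]; exact hTc
    T_X := by rw [← hT]; exact hTX
    S_ge := by rw [← hT]; exact hS1
    S_le := by rw [← hT]; exact hS2
    SY := hSY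
    Y_le := by rw [← hℓ, ← hH]; exact hY
    lY1 := by rw [← hℓ]; exact hl1
    lY2 := by rw [← hℓ]; linarith
    R_ge := by rw [← hT]; exact hR1
    R_le := by rw [← hT]; exact hR2
    RY := by linarith }

end Pool.Agent.N913.MT
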