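import Pool.Agent.N913.MT.F10

set_option autoImplicit false

/-! From the classes to almost all `a`. -/

namespace Pool.Agent.N913.MT

open Finset Filter

/-- one window -/
theorem pointwise (m : ℕ) : ∃ k B : ℕ, ∀ S : Finset ℕ, k ≤ S.card → ∀ (C : ℕ) (ε : ℝ), 0 < ε →
    ∃ X₀ : ℕ, ∀ X : ℕ, X₀ ≤ X → ∀ J : ℕ, (J : ℝ) ≤ Real.log X ^ C →
    ∃ Bad ⊆ Icc (-(X : ℤ)) (-1), (Bad.card : ℝ) ≤ ε * X ∧ ∀ a ∈ Icc (-(X : ℤ)) (-1), a ∉ Bad →
      ∃ n : ℕ, Real.sqrt (-(a : ℝ)) + J < n ∧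
        (n : ℝ) ≤ Real.sqrt (-(a : ℝ)) + J + Real.log X ^ B ∧
        m ≤ (S.filter (fun h => Nat.Prime (((n + h : ℕ) : ℤ) ^ 2 + a).natAbs)).card := by
  classical
  obtain ⟨c0, hc0, zc, hzc⟩ := Wphi
  obtain ⟨K, hK⟩ : ∃ K, K = ⌈12096000 * (m : ℝ) / c0⌉₊ := ⟨_, rfl⟩
  have hK1 : 12096000 * (m : ℝ) < c0 * (K + 1) := by
    have h1 : 12096000 * (m : ℝ) / c0 ≤ K := by rw [hK]; exact Nat.le_ceil _
    rw [div_le_iff₀ hc0] at h1
    nlinarith
  obtain ⟨b, hb⟩ : ∃ b, b = 12 * 2 ^ (2 * (2 * 2 ^ K)) + 4 := ⟨_, rfl⟩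
  refine ⟨(2 * 2 ^ K).factorial * 2 ^ K, b + 3, fun S hS C ε hε => ?_⟩
  obtain ⟨D, hD⟩ : ∃ D, D = (2 * 2 ^ K).factorial := ⟨_, rfl⟩
  have hD0 : 0 < D := by rw [hD]; exact Nat.factorial_pos _
  rw [← hD] at hS
  obtain ⟨y, _, hy⟩ := exists_le_card_fiber_of_mul_le_card_of_maps_to
    (s := S) (t := range D) (f := fun x => x % D) (n := 2 ^ K)
    (fun x _ => mem_range.2 (Nat.mod_lt _ hD0)) ⟨0, mem_range.2 hD0⟩ (by rw [card_range]; exact hS)
  obtain ⟨T, hT1, hT2⟩ := exists_subset_card_eq hy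
  have hTS : T ⊆ S := hT1.trans (filter_subset _ _)
  have hTD : ∀ x ∈ T, x % D = y := fun x hx => (mem_filter.1 (hT1 hx)).2
  have hJ : Fintype.card ↥T = 2 ^ K := by rw [Fintype.card_coe, hT2]
  have hbJ : b = 12 * 2 ^ (Fintype.card (Fin 2 × Bool × ↥T)) + 4 := by
    rw [hb, Fintype.card_prod, Fintype.card_prod, hJ, Fintype.card_fin, Fintype.card_bool]
  have hcong : ∀ p : ℕ, p.Prime → p ≤ 2 * Fintype.card ↥T → ∀ j j' : ↥T,
      (p : ℤ) ∣ (((j : ℕ)) : ℤ) - ((j' : ℕ) : ℤ) := by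
    intro p hp hpl j j'
    rw [hJ] at hpl
    have h1 : p ∣ D := by rw [hD]; exact Nat.dvd_factorial hp.pos hpl
    have h2 : (j' : ℕ) ≡ (j : ℕ) [MOD D] := by
      unfold Nat.ModEq
      rw [hTD _ j.2, hTD _ j'.2]
    exact dvd_trans (by exact_mod_cast h1) h2.dvd
  obtain ⟨θ, hθ⟩ : ∃ θ : ℝ, θ = min (1 / 2) (ε / (176 * (2 ^ K + 1))) := ⟨_, rfl⟩
  have hθ0 : 0 < θ := by rw [hθ]; apply lt_min (by norm_num); positivity
  have hθ1 : θ ≤ 1 / 2 := by rw [hθ]; exact min_le_left _ _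
  have hθ2 : 176 * ((2 : ℝ) ^ K + 1) * θ ≤ ε := by
    have h1 : θ ≤ ε / (176 * (2 ^ K + 1)) := by rw [hθ]; exact min_le_right _ _
    rw [le_div_iff₀ (by positivity)] at h1
    linarith
  obtain ⟨X0, hX0⟩ := class_thm (J := ↥T) K m hJ c0 hc0 zc hzc hK1 (fun j => (j : ℕ))
    (fun j j' hjj h => hjj (Subtype.ext h)) hcong (T.sup id)
    (fun j => le_sup (f := id) j.2) b C hbJ θ hθ0 hθ1
  refine ⟨X0, fun X hX J hJl => ?_⟩
  obtain ⟨_, hWG, hS4, hW1, hcls⟩ := hX0 X hX J hJl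
  choose B hB1 hB2 hB3 using hcls
  obtain ⟨W, hW⟩ : ∃ W, W = WX X := ⟨_, rfl⟩
  rw [← hW] at hWG hW1 hB1 hB2 hB3
  refine ⟨(((range W ×ˢ range W).biUnion (fun c => B c.1 c.2)).image
    (fun n => -((n.1 ^ 2 + n.2 : ℕ) : ℤ))).filter (fun a => a ∈ Icc (-(X : ℤ)) (-1)), ?_, ?_, ?_⟩
  · intro a ha
    exact (mem_filter.1 ha).2
  · have hWr : (1 : ℝ) ≤ W := by exact_mod_cast hW1
    have h1 : ((((range W ×ˢ range W).biUnion (fun c => B c.1 c.2)).image
        (fun n => -((n.1 ^ 2 + n.2 : ℕ) : ℤ))).filter (fun a => a ∈ Icc (-(X : ℤ)) (-1))).card ≤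
        ∑ c ∈ range W ×ˢ range W, (B c.1 c.2).card :=
      (card_filter_le _ _).trans (card_image_le.trans card_biUnion_le)
    calc _ ≤ ((∑ c ∈ range W ×ˢ range W, (B c.1 c.2).card : ℕ) : ℝ) := by exact_mod_cast h1
      _ = ∑ c ∈ range W ×ˢ range W, ((B c.1 c.2).card : ℝ) := by push_cast; rfl
      _ ≤ ∑ c ∈ range W ×ˢ range W,
          44 * ((Fintype.card ↥T : ℝ) + 1) * θ * ((SX X : ℝ) ^ 2 / (W : ℝ) ^ 2) :=
          sum_le_sum fun c _ => hB2 c.1 c.2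
      _ = 44 * ((2 : ℝ) ^ K + 1) * θ * (SX X : ℝ) ^ 2 := by
          rw [sum_const, card_product, card_range, nsmul_eq_mul, hJ]
          push_cast
          field_simp
      _ ≤ 44 * ((2 : ℝ) ^ K + 1) * θ * (4 * X) := mul_le_mul_of_nonneg_left hS4 (by positivity)
      _ = (176 * ((2 : ℝ) ^ K + 1) * θ) * X := by ring
      _ ≤ ε * X := mul_le_mul_of_nonneg_right hθ2 (Nat.cast_nonneg _)
  · intro a ha haB
    obtain ⟨ha1, ha2⟩ := mem_Icc.1 ha
    obtain ⟨K', hK'⟩ : ∃ K' : ℕ, a = -(K' : ℤ) := ⟨(-a).toNat, by omega⟩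
    have hKX : K' ≤ X := by omega
    obtain ⟨s, hs⟩ : ∃ s, s = K'.sqrt := ⟨_, rfl⟩
    have hs1 : s * s ≤ K' := by rw [hs]; exact Nat.sqrt_le K'
    have hs2 : K' < (s + 1) * (s + 1) := by rw [hs]; exact Nat.lt_succ_sqrt K'
    obtain ⟨r, hr⟩ : ∃ r, K' = s * s + r := ⟨K' - s * s, by omega⟩
    have hr2 : r ≤ 2 * s := by
      have : (s + 1) * (s + 1) = s * s + 2 * s + 1 := by ring
      omega
    have hsX : s < SX X := by
      unfold SX
      rw [hs]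
      exact Nat.lt_succ_of_le (Nat.sqrt_le_sqrt hKX)
    have hmem : (s, r) ∈ CS (SX X) W (s % W) (r % W) := by
      unfold CS
      rw [mem_filter, mem_product, mem_range, mem_range]
      refine ⟨⟨hsX, ?_⟩, hr2, (Nat.mod_modEq s W).symm, (Nat.mod_modEq r W).symm⟩
      show r < 2 * SX X
      omega
    have hnB : (s, r) ∉ B (s % W) (r % W) := by
      intro hB
      apply haB
      rw [mem_filter, mem_image]
      refine ⟨⟨(s, r), ?_, ?_⟩, ha⟩
      · rw [mem_biUnion]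
        exact ⟨(s % W, r % W), mem_product.2 ⟨mem_range.2 (Nat.mod_lt _ hW1),
          mem_range.2 (Nat.mod_lt _ hW1)⟩, hB⟩
      · rw [hK', hr]
        push_cast
        ring
    obtain ⟨i, hi1, hi2, hi3⟩ := hB3 _ _ (s, r) hmem hnB
    refine ⟨s + i, ?_, ?_, ?_⟩
    · have h1 : Real.sqrt (-(a : ℝ)) < s + 1 := by
        rw [hK', hs]
        push_cast
        rw [neg_neg]
        exact Real.real_sqrt_lt_nat_sqrt_succ
      have h2 : (J : ℝ) + 1 ≤ i := by exact_mod_cast hi1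
      push_cast
      linarith
    · have h1 : (s : ℝ) ≤ Real.sqrt (-(a : ℝ)) := by
        rw [hK', hs]
        push_cast
        rw [neg_neg]
        exact Real.nat_sqrt_le_real_sqrt
      have h2 : (i : ℝ) ≤ J + ((W * GX b X : ℕ) : ℝ) := by exact_mod_cast hi2
      push_cast at h2 hWG ⊢
      linarith
    · refine hi3.trans ?_
      apply card_le_card_of_injOn (fun l : ↥T => (l : ℕ))
      · intro l hl
        have hl' := (mem_filter.1 (mem_coe.1 hl)).2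
        rw [mem_coe, mem_filter]
        refine ⟨hTS l.2, ?_⟩
        have h1 : (((s + i + (l : ℕ) : ℕ) : ℤ) ^ 2 + a).natAbs =
            2 * s * (i + l) + (i + l) ^ 2 - r := by
          have h2 : r ≤ 2 * s * (i + l) + (i + l) ^ 2 := by
            have h3 : 1 ≤ i + (l : ℕ) := by omega
            calc r ≤ 2 * s := hr2
              _ = 2 * s * 1 := by ring
              _ ≤ 2 * s * (i + l) := Nat.mul_le_mul_left _ h3
              _ ≤ _ := Nat.le_add_right _ _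
          have h4 : (((s + i + (l : ℕ) : ℕ) : ℤ) ^ 2 + a) =
              ((2 * s * (i + l) + (i + l) ^ 2 - r : ℕ) : ℤ) := by
            rw [hK', hr, Nat.cast_sub h2]
            push_cast
            ring
          rw [h4, Int.natAbs_natCast]
        rw [h1]
        exact hl'
      · intro l _ l' _ hll
        exact Subtype.ext hll

/-- many windows at once -/
theorem windows (m : ℕ) : ∃ k B : ℕ, ∀ S : Finset ℕ, k ≤ S.card → ∀ (C : ℕ) (ε : ℝ), 0 < ε →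
    ∃ X₀ : ℕ, ∀ X : ℕ, X₀ ≤ X → ∀ 𝒥 : Finset ℕ, (∀ J ∈ 𝒥, (J : ℝ) ≤ Real.log X ^ C) →
    ∃ Bad ⊆ Icc (-(X : ℤ)) (-1), (Bad.card : ℝ) ≤ ε * X ∧ ∀ a ∈ Icc (-(X : ℤ)) (-1), a ∉ Bad →
      ∃ 𝒢 ⊆ 𝒥, (1 - ε) * 𝒥.card ≤ 𝒢.card ∧ ∀ J ∈ 𝒢, ∃ n : ℕ, Real.sqrt (-(a : ℝ)) + J < n ∧
        (n : ℝ) ≤ Real.sqrt (-(a : ℝ)) + J + Real.log X ^ B ∧
        m ≤ (S.filter (fun h => Nat.Prime (((n + h : ℕ) : ℤ) ^ 2 + a).natAbs)).card := by
  classical
  obtain ⟨k, B, h⟩ := pointwise m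
  refine ⟨k, B, fun S hS C ε hε => ?_⟩
  obtain ⟨X₀, hX₀⟩ := h S hS C (ε ^ 2) (by positivity)
  refine ⟨X₀, fun X hX 𝒥 h𝒥 => ?_⟩
  obtain ⟨P, hP⟩ : ∃ P : ℤ → ℕ → Prop, P = fun (a : ℤ) (J : ℕ) => ∃ n : ℕ, Real.sqrt (-(a : ℝ)) + J < n ∧
        (n : ℝ) ≤ Real.sqrt (-(a : ℝ)) + J + Real.log X ^ B ∧
        m ≤ (S.filter (fun h => Nat.Prime (((n + h : ℕ) : ℤ) ^ 2 + a).natAbs)).card := ⟨_, rfl⟩
  have hJ1 : ∀ J ∈ 𝒥, (((Icc (-(X : ℤ)) (-1)).filter (fun a => ¬ P a J)).card : ℝ) ≤ ε ^ 2 * X := by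
    intro J hJ
    obtain ⟨Bad, hb1, hb2, hb3⟩ := hX₀ X hX J (h𝒥 J hJ)
    refine le_trans ?_ hb2
    have : (Icc (-(X : ℤ)) (-1)).filter (fun a => ¬ P a J) ⊆ Bad := by
      intro a ha
      obtain ⟨ha1, ha2⟩ := mem_filter.1 ha
      by_contra hab
      apply ha2
      rw [hP]
      exact hb3 a ha1 hab
    exact_mod_cast card_le_card this
  refine ⟨(Icc (-(X : ℤ)) (-1)).filter (fun a => ε * 𝒥.card < ((𝒥.filter (fun J => ¬ P a J)).card : ℝ)),
    filter_subset _ _, ?_, ?_⟩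
  · rcases Nat.eq_zero_or_pos 𝒥.card with h0 | h0
    · have : (Icc (-(X : ℤ)) (-1)).filter
          (fun a => ε * 𝒥.card < ((𝒥.filter (fun J => ¬ P a J)).card : ℝ)) = ∅ := by
        rw [filter_eq_empty_iff]
        intro a _
        rw [h0, not_lt]
        have h1 : (𝒥.filter (fun J => ¬ P a J)).card ≤ 0 := h0 ▸ card_filter_le _ _
        have h2 : ((𝒥.filter (fun J => ¬ P a J)).card : ℝ) ≤ 0 := by exact_mod_cast h1
        simpa using h2
      rw [this, card_empty]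
      push_cast
      positivity
    · have h0' : (0 : ℝ) < 𝒥.card := by exact_mod_cast h0
      obtain ⟨Bd, hBd⟩ : ∃ Bd, Bd = (Icc (-(X : ℤ)) (-1)).filter
          (fun a => ε * 𝒥.card < ((𝒥.filter (fun J => ¬ P a J)).card : ℝ)) := ⟨_, rfl⟩
      rw [← hBd]
      have h1 : (Bd.card : ℝ) * (ε * 𝒥.card) ≤ 𝒥.card * (ε ^ 2 * X) := by
        calc (Bd.card : ℝ) * (ε * 𝒥.card) = ∑ a ∈ Bd, (ε * 𝒥.card : ℝ) := by
              rw [sum_const, nsmul_eq_mul]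
          _ ≤ ∑ a ∈ Bd, ((𝒥.filter (fun J => ¬ P a J)).card : ℝ) := by
              apply sum_le_sum
              intro a ha
              rw [hBd] at ha
              exact (mem_filter.1 ha).2.le
          _ ≤ ∑ a ∈ Icc (-(X : ℤ)) (-1), ((𝒥.filter (fun J => ¬ P a J)).card : ℝ) := by
              apply sum_le_sum_of_subset_of_nonneg
              · rw [hBd]; exact filter_subset _ _
              · intro a _ _
                exact Nat.cast_nonneg _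
          _ = ∑ J ∈ 𝒥, (((Icc (-(X : ℤ)) (-1)).filter (fun a => ¬ P a J)).card : ℝ) := by
              have := sum_card_bipartiteAbove_eq_sum_card_bipartiteBelow
                (s := Icc (-(X : ℤ)) (-1)) (t := 𝒥) (fun a J => ¬ P a J)
              unfold bipartiteAbove bipartiteBelow at this
              exact_mod_cast this
          _ ≤ ∑ J ∈ 𝒥, (ε ^ 2 * X : ℝ) := sum_le_sum hJ1
          _ = _ := by rw [sum_const, nsmul_eq_mul]
      have h2 : (Bd.card : ℝ) * (ε * 𝒥.card) ≤ (ε * X) * (ε * 𝒥.card) := by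
        calc _ ≤ _ := h1
          _ = _ := by ring
      exact le_of_mul_le_mul_right h2 (by positivity)
  · intro a ha haB
    refine ⟨𝒥.filter (fun J => P a J), filter_subset _ _, ?_, ?_⟩
    · have h1 : ((𝒥.filter (fun J => ¬ P a J)).card : ℝ) ≤ ε * 𝒥.card := by
        by_contra hc
        exact haB (mem_filter.2 ⟨ha, not_le.1 hc⟩)
      have h2 : (𝒥.card : ℝ) = (𝒥.filter (fun J => P a J)).card +
          (𝒥.filter (fun J => ¬ P a J)).card := by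
        have := card_filter_add_card_filter_not (s := 𝒥) (fun J => P a J)
        exact_mod_cast this.symm
      linarith
    · intro J hJ
      have := (mem_filter.1 hJ).2
      rw [hP] at this
      exact this

end Pool.Agent.N913.MT
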